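import Pool.Agent.Lib.Tower.Blue

set_option autoImplicit false

open NumberField IsDedekindDomain WithZero Module Subgroup

namespace Pool.Agent.Lib.Tower

namespace Bits

/-- A finite valued test function bounds a relative index. -/
lemma relIndex_le_of_test {G : Type*} [Group G] (H' H : Subgroup G) {T : Type*} [Finite T]
    (f : H → T) (hf : ∀ a b : H, f a = f b → (a : G)⁻¹ * b ∈ H') :
    H'.relIndex H ≠ 0 ∧ H'.relIndex H ≤ Nat.card T := by
  let g : H ⧸ H'.subgroupOf H → T := fun q => f q.out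
  have hg : Function.Injective g := fun q q' h => by
    rw [← QuotientGroup.out_eq' q, ← QuotientGroup.out_eq' q', QuotientGroup.eq,
      Subgroup.mem_subgroupOf]
    exact hf _ _ h
  have : Finite (H ⧸ H'.subgroupOf H) := Finite.of_injective g hg
  exact ⟨Nat.card_pos.ne', Nat.card_le_card_of_injective g hg⟩

lemma exists_conj {K L E : Type} [Field K] [Field L] [Algebra K L] [Field E] [IsGalois K L]
    (φ ψ : L →+* E) (h : φ.comp (algebraMap K L) = ψ.comp (algebraMap K L)) :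
    ∃ σ : L ≃ₐ[K] L, ∀ x, φ (σ x) = ψ x := by
  let := (φ.comp (algebraMap K L)).toAlgebra
  let := φ.toAlgebra
  have : IsScalarTower K L E := IsScalarTower.of_algebraMap_eq' rfl
  let ψ' : L →ₐ[K] E := { ψ with commutes' := fun r ↦ (RingHom.congr_fun h r).symm }
  exact ⟨AlgHom.restrictNormal' ψ' L, fun x => AlgHom.restrictNormal_commutes ψ' L x⟩

lemma locE_index (h1 : TsDownStmt) (K L E : Type) [Field K] [NumberField K] [Field L]
    [NumberField L] [Algebra K L] [Field E] [CharZero E] [IsGalois K L]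
    (hE : (square Eˣ).index ≠ 0 ∧ (square Eˣ).index ≤ 8) :
    (LocE L E).relIndex (XG K L) ≠ 0 ∧ (LocE L E).relIndex (XG K L) ≤ 8 ^ finrank ℚ K := by
  classical
  obtain ⟨hfin, hcard, -⟩ := h1 K L E
  have : Finite (Eˣ ⧸ square Eˣ) := Nat.finite_of_card_ne_zero hE.1
  let f : XG K L → (K →+* E) → Eˣ ⧸ square Eˣ := fun x i =>
    if h : ∃ j : L →+* E, j.comp (algebraMap K L) = i then
      (Units.map (h.choose : L →* E) (x : Lˣ) : Eˣ) else 1
  obtain ⟨h0, hle⟩ := relIndex_le_of_test (LocE L E) (XG K L) f fun a b hab j => by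
    have hj : ∃ j' : L →+* E, j'.comp (algebraMap K L) = j.comp (algebraMap K L) := ⟨j, rfl⟩
    have h2 := congrFun hab (j.comp (algebraMap K L))
    simp only [f, dif_pos hj] at h2
    rw [QuotientGroup.eq, mem_square, ← map_inv, ← map_mul, isSquare_units_iff] at h2
    obtain ⟨σ, hσ⟩ := exists_conj hj.choose j hj.choose_spec
    have h3 : IsSquare (σ (((a : Lˣ)⁻¹ * b : Lˣ) : L) / (((a : Lˣ)⁻¹ * b : Lˣ) : L)) :=
      (XG K L).mul_mem ((XG K L).inv_mem a.2) b.2 σ
    rw [← hσ, ← div_mul_cancel₀ (σ _) ((a : Lˣ)⁻¹ * b : Lˣ).ne_zero, map_mul]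
    exact (h3.map _).mul h2
  refine ⟨h0, hle.trans ?_⟩
  rw [Nat.card_fun]
  exact (Nat.pow_le_pow_left hE.2 _).trans (Nat.pow_le_pow_right (by norm_num) hcard)

end Bits

open Bits in
theorem bits (h1 : TsDownStmt) (h2 : SqStmt) : BitsStmt := by
  intro K L _ _ _ _ _ Q hG
  classical
  have hR := locE_index h1 K L ℝ ⟨by rw [h2.1]; norm_num, by rw [h2.1]; norm_num⟩
  let f : Q.filter Nat.Prime → Subgroup Lˣ := fun q =>
    haveI : Fact (q : ℕ).Prime := ⟨(Finset.mem_filter.1 q.2).2⟩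
    LocE L ℚ_[q]
  have hf : ∀ q, (f q).relIndex (XG K L) ≠ 0 ∧ (f q).relIndex (XG K L) ≤ 8 ^ finrank ℚ K :=
    fun q =>
      haveI : Fact (q : ℕ).Prime := ⟨(Finset.mem_filter.1 q.2).2⟩
      locE_index h1 K L ℚ_[q] (h2.2 q)
  have e : Loc L Q = LocE L ℝ ⊓ ⨅ q, f q := by
    ext x
    rw [mem_inf, mem_iInf]
    exact and_congr_right' ⟨fun h q => @h q ⟨(Finset.mem_filter.1 q.2).2⟩ (Finset.mem_filter.1 q.2).1,
      fun h q hq hQ => h ⟨q, Finset.mem_filter.2 ⟨hQ, hq.out⟩⟩⟩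
  rw [e]
  refine ⟨relIndex_inf_ne_zero hR.1 (relIndex_iInf_ne_zero fun q => (hf q).1),
    relIndex_inf_le.trans ?_⟩
  rw [mul_add, mul_one, pow_add, mul_comm (8 ^ _)]
  refine Nat.mul_le_mul hR.2 ((relIndex_iInf_le f).trans ?_)
  refine (Finset.prod_le_pow_card _ _ _ fun q _ => (hf q).2).trans ?_
  rw [← pow_mul, Finset.card_univ, Fintype.card_coe]
  exact Nat.pow_le_pow_right (by norm_num) (Nat.mul_le_mul_left _ (Finset.card_filter_le _ _))

end Pool.Agent.Lib.Tower
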