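import Pool.Agent.Lib.Tower.Blue2

set_option autoImplicit false

open NumberField IsDedekindDomain WithZero Module Subgroup

namespace Pool.Agent.Lib.Tower
open Pool.Agent.Lib.helper22.Val

namespace Base

/-- pigeonhole at one place -/
lemma pig1 (E : Type) [Field E] [CharZero E] (h0 : (square Eˣ).index ≠ 0)
    (h8 : (square Eˣ).index ≤ 8) (k : ℕ) (F : Finset ℕ) (hF : ∀ a ∈ F, a ≠ 0)
    (hc : 8 * k ≤ F.card) :
    ∃ P ⊆ F, k ≤ P.card ∧ ∀ a ∈ P, ∀ b ∈ P, IsSquare ((a : E) * b) := by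
  classical
  have : Finite (Eˣ ⧸ square Eˣ) := Nat.finite_of_card_ne_zero h0
  have := Fintype.ofFinite (Eˣ ⧸ square Eˣ)
  let f : ℕ → Eˣ ⧸ square Eˣ := fun a =>
    if h : (a : E) = 0 then 1 else QuotientGroup.mk (Units.mk0 (a : E) h)
  have h1 : (Finset.univ : Finset (Eˣ ⧸ square Eˣ)).card * k ≤ F.card := by
    refine le_trans (Nat.mul_le_mul_right k ?_) hc
    rw [Finset.card_univ, ← Nat.card_eq_fintype_card]
    exact h8
  obtain ⟨y, -, hy⟩ := Finset.exists_le_card_fiber_of_mul_le_card_of_maps_to (f := f)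
    (fun a _ => Finset.mem_univ _) Finset.univ_nonempty h1
  refine ⟨_, Finset.filter_subset _ _, hy, fun a ha b hb => ?_⟩
  obtain ⟨ha, ha'⟩ := Finset.mem_filter.mp ha
  obtain ⟨hb, hb'⟩ := Finset.mem_filter.mp hb
  have a0 : (a : E) ≠ 0 := Nat.cast_ne_zero.mpr (hF a ha)
  have b0 : (b : E) ≠ 0 := Nat.cast_ne_zero.mpr (hF b hb)
  have h2 : f a = f b := ha'.trans hb'.symm
  simp only [f, dif_neg a0, dif_neg b0] at h2
  obtain ⟨r, hr⟩ := Subgroup.mem_square.mp (QuotientGroup.eq.mp h2)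
  have h3 := congrArg Units.val hr
  simp only [Units.val_mul, Units.val_inv_eq_inv_val, Units.val_mk0] at h3
  refine ⟨a * r, ?_⟩
  rw [mul_mul_mul_comm, ← h3]
  field_simp

/-- pigeonhole at all places of `Q` -/
lemma pig (hs : SqStmt) (Q : Finset ℕ) : ∀ (k : ℕ) (F : Finset ℕ), (∀ a ∈ F, a ≠ 0) →
    8 ^ Q.card * k ≤ F.card → ∃ P ⊆ F, k ≤ P.card ∧ ∀ (q : ℕ) [Fact q.Prime], q ∈ Q →
      ∀ a ∈ P, ∀ b ∈ P, IsSquare ((a : ℚ_[q]) * b) := by
  classical
  induction Q using Finset.induction_on with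
  | empty =>
    intro k F _ hc
    exact ⟨F, le_rfl, by simpa using hc, fun q _ hq => absurd hq (Finset.notMem_empty q)⟩
  | insert q Q hq ih =>
    intro k F hF hc
    rw [Finset.card_insert_of_notMem hq, pow_succ, mul_assoc] at hc
    obtain ⟨P, hP, hk, h⟩ := ih (8 * k) F hF hc
    by_cases hp : q.Prime
    · have : Fact q.Prime := ⟨hp⟩
      obtain ⟨R, hR, hk', h'⟩ := pig1 ℚ_[q] (hs.2 q).1 (hs.2 q).2 k P (fun a ha => hF a (hP ha)) hk
      refine ⟨R, hR.trans hP, hk', fun r _ hr a ha b hb => ?_⟩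
      rcases Finset.mem_insert.mp hr with rfl | hr
      · exact h' a ha b hb
      · exact h r hr a (hR ha) b (hR hb)
    · refine ⟨P, hP, by omega, fun r hr' hr a ha b hb => ?_⟩
      rcases Finset.mem_insert.mp hr with rfl | hr
      · exact absurd hr'.out hp
      · exact h r hr a ha b hb

lemma sq_prod {E : Type} [Field E] [CharZero E] {P : Finset ℕ} {n : ℕ} (hc : P.card = 2 * n + 2)
    (h0 : ∀ a ∈ P, a ≠ 0) (h : ∀ a ∈ P, ∀ b ∈ P, IsSquare ((a : E) * b)) :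
    IsSquare ((∏ a ∈ P, a : ℕ) : E) := by
  obtain ⟨b, hb⟩ : P.Nonempty := Finset.card_pos.mp (by omega)
  have b0 : (b : E) ≠ 0 := Nat.cast_ne_zero.mpr (h0 b hb)
  obtain ⟨r, hr⟩ : IsSquare (∏ a ∈ P, ((a : E) * b)) :=
    Finset.prod_induction _ IsSquare (fun _ _ => IsSquare.mul) IsSquare.one fun a ha => h a ha b hb
  rw [Finset.prod_mul_distrib, Finset.prod_const, hc] at hr
  refine ⟨r / b ^ (n + 1), ?_⟩
  rw [div_mul_div_comm, ← hr, Nat.cast_prod, ← pow_add, show n + 1 + (n + 1) = 2 * n + 2 by ring,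
    mul_div_cancel_right₀ _ (pow_ne_zero _ b0)]

lemma fact_prod {A : Finset ℕ} (hA : ∀ a ∈ A, a.Prime) (l : ℕ) :
    (∏ a ∈ A, a).factorization l = if l ∈ A then 1 else 0 := by
  classical
  rw [Nat.factorization_prod fun a ha => (hA a ha).ne_zero, Finset.sum_apply',
    Finset.sum_congr rfl fun a ha => by rw [(hA a ha).factorization, Finsupp.single_apply]]
  simp

lemma even_fact {N : ℕ} (hN : N ≠ 0) (h : IsSquare (N : ℚ)) (l : ℕ) : Even (N.factorization l) := by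
  obtain ⟨r, rfl⟩ := Rat.isSquare_natCast_iff.mp h
  have hr : r ≠ 0 := by rintro rfl; simp at hN
  rw [Nat.factorization_mul hr hr]
  exact ⟨_, rfl⟩

lemma prod_ne {A : Finset ℕ} (hA : ∀ a ∈ A, a.Prime) : ∏ a ∈ A, a ≠ 0 :=
  Finset.prod_ne_zero_iff.mpr fun a ha => (hA a ha).ne_zero

lemma ts_rat (E : Type) [Field E] [CharZero E] : TS ℚ E := by
  have : Unique (ℚ →+* E) := ⟨⟨Rat.castHom E⟩, fun _ => Subsingleton.elim _ _⟩
  rw [TS, Nat.card_unique, finrank_self]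

section
variable {K : Type} [Field K] [NumberField K]

lemma ord_prod (w : Pr K) {A : Finset ℕ} (hA : ∀ a ∈ A, a.Prime) :
    ord w ((∏ a ∈ A, a : ℕ) : K) = ∑ a ∈ A, ord w (a : K) := by
  classical
  induction A using Finset.induction_on with
  | empty => simp [ord_one]
  | insert a A ha ih =>
    have h1 : ∀ b ∈ A, b.Prime := fun b hb => hA b (Finset.mem_insert_of_mem hb)
    rw [Finset.prod_insert ha, Finset.sum_insert ha, Nat.cast_mul,
      ord_mul w (Nat.cast_ne_zero.mpr (hA a (Finset.mem_insert_self _ _)).ne_zero)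
        (Nat.cast_ne_zero.mpr (prod_ne h1)), ih h1]

lemma even_ord {P : Finset ℕ} (hP : ∀ a ∈ P, a.Prime) {θ : K}
    (h : θ ^ 2 = ((∏ a ∈ P, a : ℕ) : K)) (w : Pr K) {l : ℕ} (hl : l ∈ P) :
    Even (ord w (l : K)) := by
  by_cases hw : (l : 𝓞 K) ∈ w.asIdeal
  · have h1 := ord_prod w hP
    rw [← h, ord_pow, Finset.sum_eq_single_of_mem l hl fun b hb hne => ?_] at h1
    · exact ⟨ord w θ, by rw [← h1]; push_cast; ring⟩
    · rw [ord_eq_zero_iff w (Nat.cast_ne_zero.mpr (hP b hb).ne_zero)]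
      exact val_nat_eq_one hw ((Nat.coprime_primes (hP l hl) (hP b hb)).mpr hne.symm)
  · have h1 : ord w (l : K) = 0 := by
      rw [ord_eq_zero_iff w (Nat.cast_ne_zero.mpr (hP l hl).ne_zero)]
      exact le_antisymm (val_natCast_le w l) (not_lt.mp fun h2 => hw ((val_natCast_lt_iff w l).mp h2))
    rw [h1]
    exact Even.zero

lemma selmer {P : Finset ℕ} (hP : ∀ a ∈ P, a.Prime) {n : ℕ} (hc : P.card = 2 * n + 2) {θ : K}
    {σ : K ≃ₐ[ℚ] K} (h : Quad ((∏ a ∈ P, a : ℕ) : ℚ) θ σ)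
    (h0 : (square Kˣ).relIndex (Ev K) ≠ 0) : 2 ^ n < (square Kˣ).relIndex (Ev K) := by
  classical
  obtain ⟨l, hl⟩ : P.Nonempty := Finset.card_pos.mp (by omega)
  have hsq : θ ^ 2 = ((∏ a ∈ P, a : ℕ) : K) := by rw [h.sq, map_natCast]
  have hE : ∀ A : (P.erase l).powerset, ∀ a ∈ A.1, a ∈ P := fun A a ha =>
    Finset.mem_of_mem_erase (Finset.mem_powerset.mp A.2 ha)
  have hpr : ∀ A : (P.erase l).powerset, ∀ a ∈ A.1, a.Prime := fun A a ha => hP a (hE A a ha)
  let u : (P.erase l).powerset → Ev K := fun A =>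
    ⟨Units.mk0 ((∏ a ∈ A.1, a : ℕ) : K) (Nat.cast_ne_zero.mpr (prod_ne (hpr A))), fun w => by
      rw [Units.val_mk0, ord_prod w (hpr A)]
      exact Finset.even_sum _ fun a ha => even_ord hP hsq w (hE A a ha)⟩
  have : Finite (Ev K ⧸ (square Kˣ).subgroupOf (Ev K)) := Nat.finite_of_card_ne_zero h0
  have hinj : Function.Injective fun A =>
      (QuotientGroup.mk (u A) : Ev K ⧸ (square Kˣ).subgroupOf (Ev K)) := fun A B hAB => by
    have h1 := Subgroup.mem_square.mp (Subgroup.mem_subgroupOf.mp (QuotientGroup.eq.mp hAB))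
    obtain ⟨r, hr⟩ := h1
    have h3 := congrArg Units.val hr
    simp only [u, Subgroup.coe_mul, Subgroup.coe_inv, Units.val_mul, Units.val_inv_eq_inv_val,
      Units.val_mk0] at h3
    have a0 : ((∏ a ∈ A.1, a : ℕ) : K) ≠ 0 := Nat.cast_ne_zero.mpr (prod_ne (hpr A))
    have h4 : IsSquare (algebraMap ℚ K (((∏ a ∈ A.1, a) * ∏ a ∈ B.1, a : ℕ) : ℚ)) := by
      rw [map_natCast, Nat.cast_mul]
      refine ⟨((∏ a ∈ A.1, a : ℕ) : K) * r, ?_⟩
      rw [mul_mul_mul_comm, ← h3]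
      field_simp
    have hA := prod_ne (hpr A)
    have hB := prod_ne (hpr B)
    rcases (h.isSquare_iff _).mp h4 with h5 | h5
    · refine Subtype.ext (Finset.ext fun a => ?_)
      have h6 := even_fact (mul_ne_zero hA hB) h5 a
      rw [Nat.factorization_mul hA hB, Finsupp.add_apply, fact_prod (hpr A), fact_prod (hpr B)] at h6
      by_cases ha : a ∈ A.1 <;> by_cases hb : a ∈ B.1 <;> simp_all
    · rw [← Nat.cast_mul] at h5
      have h6 := even_fact (mul_ne_zero (prod_ne hP) (mul_ne_zero hA hB)) h5 l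
      have hlA : l ∉ A.1 := fun h7 => Finset.notMem_erase l P (Finset.mem_powerset.mp A.2 h7)
      have hlB : l ∉ B.1 := fun h7 => Finset.notMem_erase l P (Finset.mem_powerset.mp B.2 h7)
      rw [Nat.factorization_mul (prod_ne hP) (mul_ne_zero hA hB), Nat.factorization_mul hA hB,
        Finsupp.add_apply, Finsupp.add_apply, fact_prod hP, fact_prod (hpr A), fact_prod (hpr B),
        if_pos hl, if_neg hlA, if_neg hlB] at h6
      exact absurd h6 (by decide)
  have h1 := Nat.card_le_card_of_injective _ hinj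
  rw [Nat.card_eq_fintype_card, Fintype.card_coe, Finset.card_powerset,
    Finset.card_erase_of_mem hl, hc] at h1
  exact lt_of_lt_of_le (Nat.pow_lt_pow_right one_lt_two (by omega)) h1

end

lemma exists_disc (m : ℚ) : ∃ d : ℕ, ¬ IsSquare m → ∃ (K : Type) (_ : Field K) (_ : NumberField K)
    (θ : K) (σ : K ≃ₐ[ℚ] K), Quad m θ σ ∧ (discr K).natAbs = d := by
  by_cases hm : IsSquare m
  · exact ⟨0, fun h => absurd hm h⟩
  obtain ⟨K, _, _, i, θ, σ, h⟩ := exists_quad hm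
  obtain rfl : i = DivisionRing.toRatAlgebra := Subsingleton.elim _ _
  exact ⟨_, fun _ => ⟨K, inferInstance, inferInstance, θ, σ, h, rfl⟩⟩

end Base

open Base in
theorem base2 (hs : SqStmt) (hu : TsUpStmt) : Base2Stmt := by
  classical
  intro t n
  obtain ⟨F, hF, hc⟩ := Nat.infinite_setOfPred_prime.exists_subset_card_eq (8 ^ t * (2 * n + 2))
  choose d hd using exists_disc
  refine ⟨F.powerset.sup fun P => max (d ((∏ a ∈ P, a : ℕ) : ℚ)) (∏ a ∈ P, a), fun Q hQ => ?_⟩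
  have hF' : ∀ a ∈ F, a.Prime := fun a ha => hF ha
  obtain ⟨P', hP', hk, hsq⟩ := pig hs Q (2 * n + 2) F (fun a ha => (hF' a ha).ne_zero)
    (by rw [hc]; exact Nat.mul_le_mul_right _ (Nat.pow_le_pow_right (by norm_num) hQ))
  obtain ⟨P, hP, hPc⟩ := Finset.exists_subset_card_eq hk
  have hpr : ∀ a ∈ P, a.Prime := fun a ha => hF' a (hP' (hP ha))
  have hns : ¬ IsSquare ((∏ a ∈ P, a : ℕ) : ℚ) := fun h => by
    obtain ⟨l, hl⟩ : P.Nonempty := Finset.card_pos.mp (by omega)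
    have h1 := even_fact (prod_ne hpr) h l
    rw [fact_prod hpr, if_pos hl] at h1
    exact absurd h1 (by decide)
  obtain ⟨K, _, _, θ, σ, h, hdisc⟩ := hd _ hns
  have hC := Finset.le_sup
    (f := fun P : Finset ℕ => max (d ((∏ a ∈ P, a : ℕ) : ℚ)) (∏ a ∈ P, a))
    (Finset.mem_powerset.mpr (hP.trans hP'))
  refine ⟨K, inferInstance, inferInstance, h.finrank, ?_, ?_, fun q _ hq => ?_, selmer hpr hPc h,
    ∏ a ∈ P, a, θ, by rw [h.sq, map_natCast], fun h1 => hns (Rat.isSquare_natCast_iff.mpr h1),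
    (le_max_right _ _).trans hC⟩
  · rw [hdisc]
    exact (le_max_left _ _).trans hC
  · refine hu ℚ K ℝ _ θ σ h (ts_rat ℝ) fun j => ?_
    rw [map_natCast]
    exact ⟨√((∏ a ∈ P, a : ℕ) : ℝ), (Real.mul_self_sqrt (Nat.cast_nonneg _)).symm⟩
  · refine hu ℚ K ℚ_[q] _ θ σ h (ts_rat _) fun j => ?_
    rw [map_natCast]
    exact sq_prod hPc (fun a ha => (hpr a ha).ne_zero) fun a ha b hb => hsq q hq a (hP ha) b (hP hb)

theorem base (hs : SqStmt) (hu : TsUpStmt) : BaseStmt := fun t n => by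
  obtain ⟨C, h⟩ := base2 hs hu t n
  refine ⟨C, fun Q hQ => ?_⟩
  obtain ⟨K, _, _, h1, h2, h3, h4, h5, -⟩ := h Q hQ
  exact ⟨K, inferInstance, inferInstance, h1, h2, h3, h4, h5⟩

end Pool.Agent.Lib.Tower
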