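import Pool.Agent.Lib.Tower.Blue

set_option autoImplicit false

open NumberField IsDedekindDomain WithZero Module Polynomial

namespace Pool.Agent.Lib.Tower

namespace DISC

variable {K L : Type} [Field K] [NumberField K] [Field L] [NumberField L] [Algebra K L]

lemma unram {w : Pr L} (h : URat K w) : Algebra.IsUnramifiedAt (𝓞 K) w.asIdeal := by
  have hlo : w.asIdeal.LiesOver (w.under (𝓞 K)).asIdeal := ⟨rfl⟩
  obtain ⟨π, -, hπ⟩ := exists_ord_eq_one (w.under (𝓞 K))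
  have h1 := HeightOneSpectrum.valuation_liesOver L (w.under (𝓞 K)) w π
  have h2 := h π
  rw [hπ, ord, ← h1, log_pow, nsmul_eq_mul, ← mul_neg, ← ord, hπ, mul_one] at h2
  have h3 : (w.under (𝓞 K)).asIdeal.ramificationIdx' w.asIdeal = 1 := by exact_mod_cast h2
  rw [Ideal.ramificationIdx'_eq_ramificationIdx _ _ (w.under (𝓞 K)).ne_bot] at h3
  exact Ideal.ramificationIdx_eq_one_iff.mp h3

lemma different_eq_top (h : UR K L) : differentIdeal (𝓞 K) (𝓞 L) = ⊤ := by
  let _ : Algebra (FractionRing (𝓞 K)) (FractionRing (𝓞 L)) := FractionRing.liftAlgebra _ _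
  by_contra hne
  obtain ⟨Q, hQ, hle⟩ := Ideal.exists_le_maximal _ hne
  have hb : Q ≠ ⊥ := Ring.ne_bot_of_isMaximal_of_not_isField hQ (RingOfIntegers.not_isField L)
  exact (not_dvd_differentIdeal_iff.mpr (unram (h ⟨Q, hQ.isPrime, hb⟩))) (Ideal.dvd_iff_le.mpr hle)

lemma exists_gen (c : 𝓞 K) (θ : L) (σ : L ≃ₐ[K] L) (h : Quad (c : K) θ σ) :
    ∃ x : 𝓞 L, x ^ 2 = algebraMap (𝓞 K) (𝓞 L) c ∧ 2 * x ∈ differentIdeal (𝓞 K) (𝓞 L) := by
  let f : (𝓞 K)[X] := X ^ 2 - C c
  have hf : f.Monic := monic_X_pow_sub_C c two_ne_zero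
  have hint : IsIntegral (𝓞 K) θ := by
    refine ⟨f, hf, ?_⟩
    simp only [f, eval₂_sub, eval₂_X_pow, eval₂_C]
    rw [h.sq, IsScalarTower.algebraMap_apply (𝓞 K) K L c, sub_self]
  have hintZ : IsIntegral ℤ θ := isIntegral_trans (A := 𝓞 K) θ hint
  let x : 𝓞 L := ⟨θ, hintZ⟩
  have hxy : algebraMap (𝓞 L) L x = θ := rfl
  have hx2 : x ^ 2 = algebraMap (𝓞 K) (𝓞 L) c := by
    apply RingOfIntegers.coe_injective
    rw [map_pow, hxy, ← IsScalarTower.algebraMap_apply, IsScalarTower.algebraMap_apply (𝓞 K) K L]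
    exact h.sq
  refine ⟨x, hx2, ?_⟩
  have hgen : Algebra.adjoin K {algebraMap (𝓞 L) L x} = ⊤ := by
    rw [eq_top_iff]
    intro z _
    obtain ⟨u, v, rfl⟩ := h.span z
    exact add_mem (Subalgebra.algebraMap_mem _ _)
      (mul_mem (Subalgebra.algebraMap_mem _ _) (Algebra.subset_adjoin rfl))
  have hm := aeval_derivative_mem_differentIdeal (𝓞 K) K L x hgen
  have hxint : IsIntegral (𝓞 K) x := Algebra.IsIntegral.isIntegral x
  have hroot : aeval x f = 0 := by
    simp only [f, map_sub, map_pow, aeval_X, aeval_C]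
    rw [hx2, sub_self]
  obtain ⟨q, hq⟩ := minpoly.isIntegrallyClosed_dvd hxint hroot
  have hd : aeval x (derivative f) = 2 * x := by
    simp only [f, derivative_sub, derivative_X_pow, derivative_C]
    simp [map_ofNat]
  rw [← hd, hq, derivative_mul, map_add, map_mul, map_mul, minpoly.aeval, zero_mul, add_zero]
  exact Ideal.mul_mem_right _ _ hm

end DISC

theorem disc : DiscStmt := by
  intro K L _ _ _ _ _ h
  let _ : Algebra (FractionRing (𝓞 K)) (FractionRing (𝓞 L)) := FractionRing.liftAlgebra _ _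
  rw [natAbs_discr_eq_absNorm_differentIdeal_mul_natAbs_discr_pow K (𝓞 K) L (𝓞 L),
    DISC.different_eq_top h, Ideal.absNorm_top, one_mul]

theorem discQ : DiscQStmt := by
  intro K L _ _ _ _ _ c θ σ h
  let _ : Algebra (FractionRing (𝓞 K)) (FractionRing (𝓞 L)) := FractionRing.liftAlgebra _ _
  obtain ⟨x, hx2, hx⟩ := DISC.exists_gen c θ σ h
  rw [natAbs_discr_eq_absNorm_differentIdeal_mul_natAbs_discr_pow K (𝓞 K) L (𝓞 L), h.finrank,
    mul_comm]
  refine Nat.mul_le_mul_left _ ?_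
  have hc : c ≠ 0 := by
    rintro rfl
    exact h.c_ne rfl
  have h1 : Ideal.absNorm (Ideal.span {2 * x}) ^ 2 = Ideal.absNorm (Ideal.span {4 * c}) ^ 2 := by
    rw [← map_pow, Ideal.span_singleton_pow, mul_pow, hx2,
      show (2 : 𝓞 L) ^ 2 * algebraMap (𝓞 K) (𝓞 L) c = algebraMap (𝓞 K) (𝓞 L) (4 * c) by
        rw [map_mul, map_ofNat]; norm_num,
      ← Set.image_singleton, ← Ideal.map_span, Ideal.absNorm_algebraMap,
      ← IsFractionRing.finrank_eq (𝓞 K) K (𝓞 L) L, h.finrank]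
  have h2 : Ideal.absNorm (Ideal.span {2 * x}) = 4 ^ finrank ℚ K * (Algebra.norm ℤ c).natAbs := by
    rw [(Nat.pow_left_injective two_ne_zero) h1, Ideal.absNorm_span_singleton, map_mul,
      Int.natAbs_mul, show (4 : 𝓞 K) = algebraMap ℤ (𝓞 K) 4 from (map_ofNat _ 4).symm,
      Algebra.norm_algebraMap, RingOfIntegers.rank, Int.natAbs_pow]
    rfl
  rw [← h2]
  refine Nat.le_of_dvd (Nat.pos_of_ne_zero ?_)
    (Ideal.absNorm_dvd_absNorm_of_le ((Ideal.span_singleton_le_iff_mem _).mpr hx))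
  rw [h2]
  exact mul_ne_zero (pow_ne_zero _ (by norm_num))
    (Int.natAbs_ne_zero.mpr (Algebra.norm_ne_zero_iff.mpr hc))

end Pool.Agent.Lib.Tower
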