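import Pool.Agent.Lib.Tower.Blue

set_option autoImplicit false

open NumberField IsDedekindDomain WithZero Module Subgroup

namespace Pool.Agent.Lib.Tower

namespace DIV

variable (K : Type) [Field K] [NumberField K]

/-- principal divisors -/
def PD : AddSubgroup (Pr K →₀ ℤ) where
  carrier := {c | ∃ x : Kˣ, ∀ v, ord v (x : K) = c v}
  zero_mem' := ⟨1, fun v => by simp [ord_one]⟩
  add_mem' := fun ⟨x, hx⟩ ⟨y, hy⟩ => ⟨x * y, fun v => by
    rw [Units.val_mul, ord_mul v x.ne_zero y.ne_zero, hx, hy, Finsupp.add_apply]⟩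
  neg_mem' := fun ⟨x, hx⟩ => ⟨x⁻¹, fun v => by
    rw [Units.val_inv_eq_inv_val, ord_inv, hx, Finsupp.neg_apply]⟩

lemma finite_cl : Finite ((Pr K →₀ ℤ) ⧸ PD K) := by
  obtain ⟨cl, hcl⟩ := exists_cl K
  have h : cl.ker ≤ PD K := fun c hc => by
    obtain ⟨x, x0, hx⟩ := hcl c hc
    exact ⟨(Units.mk0 x x0)⁻¹, fun v => by
      rw [Units.val_inv_eq_inv_val, ord_inv, Units.val_mk0, ord, neg_neg, hx]⟩
  have : (PD K).FiniteIndex := AddSubgroup.finiteIndex_of_le h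
  infer_instance

end DIV

open DIV

theorem div : DivStmt := by
  intro K _ _
  have := finite_cl K
  refine ⟨⋃ a : (Pr K →₀ ℤ) ⧸ PD K, (a.out.support : Set (Pr K)),
    Set.finite_iUnion fun a => Finset.finite_toSet _, fun c => ?_⟩
  obtain ⟨x, hx⟩ : -(QuotientAddGroup.mk c : (Pr K →₀ ℤ) ⧸ PD K).out + c ∈ PD K :=
    QuotientAddGroup.eq.1 (QuotientAddGroup.out_eq' _)
  refine ⟨x, fun v hv => ?_⟩
  have h0 : (QuotientAddGroup.mk c : (Pr K →₀ ℤ) ⧸ PD K).out v = 0 := by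
    by_contra h
    exact hv (Set.mem_iUnion.2 ⟨_, Finset.mem_coe.2 (Finsupp.mem_support_iff.2 h)⟩)
  rw [hx, Finsupp.add_apply, Finsupp.neg_apply, h0, neg_zero, zero_add]

theorem cl2 : Cl2Stmt := by
  classical
  intro K _ _ h0
  have := finite_cl K
  let d : ((Pr K →₀ ℤ) ⧸ PD K) →+ ((Pr K →₀ ℤ) ⧸ PD K) := nsmulAddMonoidHom 2
  have := Fintype.ofFinite (((Pr K →₀ ℤ) ⧸ PD K) ⧸ d.range)
  refine ⟨Finset.univ.image fun q : ((Pr K →₀ ℤ) ⧸ PD K) ⧸ d.range => q.out.out, ?_, fun c => ?_⟩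
  · refine Finset.card_image_le.trans ?_
    rw [Finset.card_univ, ← Nat.card_eq_fintype_card, ← AddSubgroup.index_eq_card,
      AddSubgroup.index_range]
    have hx : ∀ a : d.ker, ∃ x : Ev K, ∀ v, ord v ((x : Kˣ) : K) = 2 * a.1.out v := fun a => by
      have h1 : ((2 • a.1.out : Pr K →₀ ℤ) : (Pr K →₀ ℤ) ⧸ PD K) = 0 := by
        rw [QuotientAddGroup.mk_nsmul, QuotientAddGroup.out_eq']
        exact a.2
      obtain ⟨x, hx⟩ := (QuotientAddGroup.eq_zero_iff _).1 h1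
      have hx' : ∀ v, ord v (x : K) = 2 * a.1.out v := fun v => by rw [hx]; simp
      exact ⟨⟨x, fun v => by rw [hx']; exact even_two_mul _⟩, hx'⟩
    choose f hf using hx
    have : Finite (Ev K ⧸ (square Kˣ).subgroupOf (Ev K)) := Nat.finite_of_card_ne_zero h0
    refine Nat.card_le_card_of_injective
      (fun a => (QuotientGroup.mk (f a) : Ev K ⧸ (square Kˣ).subgroupOf (Ev K))) fun a b hab => ?_
    obtain ⟨y, hy⟩ : IsSquare (((f a)⁻¹ * f b : Ev K) : Kˣ) := QuotientGroup.eq.1 hab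
    refine Subtype.ext ?_
    rw [← QuotientAddGroup.out_eq' a.1, ← QuotientAddGroup.out_eq' b.1, QuotientAddGroup.eq]
    refine ⟨y, fun v => ?_⟩
    have h1 := congrArg (fun u : Kˣ => ord v (u : K)) hy
    simp only [Subgroup.coe_mul, Subgroup.coe_inv, Units.val_mul] at h1
    rw [ord_mul v (Units.ne_zero _) (Units.ne_zero _), ord_mul v y.ne_zero y.ne_zero,
      Units.val_inv_eq_inv_val, ord_inv, hf, hf] at h1
    rw [Finsupp.add_apply, Finsupp.neg_apply]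
    omega
  · set q : ((Pr K →₀ ℤ) ⧸ PD K) ⧸ d.range :=
      QuotientAddGroup.mk (QuotientAddGroup.mk c : (Pr K →₀ ℤ) ⧸ PD K)
    obtain ⟨e, he⟩ : -q.out + (QuotientAddGroup.mk c : (Pr K →₀ ℤ) ⧸ PD K) ∈ d.range :=
      QuotientAddGroup.eq.1 (QuotientAddGroup.out_eq' _)
    have h1 : ((c - q.out.out - 2 • e.out : Pr K →₀ ℤ) : (Pr K →₀ ℤ) ⧸ PD K) = 0 := by
      rw [QuotientAddGroup.mk_sub, QuotientAddGroup.mk_sub, QuotientAddGroup.mk_nsmul,
        QuotientAddGroup.out_eq', QuotientAddGroup.out_eq', sub_eq_zero, sub_eq_neg_add, ← he]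
      rfl
    obtain ⟨x, hx⟩ := (QuotientAddGroup.eq_zero_iff _).1 h1
    refine ⟨q.out.out, Finset.mem_image_of_mem _ (Finset.mem_univ q), x, fun v => ?_⟩
    rw [hx]
    exact ⟨e.out v, by simp [two_mul]⟩

end Pool.Agent.Lib.Tower
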