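import Pool.Agent.Lib.Tower.Blue

set_option autoImplicit false

open NumberField IsDedekindDomain Module Polynomial

namespace Pool.Agent.Lib.Tower

theorem galx : GalxStmt := by
  classical
  intro K L N _ _ _ _ _ _ _ _ _ _ x θ σ hg hq hx
  have : FiniteDimensional K N := Module.Finite.of_restrictScalars_finite ℚ K N
  have key : ∀ (f : N →ₐ[K] AlgebraicClosure N) (z : N),
      f z ∈ (algebraMap N (AlgebraicClosure N)).range := by
    intro f z
    have h1 : ∀ a : L, f (algebraMap L N a) =
        algebraMap N (AlgebraicClosure N) (algebraMap L N (f.restrictNormal' L a)) := fun a => by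
      rw [← IsScalarTower.algebraMap_apply]
      exact (f.restrictNormal_commutes L a).symm
    obtain ⟨y, hy⟩ := hx (f.restrictNormal' L)
    rw [div_eq_iff x.ne_zero] at hy
    have h2 : f θ ^ 2 = (algebraMap N (AlgebraicClosure N) (algebraMap L N y * θ)) ^ 2 := by
      rw [← map_pow, hq.sq, h1, hy, ← map_pow, mul_pow, hq.sq, map_mul (algebraMap L N),
        map_mul (algebraMap L N), sq]
    have h3 : f θ ∈ (algebraMap N (AlgebraicClosure N)).range := by
      rcases sq_eq_sq_iff_eq_or_eq_neg.mp h2 with h | h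
      · exact ⟨_, h.symm⟩
      · exact ⟨-_, (map_neg _ _).trans h.symm⟩
    obtain ⟨α, β, rfl⟩ := hq.span z
    rw [map_add, map_mul, h1, h1]
    exact add_mem ⟨_, rfl⟩ (mul_mem ⟨_, rfl⟩ h3)
  have : Normal K N := by
    refine normal_iff.mpr fun z => ⟨Algebra.IsIntegral.isIntegral z, ?_⟩
    refine Splits.of_splits_map (algebraMap N (AlgebraicClosure N)) (IsAlgClosed.splits _)
      fun a ha => ?_
    rw [Polynomial.map_map, ← IsScalarTower.algebraMap_eq] at ha
    have h4 : a ∈ (minpoly K z).rootSet (AlgebraicClosure N) := by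
      rw [rootSet_def, Finset.mem_coe, Multiset.mem_toFinset]
      exact ha
    rw [← Algebra.IsAlgebraic.range_eval_eq_rootSet_minpoly] at h4
    obtain ⟨f, rfl⟩ := h4
    exact key f z
  exact {}

theorem ext (hup : TsUpStmt) (hsp : SplitStmt) (hun : UnrStmt) (hloc : LocStmt)
    (hgal : GalxStmt) : ExtStmt := by
  intro K L _ _ _ _ _ Q h2 hG x hx hxl hxe hns
  obtain ⟨N, _, _, _, θ, σ, hq⟩ := exists_quad hns
  let : Algebra K N := ((algebraMap L N).comp (algebraMap K L)).toAlgebra
  have : IsScalarTower K L N := IsScalarTower.of_algebraMap_eq fun _ => rfl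
  have : FiniteDimensional K N := Module.Finite.of_restrictScalars_finite ℚ K N
  have : FiniteDimensional K L := Module.Finite.of_restrictScalars_finite ℚ K L
  have hL := hG.gal
  have hN : IsGalois K N := hgal K L N x θ σ hL hq hx
  have hr : finrank K N = 2 * finrank K L := by
    rw [← Module.finrank_mul_finrank K L N, hq.finrank, mul_comm]
  have hur : UR L N := fun w => by
    by_cases hw : Over 2 w
    · obtain ⟨-, -, j, -, hj⟩ :=
        (hloc L 2 (hG.padic 2 h2)).2 (w.under (𝓞 L)) ((over_under 2 w).mpr hw)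
      exact (hun L N x θ σ hq w).1 (hsp L N x θ σ hq w (hj _ x.ne_zero (hxl.2 2 h2 j)))
    · exact (hun L N x θ σ hq w).2 hw (hxe _)
  refine ⟨N, inferInstance, inferInstance, inferInstance, ⟨hN, ?_, hG.ur.trans hur,
    hup L N ℝ x θ σ hq hG.real hxl.1,
    fun q _ hQ => hup L N ℚ_[q] x θ σ hq (hG.padic q hQ) (hxl.2 q hQ)⟩, hr⟩
  obtain ⟨n, hn⟩ := IsPGroup.iff_card.mp hG.two
  refine IsPGroup.iff_card.mpr ⟨n + 1, ?_⟩
  rw [IsGalois.card_aut_eq_finrank] at hn ⊢
  rw [hr, hn, pow_succ']

end Pool.Agent.Lib.Tower
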