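import Pool.Agent.Lib.Tower.Blue
import Pool.Agent.Lib.Tower92.GS2

set_option autoImplicit false

namespace Pool.Agent.Lib.Tower

theorem gs : GsStmt := by
  intro G _ _ hG
  obtain ⟨d, hd, h⟩ := Tower92.gs_relIndex hG
  exact ⟨d, hd, h (Z2 G) (B2 G) (fun _ hc => hc) fun _ hc => hc⟩

end Pool.Agent.Lib.Tower
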