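import Pool.Agent.Lib.Tower.Blue
import Pool.Agent.Lib.Tower13.Kummer
import Pool.Agent.Lib.Tower15.Hasse

set_option autoImplicit false

open NumberField IsDedekindDomain WithZero Module Subgroup
open scoped Pointwise

namespace Pool.Agent.Lib.Tower

namespace HNT

section
variable {K L : Type} [Field K] [NumberField K] [Field L] [NumberField L] [Algebra K L]

theorem ram_of_ur (h : UR K L) (P : Ideal (𝓞 L)) (hP : P.IsPrime) (hP0 : P ≠ ⊥) :
    P.ramificationIdx (𝓞 K) = 1 := by
  let w : Pr L := ⟨P, hP, hP0⟩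
  let v : Pr K := w.under (𝓞 K)
  have : w.asIdeal.LiesOver v.asIdeal := ⟨rfl⟩
  obtain ⟨π, hπ⟩ := v.valuation_exists_uniformizer K
  have h1 := HeightOneSpectrum.valuation_liesOver L v w π
  rw [(h w).val π, Ideal.ramificationIdx'_eq_ramificationIdx v.asIdeal w.asIdeal v.ne_bot] at h1
  change v.valuation K π ^ _ = v.valuation K π at h1
  rw [hπ, ← exp_nsmul, exp_inj, nsmul_eq_mul] at h1
  have h2 : ((w.asIdeal.ramificationIdx (𝓞 K) : ℕ) : ℤ) = 1 := by linarith
  exact_mod_cast h2

theorem unr_of_ur (h : UR K L) : Algebra.FormallyUnramified (𝓞 K) (𝓞 L) := by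
  rw [Algebra.formallyUnramified_iff_forall]
  intro q
  have hq := q.isPrime
  rcases eq_or_ne q.asIdeal ⊥ with h0 | h0
  · have : Algebra.IsUnramifiedAt (𝓞 K) (⊥ : Ideal (𝓞 L)) := Algebra.isUnramifiedAt_bot
    simpa only [h0] using this
  · exact Ideal.ramificationIdx_eq_one_iff.mp (ram_of_ur h _ hq h0)

end

theorem hasseStmt : Tower13.HasseStmt := by
  intro K F _ _ _ _ _ _ s hd hs hr hur x hx h
  refine Tower15.hasse_real hd hs (fun P hP _ => ?_) hx (fun w hw => ?_)
  · have : Algebra.IsUnramifiedAt (𝓞 K) P :=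
      Algebra.formallyUnramified_iff_forall.mp hur ⟨P, hP⟩
    exact Ideal.ramificationIdx_eq_one P (𝓞 K)
  · refine (h w (fun z hz => ?_)).two_dvd
    rw [← hw]
    exact Ideal.smul_mem_pointwise_smul _ _ _ hz

end HNT

theorem hnt (tsReal : TsRealStmt) : HntStmt := by
  intro K M _ _ _ _ _ a θ σ hq hr _ hur b hb h
  have := tsReal M hr
  have := hq.isGalois
  refine Tower15.hasse_real hq.finrank hq.ne_one (HNT.ram_of_ur hur) hb (fun w hw => ?_)
  have h1 := h w (HeightOneSpectrum.ext hw)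
  rw [ord, even_neg] at h1
  exact h1.two_dvd

/-- replaces the blocks GAL and EMB -/
theorem splits2 (tsReal : TsRealStmt) (K L : Type) [Field K] [NumberField K] [Field L]
    [NumberField L] [Algebra K L] (hg : IsGalois K L) (h2 : IsPGroup 2 (L ≃ₐ[K] L)) (hur : UR K L)
    (hr : TS L ℝ) : Splits2 K L := by
  have := tsReal L hr
  intro c hc
  obtain ⟨B, hB⟩ := Tower13.split HNT.hasseStmt K L (L ≃ₐ[K] L) h2 (HNT.unr_of_ur hur) c hc
  refine ⟨fun g => Additive.toMul (B g), fun g h => ?_⟩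
  have e1 : B g + Tower13.act _ L g (B h) = Tower13.sg L (c g h) + B (g * h) := by
    rw [hB, Tower13.cob]; abel
  have e2 := congrArg (fun z => ((Additive.toMul z : Lˣ) : L)) e1
  simp only [toMul_add, Units.val_mul, Tower13.act_val] at e2
  have e3 : ∀ e : ZMod 2, ((Additive.toMul (Tower13.sg L e) : Lˣ) : L) = (-1) ^ e.val := by
    intro e
    have h : ∀ e : ZMod 2, e = 0 ∨ e = 1 := by decide
    rcases h e with rfl | rfl
    · simp
    · rw [Tower13.sg_one, show (1 : ZMod 2).val = 1 from rfl]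
      simp
  rw [← e3]
  exact e2

end Pool.Agent.Lib.Tower
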