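import Pool.Agent.Lib.Tower.Blue

set_option autoImplicit false

open NumberField IsDedekindDomain WithZero Module Subgroup

namespace Pool.Agent.Lib.Tower

namespace KUM

lemma index_le_of_map {A B : Type} [Group A] [Finite B] (H : Subgroup A) (f : A → B)
    (hf : ∀ x y, f x = f y → x⁻¹ * y ∈ H) : H.index ≠ 0 ∧ H.index ≤ Nat.card B := by
  have hinj : Function.Injective fun q : A ⧸ H => f q.out := fun q q' h => by
    rw [← q.out_eq, ← q'.out_eq]
    exact QuotientGroup.eq.mpr (hf _ _ h)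
  have : Finite (A ⧸ H) := Finite.of_injective _ hinj
  exact ⟨index_ne_zero_of_finite, Nat.card_le_card_of_injective _ hinj⟩

lemma addIndex_le_of_map {A B : Type} [AddGroup A] [Finite B] (H : AddSubgroup A) (f : A → B)
    (hf : ∀ x y, f x = f y → -x + y ∈ H) : H.index ≠ 0 ∧ H.index ≤ Nat.card B := by
  have hinj : Function.Injective fun q : A ⧸ H => f q.out := fun q q' h => by
    rw [← q.out_eq, ← q'.out_eq]
    exact QuotientAddGroup.eq.mpr (hf _ _ h)
  have : Finite (A ⧸ H) := Finite.of_injective _ hinj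
  exact ⟨AddSubgroup.index_ne_zero_of_finite, Nat.card_le_card_of_injective _ hinj⟩

section Sign
variable {L : Type} [Field L]

/-- the sign attached to an element of `ZMod 2` -/
def sg (L : Type) [Field L] (a : ZMod 2) : L := (-1) ^ a.val

lemma zmod2 (a : ZMod 2) : a = 0 ∨ a = 1 := by revert a; decide

lemma sg_zero : sg L 0 = 1 := by simp [sg]

lemma sg_one : sg L 1 = -1 := by
  rw [sg, show (1 : ZMod 2).val = 1 from rfl, pow_one]

lemma sg_add (a b : ZMod 2) : sg L (a + b) = sg L a * sg L b := by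
  rcases zmod2 a with rfl | rfl <;> rcases zmod2 b with rfl | rfl
  · simp [sg_zero]
  · simp [sg_zero]
  · simp [sg_zero]
  · rw [show (1 + 1 : ZMod 2) = 0 from rfl, sg_zero, sg_one]; ring

lemma sg_ne (a : ZMod 2) : sg L a ≠ 0 := pow_ne_zero _ (by norm_num)

lemma sg_sq (a : ZMod 2) : sg L a ^ 2 = 1 := by
  rcases zmod2 a with rfl | rfl
  · simp [sg_zero]
  · simp [sg_one]

lemma sg_inj [CharZero L] {a b : ZMod 2} (h : sg L a = sg L b) : a = b := by
  rcases zmod2 a with rfl | rfl <;> rcases zmod2 b with rfl | rfl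
  · rfl
  · rw [sg_zero, sg_one] at h; norm_num at h
  · rw [sg_zero, sg_one] at h; norm_num at h
  · rfl

lemma exists_sg {u v : L} (h : u ^ 2 = v ^ 2) : ∃ a : ZMod 2, u = sg L a * v := by
  rcases sq_eq_sq_iff_eq_or_eq_neg.mp h with h | h
  · exact ⟨0, by rw [sg_zero, one_mul, h]⟩
  · exact ⟨1, by rw [sg_one, h]; ring⟩

lemma map_sg {K : Type} [Field K] [Algebra K L] (g : L ≃ₐ[K] L) (a : ZMod 2) :
    g (sg L a) = sg L a := by simp [sg]

end Sign

variable {K L : Type} [Field K] [NumberField K] [Field L] [NumberField L] [Algebra K L]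

omit [NumberField K] in
/-- the Kummer character of a square root -/
lemma exists_chi {y : L} (hy : y ≠ 0) (h : ∀ g : L ≃ₐ[K] L, g y ^ 2 = y ^ 2) :
    ∃ χ : (L ≃ₐ[K] L) →* Multiplicative (ZMod 2), ∀ g, g y = sg L (χ g).toAdd * y := by
  choose φ hφ using fun g => exists_sg (h g)
  refine ⟨MonoidHom.mk' (fun g => Multiplicative.ofAdd (φ g)) fun g g' => ?_, fun g => hφ g⟩
  rw [← ofAdd_add]
  congr 1
  refine sg_inj (L := L) (mul_right_cancel₀ hy ?_)
  rw [← hφ, AlgEquiv.mul_apply, hφ g', map_mul, map_sg, hφ g, sg_add]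
  ring

end KUM

open KUM in
theorem kum : KumStmt := by
  intro K L _ _ _ _ _ hG
  have : FiniteDimensional K L := Module.Finite.right ℚ K L
  have hy : ∀ x : (square Lˣ).comap (inc K L), ∃ y : L, y ≠ 0 ∧ algebraMap K L (x : Kˣ) = y ^ 2 := by
    rintro ⟨x, y, hy⟩
    exact ⟨y, y.ne_zero, by rw [← coe_inc, hy, Units.val_mul, sq]⟩
  choose y hy0 hy using hy
  have hc : ∀ x, ∃ χ : (L ≃ₐ[K] L) →* Multiplicative (ZMod 2),
      ∀ g, g (y x) = sg L (χ g).toAdd * y x := fun x =>
    exists_chi (hy0 x) fun g => by rw [← map_pow, ← hy, AlgEquiv.commutes]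
  choose χ hχ using hc
  have : Finite ((L ≃ₐ[K] L) →* Multiplicative (ZMod 2)) :=
    Finite.of_injective _ DFunLike.coe_injective
  refine index_le_of_map _ χ fun x x' h => ?_
  obtain ⟨a, ha⟩ := (IsGalois.mem_range_algebraMap_iff_fixed (F := K) (y x' / y x)).mpr fun g => by
    rw [map_div₀, hχ, hχ, h, mul_div_mul_left _ _ (sg_ne _)]
  rw [mem_subgroupOf, mem_square, isSquare_units_iff]
  refine ⟨a, (algebraMap K L).injective ?_⟩
  rw [Subgroup.coe_mul, Subgroup.coe_inv, Units.val_mul, Units.val_inv_eq_inv_val, map_mul, map_inv₀,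
    hy, hy, map_mul, ha]
  have := hy0 x
  field_simp

open KUM in
theorem h2x : H2xStmt := by
  intro K L _ _ _ _ _ hG hS hne
  have : FiniteDimensional K L := Module.Finite.right ℚ K L
  have : Finite (XG K L ⧸ ((inc K L).range ⊔ square Lˣ).subgroupOf (XG K L)) :=
    Nat.finite_of_card_ne_zero hne
  have hx : ∀ c : Z2 (L ≃ₐ[K] L), ∃ (f : (L ≃ₐ[K] L) → L) (x : XG K L), (∀ g, f g ≠ 0) ∧
      (∀ g h, f g * g (f h) = sg L (c.1 g h) * f (g * h)) ∧
      ∀ g : L ≃ₐ[K] L, g ((x : Lˣ) : L) / (x : Lˣ) = f g ^ 2 := by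
    intro c
    obtain ⟨f, hf⟩ := hS c.1 c.2
    obtain ⟨x, hx⟩ := groupCohomology.isMulCoboundary₁_of_isMulCocycle₁_of_aut_to_units
      (fun g => f g ^ 2) fun g h => by
        have h1 := congrArg (· ^ 2) (hf g h)
        have h2 : ((-1 : L) ^ (c.1 g h).val) ^ 2 = 1 := sg_sq _
        simp only [mul_pow, h2, one_mul] at h1
        ext
        simp only [AlgEquiv.smul_units_def, Units.val_mul, Units.coe_map, MonoidHom.coe_coe,
          Units.val_pow_eq_pow_val, map_pow]
        rw [← h1]; ring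
    have hx' : ∀ g : L ≃ₐ[K] L, g (x : L) / x = (f g : L) ^ 2 := fun g => by
      have := congrArg (fun u : Lˣ => (u : L)) (hx g)
      simpa [AlgEquiv.smul_units_def] using this
    exact ⟨fun g => f g, ⟨x, fun g => ⟨f g, by rw [hx', sq]⟩⟩, fun g => (f g).ne_zero, hf, hx'⟩
  choose f x hf0 hf hx using hx
  refine (addIndex_le_of_map ((B2 _).addSubgroupOf (Z2 (L ≃ₐ[K] L)))
    (fun c => (QuotientGroup.mk (x c) :
      XG K L ⧸ ((inc K L).range ⊔ square Lˣ).subgroupOf (XG K L))) fun c c' h => ?_).2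
  have h1 := QuotientGroup.eq.mp h
  rw [mem_subgroupOf, Subgroup.mem_sup] at h1
  obtain ⟨_, ⟨a, rfl⟩, _, ⟨y, rfl⟩, h1⟩ := h1
  have h2 : ((x c' : Lˣ) : L) = (x c : Lˣ) * (algebraMap K L a * (y : L) ^ 2) := by
    have := congrArg (fun u : Lˣ => (u : L)) h1
    simp only [Units.val_mul, coe_inc, Subgroup.coe_mul, Subgroup.coe_inv,
      Units.val_inv_eq_inv_val] at this
    rw [sq, this, mul_inv_cancel_left₀ (Units.ne_zero _)]
  have ha : algebraMap K L a ≠ 0 := (_root_.map_ne_zero _).mpr a.ne_zero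
  have hy : (y : L) ≠ 0 := y.ne_zero
  have hgy : ∀ g : L ≃ₐ[K] L, g (y : L) ≠ 0 := fun g => (_root_.map_ne_zero _).mpr hy
  have h3 : ∀ g : L ≃ₐ[K] L, f c' g ^ 2 = (f c g * (g (y : L) / y)) ^ 2 := fun g => by
    rw [mul_pow, ← hx, ← hx, h2, map_mul, map_mul, map_pow, AlgEquiv.commutes]
    have := Units.ne_zero (x c : Lˣ)
    field_simp
  choose φ hφ using fun g => exists_sg (h3 g)
  rw [AddSubgroup.mem_addSubgroupOf]
  refine ⟨φ, fun g g' => ?_⟩
  have h4 := hf c' g g'
  rw [hφ g, hφ g', hφ (g * g'), map_mul, map_mul, map_sg, map_div₀, AlgEquiv.mul_apply] at h4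
  have h5 := hf c g g'
  have h6 : sg L (φ g + φ g' + c.1 g g') = sg L (c'.1 g g' + φ (g * g')) := by
    rw [sg_add, sg_add, sg_add]
    refine mul_right_cancel₀ (mul_ne_zero (hf0 c (g * g')) (div_ne_zero
      ((_root_.map_ne_zero g).mpr (hgy g')) hy)) ?_
    have := hgy g
    rw [mul_assoc (sg L (c'.1 g g')), ← h4, mul_assoc _ (sg L (c.1 g g')), ← mul_assoc (sg L _) (f c _),
      ← h5]
    field_simp
  have h7 := sg_inj h6
  change -c.1 g g' + c'.1 g g' = _
  linear_combination -h7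

end Pool.Agent.Lib.Tower
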