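import Pool.Agent.Lib.Tower.Blue

set_option autoImplicit false

open NumberField IsDedekindDomain WithZero Module

namespace Pool.Agent.Lib.Tower
open Pool.Agent.Lib.helper22.Val

namespace LocA

variable {K : Type} [Field K] [NumberField K] {q : ℕ} [Fact q.Prime]

lemma norm_int_le (j : K →+* ℚ_[q]) (a : 𝓞 K) : ‖j (a : K)‖ ≤ 1 := by
  have h1 : IsIntegral ℤ (j (a : K)) := (RingOfIntegers.isIntegral_coe a).map_of_comp_eq
    (RingHom.id ℤ) j (RingHom.ext_int _ _)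
  have h2 : IsIntegral ℤ_[q] (j (a : K)) := h1.tower_top
  obtain ⟨y, hy⟩ := IsIntegrallyClosed.isIntegral_iff.mp h2
  rw [← hy]
  exact y.2

/-- the prime ideal cut out by an embedding -/
def idl (j : K →+* ℚ_[q]) : Ideal (𝓞 K) where
  carrier := {a | ‖j (a : K)‖ < 1}
  zero_mem' := by simp
  add_mem' := fun {a b} ha hb => by
    have : ((a + b : 𝓞 K) : K) = a + b := rfl
    simp only [Set.mem_ofPred_eq] at ha hb ⊢
    rw [this, map_add]
    exact (Padic.nonarchimedean _ _).trans_lt (max_lt ha hb)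
  smul_mem' := fun c a ha => by
    have : ((c • a : 𝓞 K) : K) = c * a := rfl
    simp only [Set.mem_ofPred_eq] at ha ⊢
    rw [this, map_mul, norm_mul]
    exact mul_lt_one_of_nonneg_of_lt_one_right (norm_int_le j c) (norm_nonneg _) ha

lemma mem_idl (j : K →+* ℚ_[q]) (a : 𝓞 K) : a ∈ idl j ↔ ‖j (a : K)‖ < 1 := Iff.rfl

lemma idl_prime (j : K →+* ℚ_[q]) : (idl j).IsPrime where
  ne_top' := by
    rw [Ideal.ne_top_iff_one, mem_idl]
    simp
  mem_or_mem' := fun {a b} h => by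
    have : ((a * b : 𝓞 K) : K) = a * b := rfl
    rw [mem_idl, this, map_mul, norm_mul] at h
    by_contra h'
    rw [not_or, mem_idl, mem_idl, not_lt, not_lt] at h'
    exact absurd (one_le_mul_of_one_le_of_one_le h'.1 h'.2) (not_le.mpr h)

lemma q_mem (j : K →+* ℚ_[q]) : (q : 𝓞 K) ∈ idl j := by
  rw [mem_idl]
  have : ((q : 𝓞 K) : K) = q := rfl
  rw [this, map_natCast]
  exact Padic.norm_p_lt_one

/-- the prime of an embedding -/
def pr (j : K →+* ℚ_[q]) : Pr K :=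
  ⟨idl j, idl_prime j, fun h => by
    have := q_mem j
    rw [h, Ideal.mem_bot, Nat.cast_eq_zero] at this
    exact (Fact.out : q.Prime).ne_zero this⟩

lemma lt_of_le (j : K →+* ℚ_[q]) {x : K} (hx : (pr j).valuation K x ≤ 1) :
    (pr j).valuation K x < 1 ↔ ‖j x‖ < 1 := by
  obtain ⟨n, d, h⟩ := (pr j).exists_primeCompl_mul_eq_of_integer x hx
  have hd : (d : 𝓞 K) ∉ idl j := d.2
  have h1 : ‖j (algebraMap (𝓞 K) K d)‖ = 1 :=
    le_antisymm (norm_int_le j d) (not_lt.mp hd)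
  have h2 : (pr j).valuation K (algebraMap (𝓞 K) K d) = 1 := by
    rw [HeightOneSpectrum.valuation_of_algebraMap, HeightOneSpectrum.intValuation_eq_one_iff]
    exact hd
  have h3 := congrArg ((pr j).valuation K) h
  have h4 := congrArg (fun y => ‖j y‖) h
  simp only [map_mul, norm_mul, h1, h2, mul_one] at h3 h4
  rw [h3, h4, HeightOneSpectrum.valuation_lt_one_iff_mem]
  exact Iff.rfl

lemma lt_iff (j : K →+* ℚ_[q]) (x : K) : (pr j).valuation K x < 1 ↔ ‖j x‖ < 1 := by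
  rcases le_or_gt ((pr j).valuation K x) 1 with h | h
  · exact lt_of_le j h
  have hx : x ≠ 0 := by rintro rfl; simp at h
  have h1 : (pr j).valuation K x⁻¹ < 1 := by
    rw [map_inv₀]; exact inv_lt_one_of_one_lt₀ h
  have h2 := (lt_of_le j h1.le).mp h1
  rw [map_inv₀, norm_inv] at h2
  have h3 : 0 < ‖j x‖ := norm_pos_iff.mpr ((map_ne_zero j).mpr hx)
  refine iff_of_false (not_lt.mpr h.le) (not_lt.mpr ?_)
  exact ((inv_lt_one₀ h3).mp h2).le

lemma eq_of_iff {j₁ j₂ : K →+* ℚ_[q]} (h : ∀ x, ‖j₁ x‖ < 1 → ‖j₂ x‖ < 1) :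
    j₁ = j₂ := by
  ext x
  by_contra hne
  have h0 : 0 < ‖j₁ x - j₂ x‖ := norm_pos_iff.mpr (sub_ne_zero.mpr hne)
  obtain ⟨z, hz⟩ := Padic.rat_dense q (j₁ x - j₂ x) h0
  have hz1 : ‖(z : ℚ_[q])‖ = ‖j₁ x - j₂ x‖ := by
    have := Padic.add_eq_max_of_ne (q := j₁ x - j₂ x) (r := -(j₁ x - j₂ x - z))
      (by rw [norm_neg]; exact hz.ne')
    rw [norm_neg, max_eq_left hz.le] at this
    rw [← this]; congr 1; ring
  have hz0 : 0 < ‖(z : ℚ_[q])‖ := hz1 ▸ h0
  obtain ⟨y, hy⟩ := Padic.rat_dense q (j₁ x) hz0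
  have key : ∀ j : K →+* ℚ_[q], ‖j ((x - y) / z)‖ < 1 ↔ ‖j x - y‖ < ‖(z : ℚ_[q])‖ := fun j => by
    rw [map_div₀, map_sub, map_ratCast, map_ratCast, norm_div, div_lt_one hz0]
  have h2 := (key j₂).mp (h _ ((key j₁).mpr hy))
  have h3 := Padic.nonarchimedean (j₁ x - (y : ℚ_[q])) (-(j₂ x - (y : ℚ_[q])))
  rw [norm_neg, show j₁ x - (y : ℚ_[q]) + -(j₂ x - (y : ℚ_[q])) = j₁ x - j₂ x by ring, ← hz1] at h3
  exact absurd (max_lt hy h2) (not_lt.mpr h3)

lemma pr_injective : Function.Injective (pr : (K →+* ℚ_[q]) → Pr K) := fun j₁ j₂ h =>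
  eq_of_iff fun x hx => (lt_iff j₂ x).mp (h ▸ (lt_iff j₁ x).mpr hx)

lemma ord_q (j : K →+* ℚ_[q]) : ord (pr j) (q : K) = 1 := by
  have hq : (q : K) ≠ 0 := Nat.cast_ne_zero.mpr (Fact.out : q.Prime).ne_zero
  have h1 : 0 < ord (pr j) (q : K) := (ord_pos_iff _ hq).mpr ((over_iff q _).mp (q_mem j))
  obtain ⟨π, hπ, h2⟩ := exists_ord_eq_one (pr j)
  by_contra hne
  have h3 : 0 < ord (pr j) ((q : K) / π) := by rw [ord_div _ hq hπ]; omega
  have h4 := (lt_iff j _).mp ((ord_pos_iff _ (div_ne_zero hq hπ)).mp h3)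
  have h5 := (lt_iff j _).mp ((ord_pos_iff _ hπ).mp (by omega : 0 < ord (pr j) π))
  have h6 : 0 < ‖j π‖ := norm_pos_iff.mpr ((map_ne_zero j).mpr hπ)
  rw [map_div₀, map_natCast, norm_div, div_lt_one h6, Padic.norm_p] at h4
  have h7 := (Padic.norm_le_pow_iff_norm_lt_pow_add_one (j π) (-1)).mpr (by simpa using h5)
  rw [zpow_neg_one] at h7
  exact absurd h7 (not_le.mpr h4)

lemma ls (j : K →+* ℚ_[q]) {c : K} (hc : c ≠ 0) (h : IsSquare (j c)) : LS (pr j) c := by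
  obtain ⟨t, ht⟩ := h
  have ht0 : t ≠ 0 := by
    rintro rfl
    rw [mul_zero, map_eq_zero] at ht
    exact hc ht
  have h4 : (0 : ℝ) < ‖(4 : ℚ_[q])‖ := norm_pos_iff.mpr (by norm_num)
  have hcont : ContinuousAt (fun y : ℚ_[q] => ‖(t * t / y ^ 2 - 1) / 4‖) t := by
    have : t ^ 2 ≠ 0 := pow_ne_zero _ ht0
    fun_prop (disch := assumption)
  have hev : ∀ᶠ y in nhds t, ‖(t * t / y ^ 2 - 1) / 4‖ < 1 := by
    apply hcont.eventually_lt continuousAt_const
    rw [← sq, div_self (pow_ne_zero _ ht0)]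
    simp
  obtain ⟨y, hy⟩ := (Padic.denseRange_ratCast q).mem_nhds hev
  refine ⟨(y : K), ?_⟩
  have h5 : ‖j ((c / (y : K) ^ 2 - 1) / 4)‖ < 1 := by
    rw [map_div₀, map_sub, map_div₀, map_pow, map_ratCast, map_one, map_ofNat, ht]
    exact hy
  have h6 := (lt_iff j _).mpr h5
  rwa [map_div₀, div_lt_one₀ (zero_lt_iff.mpr (val_ne_zero (by norm_num)))] at h6

end LocA

open LocA in
theorem loc (hd : TsDownStmt) : LocStmt := by
  intro K _ _ q _ hts
  have hq : q.Prime := Fact.out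
  have hq' : Prime (q : ℤ) := Nat.prime_iff_prime_int.mp hq
  set p : Ideal ℤ := Ideal.span {(q : ℤ)} with hp
  have hp0 : p ≠ ⊥ := by simpa [hp] using hq.ne_zero
  have : p.IsMaximal := ((Ideal.span_singleton_prime hq'.ne_zero).mpr hq').isMaximal hp0
  have hlo : ∀ v : Pr K, Over q v → v.asIdeal.LiesOver p := fun v hv => by
    refine ⟨this.eq_of_le (Ideal.IsPrime.under ℤ v.asIdeal (hP := v.isPrime)).ne_top ?_⟩
    rw [hp, Ideal.span_singleton_le_iff_mem, Ideal.under_def, Ideal.mem_comap, map_natCast]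
    exact hv
  set F := IsDedekindDomain.primesOverFinset p (𝓞 K) with hF
  have hmem : ∀ v : Pr K, Over q v → v.asIdeal ∈ F := fun v hv =>
    (IsDedekindDomain.mem_primesOverFinset_iff hp0 _).mpr ⟨v.isPrime, hlo v hv⟩
  have hsum : ∑ P ∈ F, p.ramificationIdx' P * p.inertiaDeg' P = finrank ℚ K :=
    Ideal.sum_ramification_inertia (𝓞 K) ℚ K hp0
  have hle : F.card ≤ finrank ℚ K := Ideal.card_primesOverFinset_le_finrank (𝓞 K) ℚ K hp0
  have hfin := finite_over (K := K) hq.ne_zero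
  have h1 : {v : Pr K | Over q v}.ncard ≤ F.card := by
    rw [← Set.ncard_coe_finset]
    exact Set.ncard_le_ncard_of_injOn (fun v => v.asIdeal) (fun v hv => hmem v hv)
      (fun a _ b _ h => HeightOneSpectrum.ext h) F.finite_toSet
  have hsub : Set.range (pr : (K →+* ℚ_[q]) → Pr K) ⊆ {v : Pr K | Over q v} := by
    rintro _ ⟨j, rfl⟩
    exact q_mem j
  have h2 : finrank ℚ K ≤ (Set.range (pr : (K →+* ℚ_[q]) → Pr K)).ncard := by
    rw [Set.ncard_range_of_injective pr_injective]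
    exact hts
  have h3 := Set.ncard_le_ncard hsub hfin
  have heq := Set.eq_of_subset_of_ncard_le hsub (by omega) hfin
  refine ⟨by omega, fun v hv => ?_⟩
  obtain ⟨j, rfl⟩ : v ∈ Set.range (pr : (K →+* ℚ_[q]) → Pr K) := heq ▸ hv
  refine ⟨?_, ord_q j, j, lt_iff j, fun c hc h => ls j hc h⟩
  have := hlo _ hv
  have hone : ∀ P ∈ F, 1 ≤ p.ramificationIdx' P * p.inertiaDeg' P := fun P hP => by
    have := ((IsDedekindDomain.mem_primesOverFinset_iff hp0 _).mp hP).1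
    have := ((IsDedekindDomain.mem_primesOverFinset_iff hp0 _).mp hP).2
    exact Nat.pos_of_ne_zero (mul_ne_zero
      (Ideal.IsDedekindDomain.ramificationIdx'_ne_zero_of_liesOver _ hp0)
      (Ideal.inertiaDeg'_ne_zero p P))
  have hall := (Finset.sum_eq_sum_iff_of_le hone).mp (by
    rw [hsum, ← Finset.card_eq_sum_ones]; omega) _ (hmem _ hv)
  rw [Ideal.absNorm_eq_pow_inertiaDeg' _ hq, Nat.eq_one_of_mul_eq_one_left hall.symm, pow_one]

end Pool.Agent.Lib.Tower
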