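import Pool.Agent.Lib.Tower.Blue
import Pool.Agent.Lib.helper22.Inertia

set_option autoImplicit false

open NumberField IsDedekindDomain WithZero Module

namespace Pool.Agent.Lib.Tower
open Pool.Agent.Lib.helper22.Val

namespace SPL

variable {K M : Type} [Field K] [NumberField K] [Field M] [NumberField M] [Algebra K M]

lemma urat_of_inertia [IsGalois K M] {w : Pr M} (h : w.asIdeal.inertia (M ≃ₐ[K] M) = ⊥) :
    URat K w := fun x => by
  have : w.asIdeal.LiesOver (w.under (𝓞 K)).asIdeal := ⟨rfl⟩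
  have := w.isPrime
  have := (w.under (𝓞 K)).isMaximal
  have h1 := Ideal.card_inertia_eq_ramificationIdxIn (G := M ≃ₐ[K] M) (w.under (𝓞 K)).asIdeal
    w.asIdeal
  rw [h, Subgroup.card_bot, Ideal.ramificationIdxIn_eq_ramificationIdx _ w.asIdeal
    (M ≃ₐ[K] M), ← Ideal.ramificationIdx'_eq_ramificationIdx _ w.asIdeal
    (w.under (𝓞 K)).ne_bot] at h1
  rw [ord, ord, ← HeightOneSpectrum.valuation_liesOver M (w.under (𝓞 K)) w x, ← h1, pow_one]

lemma urat_of_not_mem {c : K} {θ : M} {σ : M ≃ₐ[K] M} (h : Quad c θ σ) {w : Pr M}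
    (hw : σ ∉ w.asIdeal.inertia (M ≃ₐ[K] M)) : URat K w :=
  have := h.isGalois
  urat_of_inertia (eq_bot_iff.mpr fun τ hτ => (h.aut τ).resolve_right fun e => hw (e ▸ hτ))

end SPL

open SPL

theorem split : SplitStmt := by
  intro K M _ _ _ _ _ c θ σ h w hl hw
  obtain ⟨y, hy⟩ := hl
  have hy0 : y ≠ 0 := by
    rintro rfl
    rw [zero_pow two_ne_zero, div_zero, zero_sub, Valuation.map_neg, map_one] at hy
    exact absurd (val_four_le _) (not_le.mpr hy)
  obtain ⟨e, he, h1⟩ := exists_e (E := K) w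
  have h2 := pow_lt_pow_left₀ hy zero_le he.ne'
  obtain ⟨t, ht⟩ : ∃ t, t = θ / algebraMap K M y := ⟨_, rfl⟩
  have h3 : σ t = -t := by rw [ht, map_div₀, h.conj, σ.commutes, neg_div]
  have h4 : w.valuation M (t + 1) = w.valuation M (t - 1) := by
    have := val_act σ w (t - 1)
    rwa [hw, AlgEquiv.smul_def, map_sub, h3, map_one, ← neg_add', Valuation.map_neg] at this
  rw [← h1, ← h1, map_sub, map_div₀, map_pow, ← h.sq, ← div_pow, ← ht, map_one, map_ofNat,
    show t ^ 2 - 1 = (t + 1) * (t - 1) by ring, show (4 : M) = 2 * 2 by norm_num, map_mul, map_mul,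
    h4] at h2
  have h5 : w.valuation M (t - 1) < w.valuation M 2 := lt_of_not_ge fun h => h2.not_ge
    (mul_le_mul' h h)
  have h6 := Valuation.map_sub_lt _ (h4.trans_lt h5) h5
  rw [show t + 1 - (t - 1) = 2 by ring] at h6
  exact h6.false

theorem unr : UnrStmt := by
  intro K M _ _ _ _ _ c θ σ h w
  refine ⟨fun hw => urat_of_not_mem h fun hσ => hw
    (HeightOneSpectrum.ext (Ideal.inertia_le_stabilizer _ hσ)), fun h2 ⟨k, hk⟩ => ?_⟩
  obtain ⟨π, hπ, h1⟩ := exists_ord_eq_one (w.under (𝓞 K))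
  have h3 := h.scale (zpow_ne_zero (-k) hπ)
  have h4 : ord (w.under (𝓞 K)) (c * (π ^ (-k)) ^ 2) = 0 := by
    rw [ord_mul _ h.c_ne (pow_ne_zero _ (zpow_ne_zero _ hπ)), ord_pow, ord_zpow, h1, hk]
    ring
  generalize θ * algebraMap K M (π ^ (-k)) = t at h3
  obtain ⟨e, -, h5⟩ := exists_ord_e (K := K) w
  have h6 := h5 (c * (π ^ (-k)) ^ 2)
  rw [h4, ← h3.sq, ord_pow, mul_zero] at h6
  have h7 : w.valuation M t = 1 := (ord_eq_zero_iff w h3.ne).mp (by omega)
  refine urat_of_not_mem h fun hσ => ?_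
  have h8 := val_smul_sub_lt hσ h7.le
  rw [AlgEquiv.smul_def, h3.conj, show -t - t = -(2 * t) by ring, Valuation.map_neg, map_mul,
    val_two_eq_one h2, h7, one_mul] at h8
  exact h8.false

end Pool.Agent.Lib.Tower
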