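import Pool.Agent.Lib.Tower.Blue

/-! Block SQ: the index of the squares in `ℝˣ` and in `ℚ_qˣ`. -/

open Polynomial Subgroup

namespace Pool.Agent.Lib.Tower

namespace SQ

theorem index_le {G G' B : Type*} [Group G] [Group G'] [Group B] [Finite B] (Ψ : G →* G')
    (hΨ : Function.Surjective Ψ) (θ : G →* B) (H : Subgroup G') (h : ∀ g, θ g = 1 → Ψ g ∈ H) :
    H.index ≠ 0 ∧ H.index ≤ Nat.card B := by
  have h1 : θ.ker ≤ H.comap Ψ := fun g hg => h g hg
  have h2 := index_dvd_of_le h1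
  rw [index_comap_of_surjective _ hΨ, index_ker] at h2
  have h3 : 0 < Nat.card θ.range := Nat.card_pos
  refine ⟨fun h0 => ?_, (Nat.le_of_dvd h3 h2).trans (Subgroup.card_le_card_group _)⟩
  rw [h0, zero_dvd_iff] at h2
  omega

theorem isSquare_unit {K : Type*} [Field K] (u : Kˣ) (h : IsSquare (u : K)) : IsSquare u := by
  obtain ⟨r, hr⟩ := h
  have h0 : r ≠ 0 := by
    rintro rfl
    exact u.ne_zero (by rw [hr, mul_zero])
  exact ⟨Units.mk0 r h0, Units.ext hr⟩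

theorem real : (square ℝˣ).index = 2 := by
  have key : ∀ b : ℝˣ, b ∈ square ℝˣ ↔ 0 < (b : ℝ) := by
    intro b
    refine ⟨fun ⟨r, hr⟩ => ?_, fun h => isSquare_unit b ⟨√(b : ℝ), (Real.mul_self_sqrt h.le).symm⟩⟩
    rw [hr, Units.val_mul]
    exact mul_self_pos.2 r.ne_zero
  refine index_eq_two_iff.2 ⟨-1, fun b => ?_⟩
  rw [key, key]
  have h0 := b.ne_zero
  simp only [mul_neg, mul_one, Units.val_neg, Left.neg_pos_iff]
  rcases lt_or_gt_of_ne h0 with h | h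
  · exact Or.inl ⟨h, not_lt.2 h.le⟩
  · exact Or.inr ⟨h, not_lt.2 h.le⟩

variable {q : ℕ} [hq : Fact q.Prime]

theorem hensel (u a : ℤ_[q]) (h : ‖a ^ 2 - u‖ < ‖2 * a‖ ^ 2) : IsSquare u := by
  let F : ℤ_[q][X] := X ^ 2 - C u
  have e1 : ∀ z : ℤ_[q], F.aeval z = z ^ 2 - u := fun z => by simp [F]
  have e2 : F.derivative.aeval a = 2 * a := by
    simp only [F, derivative_sub, derivative_X_pow, derivative_C]
    simp [map_ofNat]
  obtain ⟨z, hz, -⟩ := hensels_lemma (F := F) (a := a) (by rw [e1, e2]; exact h)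
  rw [e1, sub_eq_zero] at hz
  exact ⟨z, by rw [← hz, sq]⟩

theorem of_units {B : Type} [Group B] [Finite B] (θ : ℤ_[q]ˣ →* B)
    (h : ∀ u, θ u = 1 → IsSquare (u : ℤ_[q])) :
    (square ℚ_[q]ˣ).index ≠ 0 ∧ (square ℚ_[q]ˣ).index ≤ 2 * Nat.card B := by
  have q0 : (q : ℚ_[q]) ≠ 0 := Nat.cast_ne_zero.2 hq.out.ne_zero
  let π : ℚ_[q]ˣ := Units.mk0 _ q0
  let Ψ : Multiplicative ℤ × ℤ_[q]ˣ →* ℚ_[q]ˣ :=
    (zpowersHom _ π).coprod (Units.map (PadicInt.Coe.ringHom (p := q)).toMonoidHom)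
  have hΨ : Function.Surjective Ψ := by
    intro x
    have hn : ‖(x : ℚ_[q]) * (q : ℚ_[q]) ^ (-(x : ℚ_[q]).valuation)‖ = 1 := by
      have q1 : (q : ℝ) ≠ 0 := Nat.cast_ne_zero.2 hq.out.ne_zero
      rw [norm_mul, Padic.norm_eq_zpow_neg_valuation x.ne_zero, Padic.norm_p_zpow, neg_neg,
        ← zpow_add₀ q1, neg_add_cancel, zpow_zero]
    refine ⟨(Multiplicative.ofAdd (x : ℚ_[q]).valuation, PadicInt.mkUnits hn), Units.ext ?_⟩
    change ((π ^ (x : ℚ_[q]).valuation : ℚ_[q]ˣ) : ℚ_[q]) *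
      ((x : ℚ_[q]) * (q : ℚ_[q]) ^ (-(x : ℚ_[q]).valuation)) = x
    rw [Units.val_zpow_eq_zpow_val, Units.val_mk0, mul_left_comm, ← zpow_add₀ q0, add_neg_cancel,
      zpow_zero, mul_one]
  let θ' : Multiplicative ℤ × ℤ_[q]ˣ →* Multiplicative (ZMod 2) × B :=
    (AddMonoidHom.toMultiplicative (Int.castAddHom (ZMod 2))).prodMap θ
  have := index_le Ψ hΨ θ' (square _) (by
    rintro ⟨n, u⟩ hg
    have h1 : ((Multiplicative.toAdd n : ℤ) : ZMod 2) = 0 := congrArg (fun t => Multiplicative.toAdd t.1) hg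
    have h2 : θ u = 1 := congrArg Prod.snd hg
    obtain ⟨m, hm⟩ := (ZMod.intCast_zmod_eq_zero_iff_dvd _ 2).1 h1
    change IsSquare (π ^ Multiplicative.toAdd n *
      Units.map (PadicInt.Coe.ringHom (p := q)).toMonoidHom u)
    refine IsSquare.mul ⟨π ^ m, by rw [hm, ← zpow_add]; congr 1; push_cast; ring⟩ ?_
    exact isSquare_unit _ ((h u h2).map (PadicInt.Coe.ringHom (p := q))))
  simpa [Nat.card_prod] using this

theorem two : (square ℚ_[2]ˣ).index ≠ 0 ∧ (square ℚ_[2]ˣ).index ≤ 8 := by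
  have := of_units (q := 2) (Units.map (PadicInt.toZModPow (p := 2) 3).toMonoidHom) (by
    intro u hu
    have h1 : PadicInt.toZModPow 3 (u : ℤ_[2]) = 1 := congrArg Units.val hu
    have h2 : 1 ^ 2 - (u : ℤ_[2]) ∈ RingHom.ker (PadicInt.toZModPow (p := 2) 3) := by
      rw [RingHom.mem_ker, map_sub, h1]; simp
    rw [PadicInt.ker_toZModPow, ← PadicInt.norm_le_pow_iff_mem_span_pow] at h2
    refine hensel _ 1 (h2.trans_lt ?_)
    have h3 : ‖(2 : ℤ_[2])‖ = 2⁻¹ := by simpa using PadicInt.norm_p (p := 2)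
    rw [mul_one, h3]
    norm_num)
  have h4 : Nat.card (ZMod (2 ^ 3))ˣ = 4 := by
    rw [Nat.card_eq_fintype_card, ZMod.card_units_eq_totient]
    decide
  rwa [h4] at this

theorem odd (h2 : q ≠ 2) : (square ℚ_[q]ˣ).index ≠ 0 ∧ (square ℚ_[q]ˣ).index ≤ 8 := by
  have := of_units (q := q)
    (Units.map ((quadraticChar (ZMod q)).toMonoidHom.comp (PadicInt.toZMod (p := q)).toMonoidHom)) (by
    intro u hu
    have h1 : quadraticChar (ZMod q) (PadicInt.toZMod (u : ℤ_[q])) = 1 := congrArg Units.val hu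
    have h0 : PadicInt.toZMod (u : ℤ_[q]) ≠ 0 := (u.isUnit.map _).ne_zero
    obtain ⟨r, hr⟩ := (quadraticChar_one_iff_isSquare h0).1 h1
    obtain ⟨a, rfl⟩ := ZMod.ringHom_surjective (PadicInt.toZMod (p := q)) r
    have lt : ∀ z : ℤ_[q], ‖z‖ < 1 ↔ PadicInt.toZMod z = 0 := fun z => by
      rw [← RingHom.mem_ker, PadicInt.ker_toZMod, IsLocalRing.mem_maximalIdeal, PadicInt.mem_nonunits]
    have h3 : ‖2 * a‖ = 1 := by
      refine le_antisymm (PadicInt.norm_le_one _) (not_lt.1 ?_)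
      rw [lt, map_mul]
      refine mul_ne_zero ?_ fun h => h0 (by rw [hr, h, mul_zero])
      intro h
      have h5 : ((2 : ℕ) : ZMod q) = 0 := by
        rw [map_ofNat] at h
        exact_mod_cast h
      rw [ZMod.natCast_eq_zero_iff] at h5
      exact h2 ((Nat.prime_dvd_prime_iff_eq hq.out Nat.prime_two).mp h5)
    refine hensel _ a ?_
    rw [h3, one_pow, lt, map_sub, map_pow, hr, sq, sub_self])
  have h4 : Nat.card ℤˣ = 2 := by rw [Nat.card_eq_fintype_card, Fintype.card_units_int]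
  rw [h4] at this
  exact ⟨this.1, this.2.trans (by norm_num)⟩

end SQ

theorem sq : SqStmt := by
  refine ⟨SQ.real, fun q _ => ?_⟩
  by_cases h : q = 2
  · subst h
    exact SQ.two
  · exact SQ.odd h

end Pool.Agent.Lib.Tower
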