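import Pool.Agent.Lib.Tower.Blue

set_option autoImplicit false

open NumberField IsDedekindDomain WithZero Module Subgroup

namespace Pool.Agent.Lib.Tower

namespace TSb

lemma fin_emb (K E : Type) [Field K] [NumberField K] [Field E] [CharZero E] :
    Finite (K →+* E) ∧ Nat.card (K →+* E) ≤ finrank ℚ K := by
  let _ : Algebra ℚ E := DivisionRing.toRatAlgebra
  refine ⟨Finite.of_equiv _ (RingHom.equivRatAlgHom K E).symm, ?_⟩
  rw [Nat.card_congr (RingHom.equivRatAlgHom K E)]
  exact card_algHom_le_finrank ℚ K E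

lemma fib_le (K L E : Type) [Field K] [NumberField K] [Field L] [NumberField L] [Algebra K L]
    [Field E] (j : K →+* E) :
    Nat.card {j' : L →+* E // j'.comp (algebraMap K L) = j} ≤ finrank K L := by
  let _ : Algebra K E := j.toAlgebra
  refine le_trans (Nat.card_le_card_of_injective
    (β := L →ₐ[K] E) (fun j' => ⟨j'.1, fun x => ?_⟩) ?_) (card_algHom_le_finrank K L E)
  · exact congrArg (fun f : K →+* E => f x) j'.2
  · intro a b hab
    exact Subtype.ext (congrArg (fun f : L →ₐ[K] E => f.toRingHom) hab)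

variable {K L E : Type} [Field K] [NumberField K] [Field L] [NumberField L] [Algebra K L]
  [Field E] {c : K} {θ : L} {σ : L ≃ₐ[K] L}

lemma exists_ext (h : Quad c θ σ) (j : K →+* E) {t : E} (ht : j c = t * t) :
    ∃ j' : L →+* E, j'.comp (algebraMap K L) = j ∧ j' θ = t := by
  choose a b hab using h.span
  have hu : ∀ (y : L) (α β : K), y = algebraMap K L α + algebraMap K L β * θ →
      a y = α ∧ b y = β := by
    intro y α β hy
    have h0 : algebraMap K L (a y - α) + algebraMap K L (b y - β) * θ = 0 := by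
      rw [map_sub, map_sub]
      linear_combination hy - hab y
    have := h.ext h0
    exact ⟨sub_eq_zero.mp this.1, sub_eq_zero.mp this.2⟩
  have h1 := hu 1 1 0 (by simp)
  have h0 := hu 0 0 0 (by simp)
  have hθ := hu θ 0 1 (by simp)
  have hadd : ∀ x y, a (x + y) = a x + a y ∧ b (x + y) = b x + b y := fun x y =>
    hu _ _ _ (by rw [map_add, map_add]; linear_combination hab x + hab y)
  have hmul : ∀ x y, a (x * y) = a x * a y + c * (b x * b y) ∧
      b (x * y) = a x * b y + b x * a y := fun x y =>
    hu _ _ _ (by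
      simp only [map_add, map_mul, ← h.sq]
      linear_combination y * hab x + (algebraMap K L (a x) + algebraMap K L (b x) * θ) * hab y)
  refine ⟨⟨⟨⟨fun y => j (a y) + j (b y) * t, ?_⟩, ?_⟩, ?_, ?_⟩, ?_, ?_⟩
  · simp [h1.1, h1.2]
  · intro x y
    simp only [(hmul x y).1, (hmul x y).2, map_add, map_mul, ht]
    ring
  · simp [h0.1, h0.2]
  · intro x y
    simp only [(hadd x y).1, (hadd x y).2, map_add]
    ring
  · ext x
    have := hu (algebraMap K L x) x 0 (by simp)
    simp [this.1, this.2]
  · simp [hθ.1, hθ.2]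

end TSb

theorem tsDown : TsDownStmt := by
  intro K L E _ _ _ _ _ _ _
  obtain ⟨hK, hK'⟩ := TSb.fin_emb K E
  obtain ⟨hL, -⟩ := TSb.fin_emb L E
  refine ⟨hK, hK', fun h => ?_⟩
  classical
  let _ : Fintype (K →+* E) := Fintype.ofFinite _
  let _ : Fintype (L →+* E) := Fintype.ofFinite _
  have hle := Finset.card_le_mul_card_image
    (f := fun j' : L →+* E => j'.comp (algebraMap K L)) Finset.univ (finrank K L) (fun j _ => by
      have := TSb.fib_le K L E j
      rwa [Nat.card_eq_fintype_card, Fintype.card_subtype] at this)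
  have hpos : 0 < finrank K L := finrank_pos
  have h2 : finrank ℚ K * finrank K L = finrank ℚ L := finrank_mul_finrank ℚ K L
  rw [TS, Nat.card_eq_fintype_card, ← Finset.card_univ, ← h2] at h
  have h3 : finrank ℚ K ≤ (Finset.univ.image
      fun j' : L →+* E => j'.comp (algebraMap K L)).card :=
    Nat.le_of_mul_le_mul_left (by rw [mul_comm]; exact h.trans hle) hpos
  rw [Nat.card_eq_fintype_card] at hK'
  refine ⟨?_, fun j => ?_⟩
  · rw [TS, Nat.card_eq_fintype_card]
    exact h3.trans (Finset.card_le_univ _)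
  · have h4 := Finset.eq_univ_of_card _ (le_antisymm (Finset.card_le_univ _) (hK'.trans h3))
    have h5 : j ∈ Finset.univ.image fun j' : L →+* E => j'.comp (algebraMap K L) := by
      rw [h4]; exact Finset.mem_univ j
    obtain ⟨j', -, hj'⟩ := Finset.mem_image.mp h5
    exact ⟨j', hj'⟩

theorem tsUp : TsUpStmt := by
  intro K L E _ _ _ _ _ _ _ c θ σ h hK hsq
  obtain ⟨hL, -⟩ := TSb.fin_emb L E
  choose t ht using hsq
  have hne : ∀ j, t j ≠ 0 := fun j h0 => by
    have := ht j
    rw [h0, mul_zero, _root_.map_eq_zero] at this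
    exact h.c_ne this
  have hex : ∀ p : (K →+* E) × Bool, ∃ j' : L →+* E, j'.comp (algebraMap K L) = p.1 ∧
      j' θ = if p.2 then t p.1 else -t p.1 := by
    rintro ⟨j, s⟩
    refine TSb.exists_ext h j ?_
    cases s <;> simp [ht j]
  choose F hF using hex
  have hinj : Function.Injective F := by
    rintro ⟨j, s⟩ ⟨j', s'⟩ hp
    have h1 : j = j' := by
      have := (hF (j, s)).1
      rw [hp, (hF (j', s')).1] at this
      exact this.symm
    subst h1
    have h2 := (hF (j, s)).2
    rw [hp, (hF (j, s')).2] at h2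
    have h3 : t j ≠ -t j := fun h4 => hne j (by linear_combination h4 / 2)
    cases s <;> cases s'
    · rfl
    · exact absurd (by simpa using h2) h3
    · exact absurd (by simpa using h2.symm) h3
    · rfl
  have h4 := Nat.card_le_card_of_injective F hinj
  rw [Nat.card_prod, Nat.card_eq_fintype_card (α := Bool), Fintype.card_bool] at h4
  rw [TS, ← finrank_mul_finrank ℚ K L, h.finrank]
  exact (Nat.mul_le_mul_right 2 hK).trans h4

theorem tsReal : TsRealStmt := by
  intro K _ _ h
  have hinj : Function.Injective fun j : K →+* ℝ => Complex.ofRealHom.comp j := by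
    intro a b hab
    ext x
    have := congrArg (fun f : K →+* ℂ => f x) hab
    simpa using this
  have hc : Nat.card (K →+* ℂ) = finrank ℚ K := by
    rw [Nat.card_eq_fintype_card, Embeddings.card]
  have hb := hinj.bijective_of_nat_card_le (hc.trans_le h)
  refine ⟨fun v => InfinitePlace.isReal_iff.mpr ?_⟩
  obtain ⟨j, hj⟩ := hb.2 v.embedding
  rw [← hj, ComplexEmbedding.isReal_iff]
  ext x
  simp [ComplexEmbedding.conjugate_coe_eq]

end Pool.Agent.Lib.Tower
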