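import Pool.Agent.Lib.Tower.BITS

set_option autoImplicit false

open NumberField IsDedekindDomain WithZero Module Subgroup

namespace Pool.Agent.Lib.Tower

namespace Xcl
open Bits

variable {K L : Type} [Field K] [NumberField K] [Field L] [NumberField L] [Algebra K L]

lemma even_sub [IsGalois K L] {x : Lˣ} (hx : x ∈ XG K L) {w w' : Pr L}
    (h : w.under (𝓞 K) = w'.under (𝓞 K)) : Even (ord w' (x : L) - ord w (x : L)) := by
  obtain ⟨σ, rfl⟩ := exists_act_eq (E := K) h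
  obtain ⟨y, hy⟩ := hx σ
  have h0 : σ (x : L) ≠ 0 := (map_ne_zero σ).2 x.ne_zero
  have hy0 : y ≠ 0 := by
    rintro rfl
    exact div_ne_zero h0 x.ne_zero (by rw [hy, mul_zero])
  have h1 := ord_div (σ • w) h0 x.ne_zero
  rw [hy, ord_mul _ hy0 hy0, show σ (x : L) = σ • (x : L) from rfl, ord_act] at h1
  exact ⟨-ord (σ • w) y, by linarith⟩

omit [NumberField K] in
lemma exists_div (s : Pr K → Pr L) (hs : ∀ v, (s v).under (𝓞 K) = v) (x : L) :
    ∃ c : Pr K →₀ ℤ, ∀ v, c v = ord (s v) x :=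
  ⟨Finsupp.ofSupportFinite (fun v => ord (s v) x)
    ((finite_ord_ne_zero x).preimage (Function.LeftInverse.injective hs).injOn), fun _ => rfl⟩

lemma step1 (h : Cl2Stmt) [IsGalois K L] (hU : UR K L) (h0 : (square Kˣ).relIndex (Ev K) ≠ 0) :
    ((Ev L ⊓ XG K L) ⊔ (inc K L).range).relIndex (XG K L) ≠ 0 ∧
      ((Ev L ⊓ XG K L) ⊔ (inc K L).range).relIndex (XG K L) ≤ (square Kˣ).relIndex (Ev K) := by
  obtain ⟨R, hR, hc⟩ := h K h0
  choose s hs using exists_under_eq (E := K) L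
  choose c hc' using exists_div s hs
  choose r hr z hz using hc
  obtain ⟨h1, h2⟩ := relIndex_le_of_test ((Ev L ⊓ XG K L) ⊔ (inc K L).range) (XG K L)
    (fun x => (⟨r (c (x : Lˣ)), hr _⟩ : R)) fun a b hab => by
      have hab : r (c (a : Lˣ)) = r (c (b : Lˣ)) := congrArg Subtype.val hab
      have hX : (a : Lˣ)⁻¹ * b ∈ XG K L := (XG K L).mul_mem ((XG K L).inv_mem a.2) b.2
      let u : Kˣ := (z (c (a : Lˣ)))⁻¹ * z (c (b : Lˣ))
      refine mem_sup.2 ⟨(a : Lˣ)⁻¹ * b * (inc K L u)⁻¹, ⟨fun w => ?_, ?_⟩, inc K L u, ⟨u, rfl⟩,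
        inv_mul_cancel_right _ _⟩
      · have ha := hz (c (a : Lˣ)) (w.under (𝓞 K))
        have hb := hz (c (b : Lˣ)) (w.under (𝓞 K))
        have ha' := even_sub a.2 (hs (w.under (𝓞 K)))
        have hb' := even_sub b.2 (hs (w.under (𝓞 K)))
        rw [hc'] at ha hb
        rw [hab] at ha
        rw [Units.val_mul, ord_mul _ (Units.ne_zero _) (Units.ne_zero _), Units.val_mul,
          ord_mul _ (Units.ne_zero _) (Units.ne_zero _), Units.val_inv_eq_inv_val, ord_inv,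
          Units.val_inv_eq_inv_val, ord_inv, coe_inc, hU w, Units.val_mul,
          ord_mul _ (Units.ne_zero _) (Units.ne_zero _), Units.val_inv_eq_inv_val, ord_inv]
        obtain ⟨m, hm⟩ := (hb.sub ha).add (hb'.sub ha')
        exact ⟨m, by linarith⟩
      · refine (XG K L).mul_mem hX ((XG K L).inv_mem fun σ => ?_)
        rw [coe_inc, AlgEquiv.commutes, ← coe_inc, div_self (Units.ne_zero _)]
        exact IsSquare.one
  exact ⟨h1, h2.trans (by rwa [Nat.card_eq_fintype_card, Fintype.card_coe])⟩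

omit [NumberField K] [NumberField L] in
lemma range_le : (inc K L).range ≤ XG K L := by
  rintro _ ⟨u, rfl⟩ σ
  rw [coe_inc, AlgEquiv.commutes, ← coe_inc, div_self (Units.ne_zero _)]
  exact IsSquare.one

end Xcl

open Xcl in
theorem xcl (h : Cl2Stmt) : XclStmt := by
  intro K L _ _ _ _ _ hG hU Λ hΛ hsq h0
  obtain ⟨h1, h2⟩ := step1 h hU h0
  set X := XG K L
  set Y := (inc K L).range ⊔ square Lˣ
  set X1 := (Ev L ⊓ X) ⊔ (inc K L).range
  have hX1 : X1 ≤ X := sup_le inf_le_right range_le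
  have h3 : Λ.relIndex (Ev L ⊓ X) ≠ 0 := fun h =>
    hΛ (relIndex_eq_zero_of_le_right inf_le_right h)
  have h4 : Λ ⊓ (Ev L ⊓ X) ≤ Y := fun x hx =>
    mem_sup_right ((isSquare_units_iff x).2 (hsq x hx.2.2 hx.1 hx.2.1))
  have h5 : Y.relIndex X1 ≠ 0 ∧ Y.relIndex X1 ≤ Λ.relIndex X := by
    have e : Y.relIndex X1 = Y.relIndex (Ev L ⊓ X) := by
      rw [← relIndex_sup_right X1 Y, ← relIndex_sup_right (Ev L ⊓ X) Y, sup_assoc,
        sup_eq_right.2 (le_sup_left : (inc K L).range ≤ Y)]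
    rw [← inf_relIndex_right] at h3
    rw [e]
    refine ⟨fun h => h3 (relIndex_eq_zero_of_le_left h4 h), (relIndex_le_of_le_left h4 h3).trans ?_⟩
    rw [inf_relIndex_right]
    exact relIndex_le_of_le_right inf_le_right hΛ
  have h6 : (Y ⊓ X1).relIndex X = Y.relIndex X1 * X1.relIndex X := by
    rw [← relIndex_mul_relIndex _ _ _ inf_le_right hX1, inf_relIndex_right]
  have h7 : (Y ⊓ X1).relIndex X ≠ 0 := h6 ▸ mul_ne_zero h5.1 h1
  refine ⟨fun h => h7 (relIndex_eq_zero_of_le_left inf_le_left h),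
    (relIndex_le_of_le_left inf_le_left h7).trans ?_⟩
  rw [h6, mul_comm]
  exact Nat.mul_le_mul h2 h5.2

end Pool.Agent.Lib.Tower
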