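import Pool.Agent.Lib.Tower.Fin3
import Pool.Agent.Lib.Tower.HNT
import Pool.Agent.Lib.Tower.BITS
import Pool.Agent.Lib.Tower.Base
import Pool.Agent.Lib.Tower.DISC
import Pool.Agent.Lib.Tower.DIV
import Pool.Agent.Lib.Tower.EXT
import Pool.Agent.Lib.Tower.GS
import Pool.Agent.Lib.Tower.KUM
import Pool.Agent.Lib.Tower.Loc
import Pool.Agent.Lib.Tower.SPL
import Pool.Agent.Lib.Tower.SQ
import Pool.Agent.Lib.Tower.TS
import Pool.Agent.Lib.Tower.XCL

set_option autoImplicit false

namespace Pool.Agent.Lib.Tower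

theorem tower2 : Tower2Stmt :=
  tower2_of gs kum h2x (xcl cl2) (fun K L _ _ _ _ _ h1 h2 h3 h4 _ => splits2 tsReal K L h1 h2 h3 h4)
    (bits tsDown sq) (ext tsUp split unr (loc tsDown) galx) (base2 sq tsUp) disc (loc tsDown) tsReal

theorem tower : TowerStmt := fun t => (tower2 t).imp fun _ h Q hQ k => by
  obtain ⟨L, _, _, h1, h2, h3, -, -, h4⟩ := h Q hQ k
  refine ⟨L, _, ‹_›, h1, h2, ?_, fun q _ hq => (h4 q hq).1⟩
  rw [TS, ← NumberField.Embeddings.card L ℂ, ← Nat.card_eq_fintype_card]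
  refine Nat.card_le_card_of_injective
    (fun φ => (NumberField.IsTotallyReal.complexEmbedding_isReal φ).embedding) fun φ ψ e => ?_
  ext x
  rw [← (NumberField.IsTotallyReal.complexEmbedding_isReal φ).coe_embedding_apply,
    ← (NumberField.IsTotallyReal.complexEmbedding_isReal ψ).coe_embedding_apply]
  exact congrArg (fun f : L →+* ℝ => (f x : ℂ)) e

end Pool.Agent.Lib.Tower
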