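import Pool.Agent.Lib.helper22.Val

set_option autoImplicit false

open NumberField IsDedekindDomain WithZero Module
open scoped Pointwise nonZeroDivisors

namespace Pool.Agent.Lib.Tower
open Pool.Agent.Lib.helper22.Val

section
variable {L : Type*} [Field L] [NumberField L]

lemma count_span {x : L} (hx : x ≠ 0) (w : HeightOneSpectrum (𝓞 L)) :
    FractionalIdeal.count L w (FractionalIdeal.spanSingleton (𝓞 L)⁰ x) = -log (w.valuation L x) := by
  obtain ⟨a, b, hb, rfl⟩ := IsFractionRing.div_surjective (A := 𝓞 L) x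
  have hb := nonZeroDivisors.ne_zero hb
  have ha : a ≠ 0 := by rintro rfl; simp at hx
  rw [FractionalIdeal.count_well_defined L w (a := b) (J := Ideal.span {a})
    (by rwa [Ne, FractionalIdeal.spanSingleton_eq_zero_iff])
    (by rw [FractionalIdeal.coeIdeal_span_singleton,
      FractionalIdeal.spanSingleton_mul_spanSingleton, div_eq_inv_mul]),
    map_div₀, HeightOneSpectrum.valuation_of_algebraMap, HeightOneSpectrum.valuation_of_algebraMap,
    w.intValuation_if_neg ha, w.intValuation_if_neg hb, ← exp_sub, log_exp]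
  ring

variable (L) in
lemma exists_cl : ∃ cl : (HeightOneSpectrum (𝓞 L) →₀ ℤ) →+ Additive (ClassGroup (𝓞 L)),
    ∀ c, cl c = 0 → ∃ x : L, x ≠ 0 ∧ ∀ w, log (w.valuation L x) = c w := by
  let u : HeightOneSpectrum (𝓞 L) → (FractionalIdeal (𝓞 L)⁰ L)ˣ := fun w =>
    Units.mk0 (w.asIdeal : FractionalIdeal (𝓞 L)⁰ L) (FractionalIdeal.coeIdeal_ne_zero.mpr w.ne_bot)
  let f : (HeightOneSpectrum (𝓞 L) →₀ ℤ) →+ Additive (FractionalIdeal (𝓞 L)⁰ L)ˣ :=
    Finsupp.liftAddHom fun w => zmultiplesHom _ (Additive.ofMul (u w))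
  refine ⟨(ClassGroup.mk (R := 𝓞 L) (K := L)).toAdditive.comp f, fun c hc => ?_⟩
  have hc : ClassGroup.mk (R := 𝓞 L) (K := L) (f c).toMul = 1 := hc
  obtain ⟨x, hx⟩ := (FractionalIdeal.isPrincipal_iff _).mp (ClassGroup.mk_eq_one_iff.mp hc)
  have h0 : x ≠ 0 := by
    rintro rfl
    exact (f c).toMul.ne_zero (by rw [hx]; simp)
  refine ⟨x⁻¹, inv_ne_zero h0, fun w => ?_⟩
  rw [map_inv₀, log_inv, ← count_span h0, ← hx, ← FractionalIdeal.count_finsuppProd L w c]
  congr 1
  simp [f, u, Finsupp.sum, Finsupp.prod, toMul_sum]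

section Act
variable {G : Type*} [Group G] [MulSemiringAction G L]

omit [NumberField L] in
lemma coe_smul_int (σ : G) (x : 𝓞 L) : ((σ • x : 𝓞 L) : L) = σ • (x : L) := rfl

omit [NumberField L] in
instance act : MulAction G (HeightOneSpectrum (𝓞 L)) where
  smul σ w := ⟨σ • w.asIdeal, have := w.isPrime; inferInstance, fun h => w.ne_bot (by
    rw [← inv_smul_smul σ w.asIdeal, h, Ideal.smul_bot])⟩
  one_smul _ := HeightOneSpectrum.ext (one_smul _ _)
  mul_smul _ _ _ := HeightOneSpectrum.ext (mul_smul _ _ _)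

omit [NumberField L] in
lemma act_asIdeal (σ : G) (w : HeightOneSpectrum (𝓞 L)) : (σ • w).asIdeal = σ • w.asIdeal := rfl

omit [NumberField L] in
lemma mem_act (σ : G) (w : HeightOneSpectrum (𝓞 L)) (n : ℕ) :
    (n : 𝓞 L) ∈ (σ • w).asIdeal ↔ (n : 𝓞 L) ∈ w.asIdeal := by
  rw [act_asIdeal, ← Ideal.smul_mem_pointwise_smul_iff (a := σ) (S := w.asIdeal),
    show σ • (n : 𝓞 L) = n from map_natCast (MulSemiringAction.toRingHom G _ σ) n]

lemma val_act (σ : G) (w : HeightOneSpectrum (𝓞 L)) (x : L) :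
    (σ • w).valuation L (σ • x) = w.valuation L x := by
  have h0 : ∀ (σ : G) (w : HeightOneSpectrum (𝓞 L)) (x : 𝓞 L),
      (σ • w).valuation L (σ • (x : L)) ≤ w.valuation L (x : L) := fun σ w x => by
    rcases eq_or_ne x 0 with rfl | hx
    · simp
    rw [← coe_smul_int, HeightOneSpectrum.valuation_of_algebraMap,
      HeightOneSpectrum.valuation_of_algebraMap, w.intValuation_eq_exp_neg_multiplicity hx,
      HeightOneSpectrum.intValuation_le_pow_iff_mem, act_asIdeal, ← smul_pow']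
    refine Ideal.smul_mem_pointwise_smul _ _ _ ?_
    rw [← HeightOneSpectrum.intValuation_le_pow_iff_mem, w.intValuation_eq_exp_neg_multiplicity hx]
  have h : ∀ y : 𝓞 L, (σ • w).valuation L (σ • (y : L)) = w.valuation L (y : L) := fun y => by
    refine le_antisymm (h0 σ w y) ?_
    have := h0 σ⁻¹ (σ • w) (σ • y)
    rwa [coe_smul_int, inv_smul_smul, inv_smul_smul] at this
  obtain ⟨n, d, hd, rfl⟩ := IsFractionRing.div_surjective (A := 𝓞 L) x
  rw [smul_div₀', map_div₀, map_div₀]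
  exact congrArg₂ _ (h n) (h d)

lemma val_act' (σ : G) (w : HeightOneSpectrum (𝓞 L)) (x : L) :
    w.valuation L (σ • x) = (σ⁻¹ • w).valuation L x := by
  rw [← val_act σ (σ⁻¹ • w), smul_inv_smul]

end Act

end

lemma finrank_of_le_range {A B : Type*} [AddCommGroup A] [AddCommGroup B] [Module.Finite ℤ B]
    (ι : B →+ A) (hι : Function.Injective ι) (U : AddSubgroup A) (hU : U ≤ ι.range) :
    Module.Finite ℤ U ∧ finrank ℤ U ≤ finrank ℤ B ∧
      (U.relIndex ι.range ≠ 0 → finrank ℤ U = finrank ℤ B) := by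
  have e : U.comap ι ≃ₗ[ℤ] U := (((U.comap ι).equivMapOfInjective ι hι).trans
    (AddEquiv.addSubgroupCongr (AddSubgroup.map_comap_eq_self hU))).toIntLinearEquiv
  have : Module.Finite ℤ (U.comap ι) := inferInstanceAs (Module.Finite ℤ (U.comap ι).toIntSubmodule)
  refine ⟨Module.Finite.equiv e, e.finrank_eq ▸ (U.comap ι).toIntSubmodule.finrank_le, fun h => ?_⟩
  rw [← AddSubgroup.index_comap] at h
  have h1 := (U.comap ι).toIntSubmodule.finrank_quotient_add_finrank
  have : Finite (B ⧸ (U.comap ι).toIntSubmodule) :=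
    (AddSubgroup.fintypeOfIndexNeZero h).finite
  rw [finrank_eq_zero_iff_isTorsion.mpr (by
    rw [← isAddTorsion_iff_isTorsion_int]; exact isAddTorsion_of_finite), zero_add] at h1
  rw [← e.finrank_eq, ← h1]; rfl

lemma exists_unit {L : Type*} [Field L] [NumberField L] {x : L}
    (h : ∀ w : HeightOneSpectrum (𝓞 L), w.valuation L x = 1) :
    ∃ u : (𝓞 L)ˣ, algebraMap (𝓞 L) L u = x := by
  obtain ⟨w, -⟩ := exists_over L Nat.prime_two
  have h0 : x ≠ 0 := by rintro rfl; simpa using h w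
  obtain ⟨a, ha⟩ := HeightOneSpectrum.mem_integers_of_valuation_le_one L x fun w => (h w).le
  obtain ⟨b, hb⟩ := HeightOneSpectrum.mem_integers_of_valuation_le_one L x⁻¹ fun w => by
    rw [map_inv₀, h w, inv_one]
  refine ⟨Units.mkOfMulEqOne a b (IsFractionRing.injective (𝓞 L) L ?_), ha⟩
  rw [map_mul, ha, hb, mul_inv_cancel₀ h0, map_one]

lemma val_unit {L : Type*} [Field L] [NumberField L] (u : (𝓞 L)ˣ) (w : HeightOneSpectrum (𝓞 L)) :
    w.valuation L (algebraMap (𝓞 L) L u) = 1 := by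
  rw [HeightOneSpectrum.valuation_of_algebraMap, HeightOneSpectrum.intValuation_eq_one_iff]
  exact fun h => w.isPrime.ne_top (Ideal.eq_top_of_isUnit_mem _ h u.isUnit)

lemma eq_one_of_log {L : Type*} [Field L] [NumberField L] {x : L} (hx : x ≠ 0)
    {w : HeightOneSpectrum (𝓞 L)} (h : log (w.valuation L x) = 0) : w.valuation L x = 1 := by
  rw [← exp_log (val_ne_zero hx), h, exp_zero]

section
variable {E M : Type*} [Field E] [NumberField E] [Field M] [NumberField M] [Algebra E M]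

lemma exists_e (w : HeightOneSpectrum (𝓞 M)) : ∃ e : ℕ, 0 < e ∧
    ∀ x, w.valuation M (algebraMap E M x) = (w.under (𝓞 E)).valuation E x ^ e :=
  have : w.asIdeal.LiesOver (w.under (𝓞 E)).asIdeal := ⟨rfl⟩
  ⟨_, Nat.pos_of_ne_zero (Ideal.IsDedekindDomain.ramificationIdx'_ne_zero_of_liesOver w.asIdeal
    (w.under (𝓞 E)).ne_bot), fun x => (HeightOneSpectrum.valuation_liesOver M _ w x).symm⟩

omit [NumberField E] [NumberField M] in
variable (E) in
lemma mem_under (w : HeightOneSpectrum (𝓞 M)) (n : ℕ) :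
    (n : 𝓞 E) ∈ (w.under (𝓞 E)).asIdeal ↔ (n : 𝓞 M) ∈ w.asIdeal := by
  rw [← map_natCast (algebraMap (𝓞 E) (𝓞 M))]; rfl

omit [NumberField M] in
variable (M) in
lemma exists_under_eq (v : HeightOneSpectrum (𝓞 E)) :
    ∃ w : HeightOneSpectrum (𝓞 M), w.under (𝓞 E) = v := by
  have := v.isMaximal
  obtain ⟨⟨P, h1, h2⟩⟩ := (inferInstance : Nonempty (v.asIdeal.primesOver (𝓞 M)))
  exact ⟨⟨P, h1, Ideal.ne_bot_of_liesOver_of_ne_bot v.ne_bot P⟩, HeightOneSpectrum.ext h2.1.symm⟩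

omit [NumberField E] [NumberField M] in
lemma under_under {N : Type*} [Field N] [Algebra E N] [Algebra M N]
    [IsScalarTower E M N] (w : HeightOneSpectrum (𝓞 N)) :
    (w.under (𝓞 M)).under (𝓞 E) = w.under (𝓞 E) :=
  HeightOneSpectrum.ext (Ideal.under_under _)

variable [IsGalois E M]

lemma exists_act_eq {w w' : HeightOneSpectrum (𝓞 M)} (h : w.under (𝓞 E) = w'.under (𝓞 E)) :
    ∃ σ : M ≃ₐ[E] M, σ • w = w' := by
  have := w.isPrime
  have := w'.isPrime
  obtain ⟨σ, hσ⟩ := Algebra.IsInvariant.exists_smul_of_under_eq (𝓞 E) (𝓞 M) (M ≃ₐ[E] M)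
    w.asIdeal w'.asIdeal (congrArg HeightOneSpectrum.asIdeal h)
  exact ⟨σ, HeightOneSpectrum.ext hσ.symm⟩

lemma under_act (σ : M ≃ₐ[E] M) (w : HeightOneSpectrum (𝓞 M)) :
    (σ • w).under (𝓞 E) = w.under (𝓞 E) :=
  HeightOneSpectrum.ext (Ideal.under_smul _ _ _)

end

end Pool.Agent.Lib.Tower
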