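import Pool.Agent.Lib.Tower.QuadB

set_option autoImplicit false

open NumberField IsDedekindDomain WithZero Module Subgroup

namespace Pool.Agent.Lib.Tower

/-- block TS (a): counting embeddings, going down, extending embeddings -/
def TsDownStmt : Prop :=
  ∀ (K L E : Type) [Field K] [NumberField K] [Field L] [NumberField L] [Algebra K L] [Field E]
    [CharZero E], Finite (K →+* E) ∧ Nat.card (K →+* E) ≤ finrank ℚ K ∧
    (TS L E → TS K E ∧ ∀ j : K →+* E, ∃ j' : L →+* E, j'.comp (algebraMap K L) = j)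

/-- block TS (b): going up a quadratic step -/
def TsUpStmt : Prop :=
  ∀ (K L E : Type) [Field K] [NumberField K] [Field L] [NumberField L] [Algebra K L] [Field E]
    [CharZero E] (c : K) (θ : L) (σ : L ≃ₐ[K] L), Quad c θ σ → TS K E →
    (∀ j : K →+* E, IsSquare (j c)) → TS L E

/-- block TS (c) -/
def TsRealStmt : Prop :=
  ∀ (K : Type) [Field K] [NumberField K], TS K ℝ → IsTotallyReal K

/-- block DIV (a) -/
def DivStmt : Prop :=
  ∀ (K : Type) [Field K] [NumberField K], ∃ S : Set (Pr K), S.Finite ∧ CL S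

/-- block DIV (b): the class group modulo squares is at most as big as the Selmer group -/
def Cl2Stmt : Prop :=
  ∀ (K : Type) [Field K] [NumberField K], (square Kˣ).relIndex (Ev K) ≠ 0 →
    ∃ R : Finset (Pr K →₀ ℤ), R.card ≤ (square Kˣ).relIndex (Ev K) ∧
      ∀ c : Pr K →₀ ℤ, ∃ r ∈ R, ∃ x : Kˣ, ∀ v, Even (c v - r v - ord v (x : K))

/-- block RK: index of the squares in a finitely generated abelian group -/
def RkStmt : Prop :=
  ∀ (A : Type) [CommGroup A] [Group.FG A],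
    (square A).index = 2 ^ finrank ℤ (Additive A) * Nat.card {x : A // x ^ 2 = 1}

/-- block SU (uses TsReal, Rk): `S`-unit theorem modulo squares -/
def SuStmt : Prop :=
  ∀ (K : Type) [Field K] [NumberField K], TS K ℝ → ∀ S : Set (Pr K), S.Finite →
    Group.FG (US K S) ∧ (square (US K S)).index = 2 ^ (S.ncard + finrank ℚ K) ∧
      (square Kˣ).relIndex (US K S) = 2 ^ (S.ncard + finrank ℚ K)

/-- block HERB (uses Rk): Herbrand quotient for an involution -/
def HerbStmt : Prop :=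
  ∀ (A : Type) [CommGroup A] [Group.FG A] (σ : A →* A), (∀ x, σ (σ x) = x) →
    (∀ x, x ^ 2 = 1 → σ x = x) → (∀ x, x * σ x = 1 → ∃ y, x = y / σ y) →
    (MonoidHom.id A * σ).range.relIndex (σ.eqLocus (MonoidHom.id A)) * (square A).index *
      Nat.card {x : A // x ^ 2 = 1} = (square (σ.eqLocus (MonoidHom.id A))).index ^ 2

/-- block LEMH (uses TsDown, Su, Herb): norm index of `S`-units -/
def LemHStmt : Prop :=
  ∀ (K M : Type) [Field K] [NumberField K] [Field M] [NumberField M] [Algebra K M]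
    (c : K) (θ : M) (σ : M ≃ₐ[K] M), Quad c θ σ → TS M ℝ → ∀ S P : Set (Pr K), S.Finite → CL S →
    (∀ w : Pr M, w.under (𝓞 K) ∉ S → URat K w) → P ⊆ S →
    (∀ w : Pr M, w.under (𝓞 K) ∈ S → w.under (𝓞 K) ∉ P → σ • w ≠ w) →
    (NmS σ S).relIndex (US K S) ≠ 0 ∧ 2 * (NmS σ S).relIndex (US K S) ≤ 2 ^ P.ncard

/-- block SPL (a): a local square splits -/
def SplitStmt : Prop :=
  ∀ (K M : Type) [Field K] [NumberField K] [Field M] [NumberField M] [Algebra K M]
    (c : K) (θ : M) (σ : M ≃ₐ[K] M), Quad c θ σ → ∀ w : Pr M, LS (w.under (𝓞 K)) c → σ • w ≠ w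

/-- block SPL (b): unramifiedness in a quadratic step -/
def UnrStmt : Prop :=
  ∀ (K M : Type) [Field K] [NumberField K] [Field M] [NumberField M] [Algebra K M]
    (c : K) (θ : M) (σ : M ≃ₐ[K] M), Quad c θ σ → ∀ w : Pr M, (σ • w ≠ w → URat K w) ∧
      (¬ Over 2 w → Even (ord (w.under (𝓞 K)) c) → URat K w)

/-- block LOC (uses TsDown): primes above a totally split rational prime -/
def LocStmt : Prop :=
  ∀ (K : Type) [Field K] [NumberField K] (q : ℕ) [Fact q.Prime], TS K ℚ_[q] →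
    {v : Pr K | Over q v}.ncard = finrank ℚ K ∧ ∀ v : Pr K, Over q v →
      Ideal.absNorm v.asIdeal = q ∧ ord v (q : K) = 1 ∧ ∃ j : K →+* ℚ_[q],
        (∀ x, v.valuation K x < 1 ↔ ‖j x‖ < 1) ∧ ∀ c : K, c ≠ 0 → IsSquare (j c) → LS v c

/-- block SQ: squares in local fields -/
def SqStmt : Prop :=
  (square ℝˣ).index = 2 ∧
    ∀ (q : ℕ) [Fact q.Prime], (square ℚ_[q]ˣ).index ≠ 0 ∧ (square ℚ_[q]ˣ).index ≤ 8

/-- block LAM (a): quadratic residue character at an odd prime -/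
def LamStmt : Prop :=
  ∀ (K : Type) [Field K] [NumberField K] (v : Pr K), ¬ Over 2 v →
    ∃ l : Kˣ →* Multiplicative (ZMod 2), ∀ x : Kˣ, LS v (x : K) ↔ Even (ord v (x : K)) ∧ l x = 1

/-- block LAM (b): tame norm residue symbol -/
def SymStmt : Prop :=
  ∀ (K : Type) [Field K] [NumberField K] (v : Pr K), ¬ Over 2 v → ∀ c : K, c ≠ 0 →
    ∃ h : Kˣ →* Multiplicative (ZMod 2),
      (∀ (x : Kˣ) (α β : K), (x : K) = α ^ 2 - c * β ^ 2 → h x = 1) ∧
      (Even (ord v c) → ¬ LS v c → ∀ x : Kˣ, h x = 1 ↔ Even (ord v (x : K))) ∧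
      (Odd (ord v c) → ∀ x : Kˣ, ord v (x : K) = 0 → (h x = 1 ↔ LS v (x : K)))

/-- block INERT (uses Lam, Split, Unr and the Bauer lemma) -/
def InertStmt : Prop :=
  ∀ (K : Type) [Field K] [NumberField K] (a u : K), ¬ IsSquare a → ¬ IsSquare u →
    ¬ IsSquare (a * u) → ∀ B : Set (Pr K), B.Finite → ∃ v ∉ B, LS v a ∧ ¬ LS v u

/-- block TSET (uses Su, Lam, Inert): the auxiliary set of primes -/
def TsetStmt : Prop :=
  ∀ (K : Type) [Field K] [NumberField K], TS K ℝ → ∀ S : Set (Pr K), S.Finite →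
    (∀ v, Over 2 v → v ∈ S) → ∀ a ∈ US K S, ¬ IsSquare (a : K) →
    ∃ T : Set (Pr K), T.Finite ∧ Disjoint S T ∧ T.ncard + 1 = S.ncard + finrank ℚ K ∧
      (∀ v ∈ T, LS v (a : K)) ∧ ∀ I : Set (Pr K), ∃ u ∈ US K S, ∀ v ∈ T, (LS v (u : K) ↔ v ∈ I)

/-- block KEY (uses TsUp, Split, Unr, Sym, LemH) -/
def KeyStmt : Prop :=
  ∀ (K : Type) [Field K] [NumberField K], TS K ℝ → ∀ S T : Set (Pr K), S.Finite → T.Finite →
    Disjoint S T → (∀ v, Over 2 v → v ∈ S) → CL S →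
    (∀ I : Set (Pr K), ∃ u ∈ US K S, ∀ v ∈ T, (LS v (u : K) ↔ v ∈ I)) →
    ∀ c ∈ US K (S ∪ T), c ∈ LocE K ℝ → (∀ v ∈ S, LS v (c : K)) → IsSquare (c : K)

/-- block CNT (uses TsDown, Su, Loc, Sq, Lam): the count `2 ^ (2 s - 1)` against `4 ^ s` -/
def CntStmt : Prop :=
  ∀ (K : Type) [Field K] [NumberField K], TS K ℝ → TS K ℚ_[2] → ∀ S T P : Set (Pr K), S.Finite →
    T.Finite → Disjoint S T → (∀ v, Over 2 v → v ∈ S) → T.ncard + 1 = S.ncard + finrank ℚ K →
    (∀ c ∈ US K (S ∪ T), c ∈ LocE K ℝ → (∀ v ∈ S, LS v (c : K)) → IsSquare (c : K)) →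
    P ⊆ S → (∀ v ∈ P, ¬ Over 2 v) → 2 ^ P.ncard ≤ 2 * (EvOn K P).relIndex (US K (S ∪ T))

/-- block HNT (uses TsDown, Div, LemH, Split, Loc, Tset, Key, Cnt): Hasse norm theorem,
unramified quadratic case -/
def HntStmt : Prop :=
  ∀ (K M : Type) [Field K] [NumberField K] [Field M] [NumberField M] [Algebra K M]
    (a : K) (θ : M) (σ : M ≃ₐ[K] M), Quad a θ σ → TS M ℝ → TS M ℚ_[2] → UR K M →
    ∀ b : K, b ≠ 0 → (∀ w : Pr M, σ • w = w → Even (ord w (algebraMap K M b))) →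
    ∃ y : M, algebraMap K M b = y * σ y

/-- block GAL (uses TsDown, Hnt) -/
def GalStmt : Prop :=
  ∀ (K L : Type) [Field K] [NumberField K] [Field L] [NumberField L] [Algebra K L],
    IsGalois K L → UR K L → TS L ℝ → TS L ℚ_[2] → HNorm K L

/-- every `ZMod 2` valued cocycle splits in the multiplicative group -/
def Splits2 (K L : Type) [Field K] [Field L] [Algebra K L] : Prop :=
  ∀ c ∈ Z2 (L ≃ₐ[K] L), ∃ f : (L ≃ₐ[K] L) → Lˣ,
    ∀ g h, (f g : L) * g (f h) = (-1) ^ (c g h).val * f (g * h)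

/-- block EMB -/
def EmbStmt : Prop :=
  ∀ (K L : Type) [Field K] [NumberField K] [Field L] [NumberField L] [Algebra K L],
    IsGalois K L → IsPGroup 2 (L ≃ₐ[K] L) → HNorm K L → Splits2 K L

/-- block KUM (a): Kummer theory -/
def KumStmt : Prop :=
  ∀ (K L : Type) [Field K] [NumberField K] [Field L] [NumberField L] [Algebra K L],
    IsGalois K L → (square Kˣ).relIndex ((square Lˣ).comap (inc K L)) ≠ 0 ∧
      (square Kˣ).relIndex ((square Lˣ).comap (inc K L)) ≤ h1 (L ≃ₐ[K] L)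

/-- block KUM (b): second cohomology -/
def H2xStmt : Prop :=
  ∀ (K L : Type) [Field K] [NumberField K] [Field L] [NumberField L] [Algebra K L],
    IsGalois K L → Splits2 K L → ((inc K L).range ⊔ square Lˣ).relIndex (XG K L) ≠ 0 →
      h2 (L ≃ₐ[K] L) ≤ ((inc K L).range ⊔ square Lˣ).relIndex (XG K L)

/-- block BITS (uses TsDown, Sq) -/
def BitsStmt : Prop :=
  ∀ (K L : Type) [Field K] [NumberField K] [Field L] [NumberField L] [Algebra K L]
    (Q : Finset ℕ), IsGalois K L → (Loc L Q).relIndex (XG K L) ≠ 0 ∧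
      (Loc L Q).relIndex (XG K L) ≤ 8 ^ (finrank ℚ K * (Q.card + 1))

/-- block XCL (uses Cl2) -/
def XclStmt : Prop :=
  ∀ (K L : Type) [Field K] [NumberField K] [Field L] [NumberField L] [Algebra K L],
    IsGalois K L → UR K L → ∀ Λ : Subgroup Lˣ, Λ.relIndex (XG K L) ≠ 0 →
    (∀ x ∈ XG K L, x ∈ Λ → x ∈ Ev L → IsSquare (x : L)) → (square Kˣ).relIndex (Ev K) ≠ 0 →
    ((inc K L).range ⊔ square Lˣ).relIndex (XG K L) ≠ 0 ∧
      ((inc K L).range ⊔ square Lˣ).relIndex (XG K L) ≤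
        (square Kˣ).relIndex (Ev K) * Λ.relIndex (XG K L)

/-- block GS: Golod and Shafarevich inequality -/
def GsStmt : Prop :=
  ∀ (G : Type) [Group G] [Finite G], IsPGroup 2 G →
    ∃ d : ℕ, h1 G = 2 ^ d ∧ ∀ r : ℕ, h2 G ≤ 2 ^ r → d ^ 2 ≤ 4 * r

/-- block EXT (a) -/
def GalxStmt : Prop :=
  ∀ (K L N : Type) [Field K] [NumberField K] [Field L] [NumberField L] [Field N] [NumberField N]
    [Algebra K L] [Algebra L N] [Algebra K N] [IsScalarTower K L N] (x : Lˣ) (θ : N)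
    (σ : N ≃ₐ[L] N), IsGalois K L → Quad (x : L) θ σ → x ∈ XG K L → IsGalois K N

/-- block EXT (b) (uses TsUp, Split, Unr, Loc, Galx) -/
def ExtStmt : Prop :=
  ∀ (K L : Type) [Field K] [NumberField K] [Field L] [NumberField L] [Algebra K L]
    (Q : Finset ℕ), 2 ∈ Q → Good K L Q → ∀ x ∈ XG K L, x ∈ Loc L Q → x ∈ Ev L →
    ¬ IsSquare (x : L) → ∃ (N : Type) (_ : Field N) (_ : NumberField N) (_ : Algebra K N),
      Good K N Q ∧ finrank K N = 2 * finrank K L

/-- block BASE (uses Sq, TsUp) -/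
def BaseStmt : Prop :=
  ∀ t n : ℕ, ∃ C : ℕ, ∀ Q : Finset ℕ, Q.card ≤ t →
    ∃ (K : Type) (_ : Field K) (_ : NumberField K), finrank ℚ K = 2 ∧ (discr K).natAbs ≤ C ∧
      TS K ℝ ∧ (∀ (q : ℕ) [Fact q.Prime], q ∈ Q → TS K ℚ_[q]) ∧
      ((square Kˣ).relIndex (Ev K) ≠ 0 → 2 ^ n < (square Kˣ).relIndex (Ev K))

/-- block DISC (a) -/
def DiscStmt : Prop :=
  ∀ (K L : Type) [Field K] [NumberField K] [Field L] [NumberField L] [Algebra K L],
    UR K L → (discr L).natAbs = (discr K).natAbs ^ finrank K L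

/-- block DISC (b): discriminant of a quadratic step (for the users of the tower) -/
def DiscQStmt : Prop :=
  ∀ (K L : Type) [Field K] [NumberField K] [Field L] [NumberField L] [Algebra K L]
    (c : 𝓞 K) (θ : L) (σ : L ≃ₐ[K] L), Quad (c : K) θ σ →
    (discr L).natAbs ≤ (discr K).natAbs ^ 2 * (4 ^ finrank ℚ K * (Algebra.norm ℤ c).natAbs)

/-- the target: totally real fields of degree `2 ^ (k + 1)` and bounded root discriminant in which
any prescribed `t` primes split completely -/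
def TowerStmt : Prop :=
  ∀ t : ℕ, ∃ C : ℕ, ∀ Q : Finset ℕ, Q.card ≤ t → ∀ k : ℕ,
    ∃ (L : Type) (_ : Field L) (_ : NumberField L), finrank ℚ L = 2 ^ (k + 1) ∧
      (discr L).natAbs ≤ C ^ finrank ℚ L ∧ TS L ℝ ∧ ∀ (q : ℕ) [Fact q.Prime], q ∈ Q → TS L ℚ_[q]

end Pool.Agent.Lib.Tower
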