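import Pool.Agent.Lib.Tower.Blue

set_option autoImplicit false

open NumberField IsDedekindDomain WithZero Module Subgroup

namespace Pool.Agent.Lib.Tower

/-- block BASE, with the square root made explicit -/
def Base2Stmt : Prop :=
  ∀ t n : ℕ, ∃ C : ℕ, ∀ Q : Finset ℕ, Q.card ≤ t →
    ∃ (K : Type) (_ : Field K) (_ : NumberField K), finrank ℚ K = 2 ∧ (discr K).natAbs ≤ C ∧
      TS K ℝ ∧ (∀ (q : ℕ) [Fact q.Prime], q ∈ Q → TS K ℚ_[q]) ∧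
      ((square Kˣ).relIndex (Ev K) ≠ 0 → 2 ^ n < (square Kˣ).relIndex (Ev K)) ∧
      ∃ (m : ℕ) (μ : K), μ ^ 2 = m ∧ ¬ IsSquare m ∧ m ≤ C

/-- a totally split prime does not divide the discriminant -/
def NdvdStmt : Prop :=
  ∀ (K : Type) [Field K] [NumberField K] (q : ℕ) [Fact q.Prime], TS K ℚ_[q] → ¬ (q : ℤ) ∣ discr K

/-- the target in the form wanted by the users -/
def Tower2Stmt : Prop :=
  ∀ t : ℕ, ∃ C : ℕ, ∀ Q : Finset ℕ, Q.card ≤ t → ∀ k : ℕ,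
    ∃ (L : Type) (_ : Field L) (_ : NumberField L), finrank ℚ L = 2 ^ (k + 1) ∧
      (discr L).natAbs ≤ C ^ finrank ℚ L ∧ IsTotallyReal L ∧ ¬ (2 : ℤ) ∣ discr L ∧
      (∃ (m : ℕ) (μ : L), μ ^ 2 = m ∧ ¬ IsSquare m ∧ m ≤ C) ∧
      ∀ (q : ℕ) [Fact q.Prime], q ∈ Q → TS L ℚ_[q] ∧ Nonempty (L →+* ℚ_[q]) ∧
        ∀ P : Ideal (𝓞 L), P.IsPrime → (q : 𝓞 L) ∈ P → Ideal.absNorm P = q

end Pool.Agent.Lib.Tower
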