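import Pool.Agent.Lib.Tower.Blue

set_option autoImplicit false

open NumberField IsDedekindDomain WithZero Module Subgroup

namespace Pool.Agent.Lib.Tower

namespace CNT

/-- finite index at most `k` -/
def Bd {G : Type} [Group G] (H : Subgroup G) (k : ℕ) : Prop := H.index ≠ 0 ∧ H.index ≤ k

lemma Bd.mono {G : Type} [Group G] {H : Subgroup G} {k l : ℕ} (h : Bd H k) (hkl : k ≤ l) :
    Bd H l := ⟨h.1, h.2.trans hkl⟩

lemma Bd.inf {G : Type} [Group G] {H H' : Subgroup G} {k l : ℕ} (h : Bd H k) (h' : Bd H' l) :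
    Bd (H ⊓ H') (k * l) :=
  ⟨index_inf_ne_zero h.1 h'.1, index_inf_le.trans (Nat.mul_le_mul h.2 h'.2)⟩

lemma Bd.iInf {G ι : Type} [Group G] [Finite ι] (f : ι → Subgroup G) {k : ℕ}
    (h : ∀ i, Bd (f i) k) : Bd (⨅ i, f i) (k ^ Nat.card ι) := by
  classical
  let _ := Fintype.ofFinite ι
  refine ⟨index_iInf_ne_zero fun i => (h i).1, (index_iInf_le f).trans ?_⟩
  rw [Nat.card_eq_fintype_card, ← Finset.card_univ]
  exact Finset.prod_le_pow_card _ _ _ fun i _ => (h i).2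

lemma Bd.comap {G G' : Type} [Group G] [CommGroup G'] {H : Subgroup G'} {k : ℕ} (h : Bd H k)
    (f : G →* G') : Bd (H.comap f) k := by
  have hd : (H.comap f).index ∣ H.index := by
    rw [index_comap]; exact relIndex_dvd_index_of_normal H _
  exact ⟨fun h0 => h.1 (eq_zero_of_zero_dvd (h0 ▸ hd)),
    (Nat.le_of_dvd (Nat.pos_of_ne_zero h.1) hd).trans h.2⟩

lemma bd_ker {G : Type} [Group G] (f : G →* Multiplicative (ZMod 2)) : Bd f.ker 2 := by
  have h : Bd (⊥ : Subgroup (Multiplicative (ZMod 2))) 2 := by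
    have : (⊥ : Subgroup (Multiplicative (ZMod 2))).index = 2 := by
      rw [index_bot, Nat.card_eq_fintype_card, Fintype.card_multiplicative, ZMod.card]
    exact ⟨by rw [this]; norm_num, this.le⟩
  exact h.comap f

lemma bd_locE (K E : Type) [Field K] [NumberField K] [Field E] [Finite (K →+* E)]
    (hc : Nat.card (K →+* E) ≤ finrank ℚ K) {k : ℕ} (h : Bd (square Eˣ) k) :
    Bd (LocE K E) (k ^ finrank ℚ K) := by
  have he : LocE K E = ⨅ j : K →+* E, (square Eˣ).comap (Units.map (j : K →* E)) := by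
    ext x
    rw [mem_iInf]
    refine forall_congr' fun j => ?_
    rw [mem_comap, mem_square, isSquare_units_iff]
    rfl
  rw [he]
  have hk : 1 ≤ k := (Nat.pos_of_ne_zero h.1).trans_le h.2
  exact (Bd.iInf _ fun j => h.comap _).mono (Nat.pow_le_pow_right hk hc)

variable {K : Type} [Field K] [NumberField K]

/-- parity of the valuation -/
noncomputable def par (v : Pr K) : Kˣ →* Multiplicative (ZMod 2) where
  toFun x := Multiplicative.ofAdd ((ord v (x : K) : ℤ) : ZMod 2)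
  map_one' := by rw [Units.val_one, ord_one]; simp
  map_mul' x y := by
    rw [Units.val_mul, ord_mul v x.ne_zero y.ne_zero, Int.cast_add, ofAdd_add]

lemma par_eq_one (v : Pr K) (x : Kˣ) : par v x = 1 ↔ Even (ord v (x : K)) := by
  change Multiplicative.ofAdd ((ord v (x : K) : ℤ) : ZMod 2) = 1 ↔ _
  rw [ofAdd_eq_one, ZMod.intCast_zmod_eq_zero_iff_dvd, even_iff_two_dvd]
  rfl

lemma bd_evOn {A : Set (Pr K)} (hA : A.Finite) : Bd (EvOn K A) (2 ^ A.ncard) := by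
  have := hA.to_subtype
  have he : EvOn K A = ⨅ v : A, (par (v : Pr K)).ker := by
    ext x
    rw [mem_iInf, mem_EvOn, Subtype.forall]
    refine forall_congr' fun v => forall_congr' fun _ => ?_
    rw [MonoidHom.mem_ker, par_eq_one]
  rw [he, ← Nat.card_coe_set_eq]
  exact Bd.iInf _ fun v => bd_ker _

end CNT

open CNT in
theorem cnt (hTs : TsDownStmt) (hSu : SuStmt) (hLoc : LocStmt) (hSq : SqStmt) (hLam : LamStmt) :
    CntStmt := by
  intro K _ _ hR h2 S T P hS hT hST hD hcard hkey hP hPo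
  classical
  have : Fact (Nat.Prime 2) := ⟨Nat.prime_two⟩
  obtain ⟨hDn, hDl⟩ := hLoc K 2 h2
  set D : Set (Pr K) := {v | Over 2 v} with hDdef
  have hDS : D ⊆ S := fun v hv => hD v hv
  have hB : (S \ D).Finite := hS.subset Set.sdiff_subset
  have hPB : P ⊆ S \ D := fun v hv => ⟨hP hv, hPo v hv⟩
  have hA : ((S \ D) \ P).Finite := hB.subset Set.sdiff_subset
  have hPf : P.Finite := hS.subset hP
  have c1 : (S \ D).ncard + D.ncard = S.ncard := Set.ncard_sdiff_add_ncard_of_subset hDS hS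
  have c2 : ((S \ D) \ P).ncard + P.ncard = (S \ D).ncard :=
    Set.ncard_sdiff_add_ncard_of_subset hPB hB
  have c3 : (S ∪ T).ncard = S.ncard + T.ncard := Set.ncard_union_eq hST hS hT
  choose l hl using fun v : (S \ D : Set (Pr K)) => hLam K v.1 v.2.2
  have := hB.to_subtype
  obtain ⟨fR, cR, -⟩ := hTs K K ℝ
  obtain ⟨f2, c2', -⟩ := hTs K K ℚ_[2]
  have b1 : Bd (LocE K ℝ) (2 ^ finrank ℚ K) :=
    bd_locE K ℝ cR ⟨by rw [hSq.1]; norm_num, hSq.1.le⟩
  have b2 : Bd (LocE K ℚ_[2]) (8 ^ finrank ℚ K) := bd_locE K ℚ_[2] c2' (hSq.2 2)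
  have b3 := bd_evOn hA
  have b4 : Bd (⨅ v : (S \ D : Set (Pr K)), (l v).ker) (2 ^ (S \ D).ncard) := by
    rw [← Nat.card_coe_set_eq]
    exact Bd.iInf _ fun v => bd_ker _
  have b5 := ((b1.inf b2).inf b3).inf b4
  have b6 := bd_evOn hPf
  set Λ := LocE K ℝ ⊓ LocE K ℚ_[2] ⊓ EvOn K ((S \ D) \ P) ⊓
    ⨅ v : (S \ D : Set (Pr K)), (l v).ker with hΛ
  set U := US K (S ∪ T) with hU
  have hle : Λ ⊓ EvOn K P ⊓ U ≤ square Kˣ := by
    rintro x ⟨⟨⟨⟨⟨x1, x2⟩, x3⟩, x4⟩, x5⟩, x6⟩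
    rw [mem_square, isSquare_units_iff]
    refine hkey x x6 x1 fun v hv => ?_
    by_cases hv2 : Over 2 v
    · obtain ⟨-, -, j, -, hj⟩ := hDl v hv2
      exact hj _ x.ne_zero (x2 j)
    · refine (hl ⟨v, hv, hv2⟩ x).mpr ⟨?_, ?_⟩
      · by_cases hvP : v ∈ P
        · exact x5 v hvP
        · exact x3 v ⟨⟨hv, hv2⟩, hvP⟩
      · exact mem_iInf.mp x4 ⟨v, hv, hv2⟩
  have hne : (Λ ⊓ EvOn K P).relIndex U ≠ 0 := fun h =>
    (b5.inf b6).1 (index_eq_zero_of_relIndex_eq_zero h)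
  have h1 : (square Kˣ).relIndex U ≤ (Λ ⊓ EvOn K P).relIndex U := by
    rw [← inf_relIndex_right (Λ ⊓ EvOn K P) U] at hne ⊢
    exact relIndex_le_of_le_left hle hne
  rw [(hSu K hR (S ∪ T) (hS.union hT)).2.2, ← relIndex_inf_mul_relIndex] at h1
  have h3 : Λ.relIndex (EvOn K P ⊓ U) ≤ Λ.index :=
    Nat.le_of_dvd (Nat.pos_of_ne_zero b5.1) (relIndex_dvd_index_of_normal Λ _)
  have h4 := h1.trans (Nat.mul_le_mul_right _ (h3.trans b5.2))
  set r := (EvOn K P).relIndex U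
  set n := finrank ℚ K
  set a := ((S \ D) \ P).ncard
  set b := (S \ D).ncard
  have e1 : 2 ^ n * 8 ^ n * 2 ^ a * 2 ^ b = 2 ^ (4 * n + a + b) := by
    rw [show (8 : ℕ) = 2 ^ 3 by norm_num, ← pow_mul, ← pow_add, ← pow_add, ← pow_add]
    congr 1; ring
  rw [e1] at h4
  have e2 : (S ∪ T).ncard + n + 1 = 4 * n + a + b + P.ncard := by omega
  have h5 : 2 ^ (4 * n + a + b) * 2 ^ P.ncard ≤ 2 ^ (4 * n + a + b) * (2 * r) := by
    rw [← pow_add, ← e2, pow_succ]
    calc _ ≤ 2 ^ (4 * n + a + b) * r * 2 := Nat.mul_le_mul_right _ h4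
      _ = _ := by ring
  exact Nat.le_of_mul_le_mul_left h5 (by positivity)

end Pool.Agent.Lib.Tower
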