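import Pool.Agent.Lib.Tower.Act

set_option autoImplicit false

open NumberField IsDedekindDomain WithZero Module

namespace Pool.Agent.Lib.Tower
open Pool.Agent.Lib.helper22.Val

/-- finite primes -/
abbrev Pr (K : Type) [Field K] := HeightOneSpectrum (𝓞 K)

section Basic
variable {K : Type} [Field K] [NumberField K]

/-- additive valuation (`ord v 0 = 0`) -/
noncomputable def ord (v : Pr K) (x : K) : ℤ := -log (v.valuation K x)

/-- the prime `v` lies over the natural number `q` -/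
def Over (q : ℕ) (v : Pr K) : Prop := (q : 𝓞 K) ∈ v.asIdeal

/-- `x` is a square in the completion at `v` (Hensel form) -/
def LS (v : Pr K) (x : K) : Prop := ∃ y : K, v.valuation K (x / y ^ 2 - 1) < v.valuation K 4

lemma ord_mul (v : Pr K) {x y : K} (hx : x ≠ 0) (hy : y ≠ 0) :
    ord v (x * y) = ord v x + ord v y := by
  rw [ord, map_mul, log_mul (val_ne_zero hx) (val_ne_zero hy), ord, ord]; ring

lemma ord_zero (v : Pr K) : ord v (0 : K) = 0 := by simp [ord]

lemma ord_one (v : Pr K) : ord v (1 : K) = 0 := by simp [ord]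

lemma ord_neg (v : Pr K) (x : K) : ord v (-x) = ord v x := by simp [ord]

lemma ord_inv (v : Pr K) (x : K) : ord v x⁻¹ = -ord v x := by
  rw [ord, map_inv₀, log_inv, ord]

lemma ord_div (v : Pr K) {x y : K} (hx : x ≠ 0) (hy : y ≠ 0) :
    ord v (x / y) = ord v x - ord v y := by
  rw [div_eq_mul_inv, ord_mul v hx (inv_ne_zero hy), ord_inv, sub_eq_add_neg]

lemma ord_pow (v : Pr K) (x : K) (n : ℕ) : ord v (x ^ n) = n * ord v x := by
  rw [ord, map_pow, log_pow, nsmul_eq_mul, ord]; ring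

lemma ord_zpow (v : Pr K) (x : K) (n : ℤ) : ord v (x ^ n) = n * ord v x := by
  rw [ord, map_zpow₀, log_zpow, smul_eq_mul, ord]; ring

lemma val_eq_exp (v : Pr K) {x : K} (hx : x ≠ 0) : v.valuation K x = exp (-ord v x) := by
  rw [ord, neg_neg, exp_log (val_ne_zero hx)]

lemma ord_eq_zero_iff (v : Pr K) {x : K} (hx : x ≠ 0) : ord v x = 0 ↔ v.valuation K x = 1 := by
  rw [val_eq_exp v hx, ← exp_zero, exp_inj, neg_eq_zero]

lemma ord_pos_iff (v : Pr K) {x : K} (hx : x ≠ 0) : 0 < ord v x ↔ v.valuation K x < 1 := by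
  rw [val_eq_exp v hx, ← exp_zero, exp_lt_exp, neg_lt_zero]

lemma ord_nonneg_iff (v : Pr K) {x : K} (hx : x ≠ 0) : 0 ≤ ord v x ↔ v.valuation K x ≤ 1 := by
  rw [val_eq_exp v hx, ← exp_zero, exp_le_exp, neg_nonpos]

lemma ord_lt_iff (v : Pr K) {x y : K} (hx : x ≠ 0) (hy : y ≠ 0) :
    ord v x < ord v y ↔ v.valuation K y < v.valuation K x := by
  rw [val_eq_exp v hx, val_eq_exp v hy, exp_lt_exp, neg_lt_neg_iff]

lemma ord_le_iff (v : Pr K) {x y : K} (hx : x ≠ 0) (hy : y ≠ 0) :
    ord v x ≤ ord v y ↔ v.valuation K y ≤ v.valuation K x := by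
  rw [val_eq_exp v hx, val_eq_exp v hy, exp_le_exp, neg_le_neg_iff]

lemma exists_ord_eq_one (v : Pr K) : ∃ π : K, π ≠ 0 ∧ ord v π = 1 := by
  obtain ⟨π, hπ⟩ := v.valuation_exists_uniformizer K
  refine ⟨π, ?_, by rw [ord, hπ, log_exp, neg_neg]⟩
  rintro rfl
  rw [map_zero] at hπ
  exact exp_ne_zero hπ.symm

lemma finite_ord_ne_zero (x : K) : {v : Pr K | ord v x ≠ 0}.Finite := by
  rcases eq_or_ne x 0 with rfl | hx
  · simp [ord_zero]
  exact (finite_val_ne_one hx).subset fun v hv h => hv ((ord_eq_zero_iff v hx).mpr h)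

lemma ord_act {G : Type*} [Group G] [MulSemiringAction G K] (σ : G) (v : Pr K) (x : K) :
    ord (σ • v) (σ • x) = ord v x := by rw [ord, val_act, ord]

lemma over_iff (q : ℕ) (v : Pr K) : Over q v ↔ v.valuation K q < 1 :=
  (val_natCast_lt_iff v q).symm

lemma finite_over {q : ℕ} (hq : q ≠ 0) : {v : Pr K | Over q v}.Finite :=
  (finite_val_ne_one (a := (q : K)) (Nat.cast_ne_zero.mpr hq)).subset fun v hv =>
    ((over_iff q v).mp hv).ne

lemma val_four_le (v : Pr K) : v.valuation K 4 ≤ 1 := by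
  simpa using val_natCast_le v 4

lemma val_two_eq_one {v : Pr K} (hv : ¬ Over 2 v) : v.valuation K 2 = 1 := by
  have h := val_natCast_le v 2
  rw [over_iff, not_lt] at hv
  simpa using le_antisymm h hv

lemma val_four_eq_one {v : Pr K} (hv : ¬ Over 2 v) : v.valuation K 4 = 1 := by
  rw [show (4 : K) = 2 * 2 by norm_num, map_mul, val_two_eq_one hv, mul_one]

lemma LS.ne_zero {v : Pr K} {x : K} (h : LS v x) : x ≠ 0 := by
  rintro rfl
  obtain ⟨y, hy⟩ := h
  rw [zero_div, zero_sub, Valuation.map_neg, map_one] at hy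
  exact absurd (val_four_le v) (not_le.mpr hy)

lemma LS.of_isSquare (v : Pr K) {x : K} (hx : x ≠ 0) (h : IsSquare x) : LS v x := by
  obtain ⟨y, rfl⟩ := h
  refine ⟨y, ?_⟩
  rw [← sq, div_self (by rwa [sq]), sub_self, map_zero]
  exact zero_lt_iff.mpr (val_ne_zero (by norm_num))

variable (K) in
/-- `S`-units -/
def US (S : Set (Pr K)) : Subgroup Kˣ where
  carrier := {x | ∀ v ∉ S, ord v (x : K) = 0}
  one_mem' := fun v _ => ord_one v
  mul_mem' := fun {a b} ha hb v hv => by
    rw [Units.val_mul, ord_mul v a.ne_zero b.ne_zero, ha v hv, hb v hv, add_zero]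
  inv_mem' := fun {a} ha v hv => by rw [Units.val_inv_eq_inv_val, ord_inv, ha v hv, neg_zero]

lemma mem_US {S : Set (Pr K)} {x : Kˣ} : x ∈ US K S ↔ ∀ v ∉ S, ord v (x : K) = 0 := Iff.rfl

variable (K) in
/-- elements with even valuation everywhere -/
def Ev : Subgroup Kˣ where
  carrier := {x | ∀ v : Pr K, Even (ord v (x : K))}
  one_mem' := fun v => by rw [Units.val_one, ord_one]; exact Even.zero
  mul_mem' := fun {a b} ha hb v => by
    rw [Units.val_mul, ord_mul v a.ne_zero b.ne_zero]; exact (ha v).add (hb v)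
  inv_mem' := fun {a} ha v => by rw [Units.val_inv_eq_inv_val, ord_inv]; exact (ha v).neg

lemma mem_Ev {x : Kˣ} : x ∈ Ev K ↔ ∀ v : Pr K, Even (ord v (x : K)) := Iff.rfl

variable (K) in
/-- elements with even valuation on `P` -/
def EvOn (P : Set (Pr K)) : Subgroup Kˣ where
  carrier := {x | ∀ v ∈ P, Even (ord v (x : K))}
  one_mem' := fun v _ => by rw [Units.val_one, ord_one]; exact Even.zero
  mul_mem' := fun {a b} ha hb v hv => by
    rw [Units.val_mul, ord_mul v a.ne_zero b.ne_zero]; exact (ha v hv).add (hb v hv)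
  inv_mem' := fun {a} ha v hv => by rw [Units.val_inv_eq_inv_val, ord_inv]; exact (ha v hv).neg

lemma mem_EvOn {P : Set (Pr K)} {x : Kˣ} : x ∈ EvOn K P ↔ ∀ v ∈ P, Even (ord v (x : K)) := Iff.rfl

/-- every divisor is principal outside `S` -/
def CL (S : Set (Pr K)) : Prop :=
  ∀ c : Pr K →₀ ℤ, ∃ x : Kˣ, ∀ v ∉ S, ord v (x : K) = c v

lemma CL.mono {S T : Set (Pr K)} (h : CL S) (hST : S ⊆ T) : CL T := fun c =>
  (h c).imp fun _ hx v hv => hx v fun h' => hv (hST h')

omit [NumberField K] in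
lemma isSquare_units_iff (x : Kˣ) : IsSquare x ↔ IsSquare (x : K) := by
  refine ⟨fun ⟨y, h⟩ => ⟨y, by rw [h, Units.val_mul]⟩, fun ⟨y, h⟩ => ?_⟩
  have hy : y ≠ 0 := by rintro rfl; simp at h
  exact ⟨Units.mk0 y hy, Units.ext h⟩

end Basic

/-- `K` has the maximal number of embeddings in `E` -/
def TS (K E : Type) [Field K] [NumberField K] [Field E] : Prop :=
  finrank ℚ K ≤ Nat.card (K →+* E)

/-- elements that are squares under every embedding in `E` -/
def LocE (L E : Type) [Field L] [Field E] : Subgroup Lˣ where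
  carrier := {x | ∀ j : L →+* E, IsSquare (j (x : L))}
  one_mem' := fun j => by simp
  mul_mem' := fun {a b} ha hb j => by rw [Units.val_mul, map_mul]; exact (ha j).mul (hb j)
  inv_mem' := fun {a} ha j => by rw [Units.val_inv_eq_inv_val, map_inv₀]; exact (ha j).inv

/-- elements that are squares under every embedding in `ℝ` and in `ℚ_[q]`, `q ∈ Q` -/
def Loc (L : Type) [Field L] (Q : Finset ℕ) : Subgroup Lˣ where
  carrier := {x | x ∈ LocE L ℝ ∧ ∀ (q : ℕ) [Fact q.Prime], q ∈ Q → x ∈ LocE L ℚ_[q]}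
  one_mem' := ⟨one_mem _, fun _ _ _ => one_mem _⟩
  mul_mem' := fun ha hb => ⟨mul_mem ha.1 hb.1, fun q _ hq => mul_mem (ha.2 q hq) (hb.2 q hq)⟩
  inv_mem' := fun ha => ⟨inv_mem ha.1, fun q _ hq => inv_mem (ha.2 q hq)⟩

section Ext
variable (K L : Type) [Field K] [Field L] [Algebra K L]

/-- the inclusion of unit groups -/
def inc : Kˣ →* Lˣ := Units.map (algebraMap K L : K →* L)

@[simp] lemma coe_inc (x : Kˣ) : ((inc K L x : Lˣ) : L) = algebraMap K L x := rfl

/-- elements whose class modulo squares is Galois invariant -/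
def XG : Subgroup Lˣ where
  carrier := {x | ∀ σ : L ≃ₐ[K] L, IsSquare (σ (x : L) / x)}
  one_mem' := fun σ => by simp
  mul_mem' := fun {a b} ha hb σ => by
    rw [Units.val_mul, map_mul, mul_div_mul_comm]; exact (ha σ).mul (hb σ)
  inv_mem' := fun {a} ha σ => by
    rw [Units.val_inv_eq_inv_val, map_inv₀, inv_div_inv, ← inv_div]; exact (ha σ).inv

variable {L} in
/-- ramification index one at `w` -/
def URat [NumberField K] [NumberField L] (w : Pr L) : Prop :=
  ∀ x : K, ord w (algebraMap K L x) = ord (w.under (𝓞 K)) x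

/-- unramified at all finite primes -/
def UR [NumberField K] [NumberField L] : Prop := ∀ w : Pr L, URat K w

variable {K} in
/-- the primes above a set of primes -/
def above (S : Set (Pr K)) : Set (Pr L) := {w | w.under (𝓞 K) ∈ S}

variable {K L} in
/-- norms of `S`-units from a quadratic extension with automorphism `σ` -/
def NmS [NumberField L] (σ : L ≃ₐ[K] L) (S : Set (Pr K)) : Subgroup Kˣ where
  carrier := {x | ∃ y ∈ US L (above L S), algebraMap K L x = y * σ y}
  one_mem' := ⟨1, one_mem _, by simp⟩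
  mul_mem' := fun ⟨y, hy, h⟩ ⟨z, hz, h'⟩ => ⟨y * z, mul_mem hy hz, by
    rw [Units.val_mul, map_mul, h, h', Units.val_mul, map_mul]; ring⟩
  inv_mem' := fun ⟨y, hy, h⟩ => ⟨y⁻¹, inv_mem hy, by
    rw [Units.val_inv_eq_inv_val, map_inv₀, h, Units.val_inv_eq_inv_val, map_inv₀, mul_inv]⟩

/-- norm property for all index two steps `H < H ⟨σ⟩` in the Galois group -/
def HNorm [NumberField L] : Prop :=
  ∀ (H : Subgroup (L ≃ₐ[K] L)) (σ : L ≃ₐ[K] L), σ ∉ H → σ * σ ∈ H →
    (∀ h ∈ H, σ * h * σ⁻¹ ∈ H) → ∀ b : L, b ≠ 0 → (∀ h ∈ H, h b = b) → σ b = b →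
    (∀ w : Pr L, ∀ h ∈ H, (h * σ) • w = w → Even (ord w b)) →
    ∃ y : L, (∀ h ∈ H, h y = y) ∧ b = y * σ y

/-- members of the tower -/
structure Good [NumberField K] [NumberField L] (Q : Finset ℕ) : Prop where
  gal : IsGalois K L
  two : IsPGroup 2 (L ≃ₐ[K] L)
  ur : UR K L
  real : TS L ℝ
  padic : ∀ (q : ℕ) [Fact q.Prime], q ∈ Q → TS L ℚ_[q]

variable {K L} in
/-- `L = K (θ)`, `θ ^ 2 = c`, `σ` the conjugation -/
structure Quad (c : K) (θ : L) (σ : L ≃ₐ[K] L) : Prop where
  sq : θ ^ 2 = algebraMap K L c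
  ne : θ ≠ 0
  conj : σ θ = -θ
  span : ∀ y : L, ∃ α β : K, y = algebraMap K L α + algebraMap K L β * θ

end Ext

section Coc
variable (G : Type) [Group G]

/-- two-cocycles with values in `ZMod 2` -/
def Z2 : AddSubgroup (G → G → ZMod 2) where
  carrier := {c | ∀ g h k, c h k + c g (h * k) = c (g * h) k + c g h}
  zero_mem' := fun _ _ _ => rfl
  add_mem' := fun {a b} ha hb g h k => by
    simp only [Pi.add_apply]; linear_combination ha g h k + hb g h k
  neg_mem' := fun {a} ha g h k => by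
    simp only [Pi.neg_apply]; linear_combination -ha g h k

/-- two-coboundaries -/
def B2 : AddSubgroup (G → G → ZMod 2) where
  carrier := {c | ∃ φ : G → ZMod 2, ∀ g h, c g h = φ g + φ h - φ (g * h)}
  zero_mem' := ⟨0, fun _ _ => by simp⟩
  add_mem' := fun ⟨φ, h⟩ ⟨ψ, h'⟩ => ⟨φ + ψ, fun g k => by
    simp only [Pi.add_apply, h, h']; ring⟩
  neg_mem' := fun ⟨φ, h⟩ => ⟨-φ, fun g k => by simp only [Pi.neg_apply, h]; ring⟩

/-- order of the first cohomology -/
noncomputable def h1 : ℕ := Nat.card (G →* Multiplicative (ZMod 2))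

/-- order of the second cohomology -/
noncomputable def h2 : ℕ := (B2 G).relIndex (Z2 G)

end Coc

end Pool.Agent.Lib.Tower
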