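import Pool.Agent.Lib.Tower.Blue

set_option autoImplicit false

open NumberField IsDedekindDomain WithZero Module Subgroup

namespace Pool.Agent.Lib.Tower

namespace Emb

section Abstract

variable {G A E : Type*} [Group G] [CommGroup A] [Group E] [MulDistribMulAction G A]

/-- An extension of `G` by the `G`-module `A`. -/
structure IsExt (π : E →* G) (ι : A →* E) : Prop where
  conj : ∀ e x, e * ι x = ι (π e • x) * e
  ker : ∀ e, π e = 1 → ∃ x, ι x = e
  zero : ∀ x, π (ι x) = 1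
  inj : Function.Injective ι
  surj : Function.Surjective π

/-- A multiplicative section over the subgroup `H`. -/
def Sec (π : E →* G) (H : Subgroup G) (s : G → E) : Prop :=
  (∀ h ∈ H, π (s h) = h) ∧ ∀ h ∈ H, ∀ h' ∈ H, s (h * h') = s h * s h'

variable {π : E →* G} {ι : A →* E} {H : Subgroup G} {s : G → E}

lemma IsExt.diff (X : IsExt π ι) {e e' : E} (h : π e = π e') : ∃ x, e = ι x * e' := by
  obtain ⟨x, hx⟩ := X.ker (e * e'⁻¹) (by rw [map_mul, map_inv, h, mul_inv_cancel])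
  exact ⟨x, by rw [hx, inv_mul_cancel_right]⟩

lemma Sec.one (hs : Sec π H s) : s 1 = 1 := by
  have := hs.2 1 (one_mem H) 1 (one_mem H)
  rw [mul_one] at this
  exact left_eq_mul.1 this

lemma Sec.pow (hs : Sec π H s) {h : G} (hh : h ∈ H) (n : ℕ) : s (h ^ n) = s h ^ n := by
  induction n with
  | zero => rw [pow_zero, pow_zero, hs.one]
  | succ n ih => rw [pow_succ, hs.2 _ (pow_mem hh n) _ hh, ih, pow_succ]

lemma Sec.fin [Finite G] (hs : Sec π H s) {h : G} (hh : h ∈ H) : IsOfFinOrder (s h) :=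
  isOfFinOrder_iff_pow_eq_one.2 ⟨Nat.card G, Nat.card_pos, by
    rw [← hs.pow hh, pow_card_eq_one', hs.one]⟩

/-- a lift of `σ` that normalises the section -/
lemma exists_lift (X : IsExt π ι) (hs : Sec π H s) {σ : G} (hn : ∀ h ∈ H, σ⁻¹ * h * σ ∈ H)
    (h90 : ∀ a : G → A, (∀ h ∈ H, ∀ h' ∈ H, a (h * h') = a h * h • a h') →
      ∃ β : A, ∀ h ∈ H, a h * β = h • β) :
    ∃ t : E, π t = σ ∧ ∀ h ∈ H, t * s (σ⁻¹ * h * σ) = s h * t := by
  obtain ⟨t, ht⟩ := X.surj σ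
  have h1 : ∀ h, ∃ x, h ∈ H → t * s (σ⁻¹ * h * σ) * t⁻¹ = ι x * s h := fun h => by
    by_cases hh : h ∈ H
    · obtain ⟨x, hx⟩ := X.diff (e := t * s (σ⁻¹ * h * σ) * t⁻¹) (e' := s h) (by
        rw [map_mul, map_mul, map_inv, ht, hs.1 _ (hn h hh), hs.1 h hh]; group)
      exact ⟨x, fun _ => hx⟩
    · exact ⟨1, fun h => absurd h hh⟩
  choose a ha using h1
  obtain ⟨β, hβ⟩ := h90 a fun h hh h' hh' => by
    apply X.inj
    apply mul_right_cancel (b := s (h * h'))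
    rw [← ha _ (mul_mem hh hh'), show σ⁻¹ * (h * h') * σ = σ⁻¹ * h * σ * (σ⁻¹ * h' * σ) by group,
      hs.2 _ (hn h hh) _ (hn h' hh'), hs.2 h hh h' hh', map_mul]
    have e1 := X.conj (s h) (a h')
    rw [hs.1 h hh] at e1
    calc t * (s (σ⁻¹ * h * σ) * s (σ⁻¹ * h' * σ)) * t⁻¹
        = t * s (σ⁻¹ * h * σ) * t⁻¹ * (t * s (σ⁻¹ * h' * σ) * t⁻¹) := by group
      _ = ι (a h) * (s h * ι (a h')) * s h' := by rw [ha h hh, ha h' hh']; group
      _ = _ := by rw [e1]; group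
  refine ⟨ι β * t, by rw [map_mul, X.zero, one_mul, ht], fun h hh => ?_⟩
  have e1 := X.conj (s h) β
  rw [hs.1 h hh, ← hβ h hh, mul_comm (a h), map_mul] at e1
  calc ι β * t * s (σ⁻¹ * h * σ) = ι β * (t * s (σ⁻¹ * h * σ) * t⁻¹) * t := by group
    _ = ι β * ι (a h) * s h * t := by rw [ha h hh]; group
    _ = _ := by rw [← e1]; group

/-- gluing a section with a lift of `σ` -/
lemma glue (hs : Sec π H s) {H' : Subgroup G} {σ : G} (hle : H ≤ H') (hσ : σ ∈ H') (hσ' : σ ∉ H)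
    (h2 : ∀ a ∈ H', ∀ b ∈ H', (a * b ∈ H ↔ (a ∈ H ↔ b ∈ H))) {t : E} (ht : π t = σ)
    (hc : ∀ h ∈ H, t * s (σ⁻¹ * h * σ) = s h * t) (hq : t * t = s (σ * σ)) :
    ∃ s' : G → E, Sec π H' s' := by
  classical
  have hi : σ⁻¹ ∉ H := fun h => hσ' (by simpa using inv_mem h)
  have m1 : ∀ g ∈ H', g ∉ H → g * σ⁻¹ ∈ H := fun g hg hg' =>
    (h2 g hg _ (inv_mem hσ)).2 (iff_of_false hg' hi)
  have m2 : ∀ g ∈ H', g ∉ H → σ * g ∈ H := fun g hg hg' =>
    (h2 σ hσ g hg).2 (iff_of_false hσ' hg')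
  have m3 : ∀ h ∈ H, σ * h * σ⁻¹ ∈ H := fun h hh =>
    m1 _ (mul_mem hσ (hle hh)) fun h' => hσ' ((mul_mem_cancel_right hh).1 h')
  have hc' : ∀ h ∈ H, t * s h = s (σ * h * σ⁻¹) * t := fun h hh => by
    rw [← hc _ (m3 h hh)]; congr 2; group
  refine ⟨fun g => if g ∈ H then s g else s (g * σ⁻¹) * t, fun g hg => ?_, fun g hg g' hg' => ?_⟩
  · dsimp only
    split_ifs with h
    · exact hs.1 g h
    · rw [map_mul, hs.1 _ (m1 g hg h), ht, inv_mul_cancel_right]
  · dsimp only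
    by_cases h : g ∈ H <;> by_cases h' : g' ∈ H
    · rw [if_pos h, if_pos h', if_pos (mul_mem h h'), hs.2 g h g' h']
    · rw [if_pos h, if_neg h', if_neg fun h1 => h' ((mul_mem_cancel_left h).1 h1), mul_assoc,
        hs.2 g h _ (m1 g' hg' h'), mul_assoc]
    · rw [if_neg h, if_pos h', if_neg fun h1 => h ((mul_mem_cancel_right h').1 h1), mul_assoc (s _),
        hc' g' h', ← mul_assoc, ← hs.2 _ (m1 g hg h) _ (m3 g' h')]
      congr 2; group
    · rw [if_neg h, if_neg h', if_pos ((h2 g hg g' hg').2 (iff_of_false h h'))]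
      calc s (g * g') = s (g * σ⁻¹ * (σ * (g' * σ⁻¹) * σ⁻¹) * (σ * σ)) := by congr 1; group
        _ = s (g * σ⁻¹) * (s (σ * (g' * σ⁻¹) * σ⁻¹) * t) * t := by
          rw [hs.2 _ (mul_mem (m1 g hg h) (m3 _ (m1 g' hg' h'))) _ (m2 σ hσ hσ'),
            hs.2 _ (m1 g hg h) _ (m3 _ (m1 g' hg' h')), ← hq]; group
        _ = _ := by rw [← hc' _ (m1 g' hg' h')]; group

lemma step [Finite G] (X : IsExt π ι) (hs : Sec π H s) {H' : Subgroup G} {σ : G} (hle : H ≤ H')
    (hσ : σ ∈ H') (hσ' : σ ∉ H) (h2 : ∀ a ∈ H', ∀ b ∈ H', (a * b ∈ H ↔ (a ∈ H ↔ b ∈ H)))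
    (h90 : ∀ a : G → A, (∀ h ∈ H, ∀ h' ∈ H, a (h * h') = a h * h • a h') →
      ∃ β : A, ∀ h ∈ H, a h * β = h • β)
    (hN : σ * σ ∈ H → (∀ h ∈ H, σ * h * σ⁻¹ ∈ H) → ∀ b : A, (∀ h ∈ H, h • b = b) → σ • b = b →
      (∀ h ∈ H, ∃ u e : E, π u = h * σ ∧ IsOfFinOrder e ∧ u * u = ι b * e) →
      ∃ y : A, (∀ h ∈ H, h • y = y) ∧ b = y * σ • y) :
    ∃ s' : G → E, Sec π H' s' := by
  have hi : σ⁻¹ ∉ H := fun h => hσ' (by simpa using inv_mem h)
  have m0 : σ * σ ∈ H := (h2 σ hσ σ hσ).2 Iff.rfl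
  have m3 : ∀ h ∈ H, σ * h * σ⁻¹ ∈ H := fun h hh =>
    (h2 _ (mul_mem hσ (hle hh)) _ (inv_mem hσ)).2
      (iff_of_false (fun h' => hσ' ((mul_mem_cancel_right hh).1 h')) hi)
  have m4 : ∀ h ∈ H, σ⁻¹ * h * σ ∈ H := fun h hh =>
    (h2 _ (mul_mem (inv_mem hσ) (hle hh)) _ hσ).2
      (iff_of_false (fun h' => hi ((mul_mem_cancel_right hh).1 h')) hσ')
  obtain ⟨t, ht, hc⟩ := exists_lift X hs m4 h90
  have hc' : ∀ h ∈ H, t * s h = s (σ * h * σ⁻¹) * t := fun h hh => by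
    rw [← hc _ (m3 h hh)]; congr 2; group
  obtain ⟨b, hb⟩ := X.diff (e := t * t) (e' := s (σ * σ)) (by rw [map_mul, ht, hs.1 _ m0])
  have cs : ∀ h ∈ H, ∀ x, s h * ι x = ι (h • x) * s h := fun h hh x => by
    rw [X.conj, hs.1 h hh]
  have f1 : ∀ h ∈ H, h • b = b := fun h hh => by
    have k1 := m4 _ (m4 h hh)
    apply X.inj
    apply mul_right_cancel (b := s h * s (σ * σ))
    calc ι (h • b) * (s h * s (σ * σ)) = s h * (t * t) := by
          rw [hb, ← mul_assoc, ← cs h hh, mul_assoc]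
      _ = t * t * s (σ⁻¹ * (σ⁻¹ * h * σ) * σ) := by
          rw [mul_assoc t t, hc _ (m4 h hh), ← mul_assoc t, hc h hh, mul_assoc]
      _ = _ := by
          rw [hb, mul_assoc, ← hs.2 _ m0 _ k1, ← hs.2 h hh _ m0]; congr 2; group
  have f2 : σ • b = b := by
    have k1 := hc' _ m0
    rw [show σ * (σ * σ) * σ⁻¹ = σ * σ by group] at k1
    apply X.inj
    apply mul_right_cancel (b := s (σ * σ) * t)
    calc ι (σ • b) * (s (σ * σ) * t) = t * (t * t) := by
          rw [hb, ← mul_assoc t, X.conj t, ht, ← k1, mul_assoc]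
      _ = _ := by rw [← mul_assoc t, hb, mul_assoc]
  obtain ⟨y, hy, hy'⟩ := hN m0 m3 b f1 f2 fun h hh => by
    have k1 := mul_mem (mul_mem hh (m3 h hh)) m0
    refine ⟨s h * t, s (h * (σ * h * σ⁻¹) * (σ * σ)), by rw [map_mul, hs.1 h hh, ht], hs.fin k1, ?_⟩
    calc s h * t * (s h * t) = s h * (t * s h) * t := by group
      _ = s (h * (σ * h * σ⁻¹)) * ι b * s (σ * σ) := by
          rw [hc' h hh, hs.2 h hh _ (m3 h hh), mul_assoc _ (ι b), ← hb]; group
      _ = _ := by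
          rw [cs _ (mul_mem hh (m3 h hh)), f1 _ (mul_mem hh (m3 h hh)), mul_assoc,
            ← hs.2 _ (mul_mem hh (m3 h hh)) _ m0]
  refine glue hs hle hσ hσ' h2 (t := ι y⁻¹ * t) (by rw [map_mul, X.zero, one_mul, ht])
    (fun h hh => ?_) ?_
  · rw [mul_assoc, hc h hh, ← mul_assoc, ← mul_assoc, cs h hh, smul_inv', hy h hh]
  · calc ι y⁻¹ * t * (ι y⁻¹ * t) = ι y⁻¹ * (t * ι y⁻¹) * t := by group
      _ = ι (y⁻¹ * σ • y⁻¹ * b) * s (σ * σ) := by
          rw [X.conj t, ht, map_mul, map_mul, mul_assoc _ (ι b), ← hb]; group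
      _ = _ := by rw [hy', smul_inv', ← mul_inv, inv_mul_cancel, map_one, one_mul]

lemma chain [Finite G] (hG : IsPGroup 2 G) (P : Subgroup G → Prop) (h0 : P ⊥)
    (h1 : ∀ (H H' : Subgroup G) (σ : G), H ≤ H' → σ ∈ H' → σ ∉ H →
      (∀ a ∈ H', ∀ b ∈ H', (a * b ∈ H ↔ (a ∈ H ↔ b ∈ H))) → P H → P H') : P ⊤ := by
  obtain ⟨N, hN⟩ := IsPGroup.iff_card.1 hG
  have key : ∀ n ≤ N, ∃ H : Subgroup G, Nat.card H = 2 ^ n ∧ P H := fun n hn => by
    induction n with
    | zero => exact ⟨⊥, by simp, h0⟩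
    | succ n ih =>
      obtain ⟨H, hH, hP⟩ := ih (by omega)
      obtain ⟨H', hH', hle⟩ := Sylow.exists_subgroup_card_pow_succ (p := 2)
        (hN ▸ pow_dvd_pow 2 hn) hH
      have h2 : H.relIndex H' = 2 := by
        have h3 := (H.subgroupOf H').card_mul_index
        rw [Nat.card_congr (subgroupOfEquivOfLe hle).toEquiv, hH, hH', pow_succ] at h3
        exact Nat.eq_of_mul_eq_mul_left (by positivity) h3
      obtain ⟨σ, h3, h4, -⟩ := relIndex_eq_two_iff_exists_notMem_and.1 h2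
      exact ⟨H', hH', h1 H H' σ hle h3 h4 (fun a ha b hb =>
        mul_mem_iff_of_index_two (H := H.subgroupOf H') h2 (a := ⟨a, ha⟩) (b := ⟨b, hb⟩)) hP⟩
  obtain ⟨H, hH, hP⟩ := key N le_rfl
  rwa [eq_top_of_card_eq H (hH.trans hN.symm)] at hP

end Abstract

section Concrete

variable {K L : Type} [Field K] [Field L] [Algebra K L]

lemma h90 [Finite (L ≃ₐ[K] L)] (H : Subgroup (L ≃ₐ[K] L)) (a : (L ≃ₐ[K] L) → Lˣ)
    (ha : ∀ h ∈ H, ∀ h' ∈ H, a (h * h') = a h * h • a h') :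
    ∃ β : Lˣ, ∀ h ∈ H, a h * β = h • β := by
  classical
  have := Fintype.ofFinite H
  have li : LinearIndependent L (fun f : H => ((f : L ≃ₐ[K] L) : L → L)) :=
    LinearIndependent.comp (ι' := H) (linearIndependent_monoidHom L L)
      (fun f => ((f : L ≃ₐ[K] L) : L →* L))
      (fun x y h => by ext z; exact DFunLike.ext_iff.1 h z)
  have h1 : ∃ z : L, ∑ h : H, (a h : L) * (h : L ≃ₐ[K] L) z ≠ 0 := by
    by_contra hc
    push Not at hc
    exact (a (1 : H)).ne_zero (Fintype.linearIndependent_iff.1 li (fun h => (a h : L))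
      (funext fun z => by simpa using hc z) 1)
  obtain ⟨z, hz⟩ := h1
  refine ⟨(Units.mk0 _ hz)⁻¹, fun g hg => ?_⟩
  rw [smul_inv', mul_inv_eq_iff_eq_mul, eq_inv_mul_iff_mul_eq]
  ext
  simp only [Units.val_mul, AlgEquiv.smul_units_def, Units.coe_map, MonoidHom.coe_coe,
    Units.val_mk0, map_sum, map_mul, Finset.sum_mul]
  refine Fintype.sum_bijective (fun i : H => (⟨g, hg⟩ : H) * i) (Group.mulLeft_bijective _) _ _
    fun i => ?_
  have := congrArg Units.val (ha g hg i i.2)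
  simp only [Units.val_mul, AlgEquiv.smul_units_def, Units.coe_map, MonoidHom.coe_coe] at this
  simp only [Subgroup.coe_mul, this, AlgEquiv.mul_apply]
  ring

/-- the sign attached to a residue modulo two -/
def sg (L : Type) [Field L] (a : ZMod 2) : Lˣ := (-1) ^ a.val

lemma sg_add (a b : ZMod 2) : sg L (a + b) = sg L a * sg L b := by
  have h : ∀ a : ZMod 2, a = 0 ∨ a = 1 := by decide
  have h1 : (1 : ZMod 2).val = 1 := rfl
  have h2 : (1 + 1 : ZMod 2) = 0 := rfl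
  rcases h a with rfl | rfl <;> rcases h b with rfl | rfl <;> simp [sg, h1, h2]

lemma smul_sg (g : L ≃ₐ[K] L) (a : ZMod 2) : g • sg L a = sg L a := by
  ext; simp [sg]

lemma sg_sq (a : ZMod 2) : sg L a * sg L a = 1 := by
  rw [← sg_add, CharTwo.add_self_eq_zero]; simp [sg]

/-- the extension defined by a cocycle -/
@[ext] structure Ex (c : Z2 (L ≃ₐ[K] L)) where
  x : Lˣ
  g : L ≃ₐ[K] L

variable {c : Z2 (L ≃ₐ[K] L)}

lemma c_one_left (c : Z2 (L ≃ₐ[K] L)) (g : L ≃ₐ[K] L) : c.1 1 g = c.1 1 1 := by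
  have := c.2 1 1 g
  simp only [mul_one, one_mul] at this
  exact add_left_cancel this

lemma c_one_right (c : Z2 (L ≃ₐ[K] L)) (g : L ≃ₐ[K] L) : c.1 g 1 = c.1 1 1 := by
  have := c.2 g 1 1
  simp only [mul_one] at this
  exact (add_right_cancel this).symm

instance : Mul (Ex c) := ⟨fun a b => ⟨a.x * a.g • b.x * sg L (c.1 a.g b.g), a.g * b.g⟩⟩
instance : One (Ex c) := ⟨⟨sg L (c.1 1 1), 1⟩⟩
instance : Inv (Ex c) :=
  ⟨fun a => ⟨(a.g⁻¹ • a.x)⁻¹ * sg L (c.1 a.g⁻¹ a.g) * sg L (c.1 1 1), a.g⁻¹⟩⟩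

lemma mul_x (a b : Ex c) : (a * b).x = a.x * a.g • b.x * sg L (c.1 a.g b.g) := rfl
lemma mul_g (a b : Ex c) : (a * b).g = a.g * b.g := rfl
lemma one_x : (1 : Ex c).x = sg L (c.1 1 1) := rfl
lemma one_g : (1 : Ex c).g = 1 := rfl

instance : Group (Ex c) := Group.ofLeftAxioms
  (fun a b d => Ex.ext (by
      have := congrArg (sg L) (c.2 a.g b.g d.g)
      rw [sg_add, sg_add] at this
      simp only [mul_x, mul_g, smul_mul', smul_sg, mul_smul]
      calc _ = a.x * a.g • b.x * a.g • b.g • d.x *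
            (sg L (c.1 (a.g * b.g) d.g) * sg L (c.1 a.g b.g)) := by ac_rfl
        _ = _ := by rw [← this]; ac_rfl) (mul_assoc _ _ _))
  (fun a => Ex.ext (by
      rw [mul_x, one_x, one_g, one_smul, c_one_left c a.g, mul_right_comm, sg_sq, one_mul]) (one_mul _))
  (fun a => Ex.ext (by
      change (a.g⁻¹ • a.x)⁻¹ * sg L (c.1 a.g⁻¹ a.g) * sg L (c.1 1 1) * a.g⁻¹ • a.x *
        sg L (c.1 a.g⁻¹ a.g) = sg L (c.1 1 1)
      calc _ = (a.g⁻¹ • a.x)⁻¹ * a.g⁻¹ • a.x * (sg L (c.1 a.g⁻¹ a.g) * sg L (c.1 a.g⁻¹ a.g)) *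
            sg L (c.1 1 1) := by ac_rfl
        _ = _ := by rw [sg_sq, inv_mul_cancel, one_mul, one_mul]) (inv_mul_cancel _))

variable (c) in
/-- the projection -/
def pr : Ex c →* (L ≃ₐ[K] L) := MonoidHom.mk' Ex.g mul_g

variable (c) in
/-- the inclusion of the kernel -/
def incl : Lˣ →* Ex c := MonoidHom.mk' (fun x => ⟨x * sg L (c.1 1 1), 1⟩) fun x y =>
  Ex.ext (by
    simp only [mul_x, one_smul]
    calc _ = x * y * sg L (c.1 1 1) * (sg L (c.1 1 1) * sg L (c.1 1 1)) := by rw [sg_sq, mul_one]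
      _ = _ := by ac_rfl) (mul_one _).symm

lemma isExt : IsExt (pr c) (incl c) where
  conj e x := Ex.ext (by
      change e.x * e.g • (x * sg L (c.1 1 1)) * sg L (c.1 e.g 1) =
        e.g • x * sg L (c.1 1 1) * (1 : L ≃ₐ[K] L) • e.x * sg L (c.1 1 e.g)
      rw [c_one_left c e.g, c_one_right c e.g, one_smul, smul_mul', smul_sg]; ac_rfl)
    ((mul_one _).trans (one_mul _).symm)
  ker e he := ⟨e.x * sg L (c.1 1 1), Ex.ext (by
      change e.x * sg L (c.1 1 1) * sg L (c.1 1 1) = e.x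
      rw [mul_assoc, sg_sq, mul_one]) he.symm⟩
  zero _ := rfl
  inj _ _ h := mul_right_cancel (congrArg Ex.x h)
  surj g := ⟨⟨1, g⟩, rfl⟩

variable [NumberField L]

lemma ord_sg (w : Pr L) (a : ZMod 2) : ord w (sg L a : L) = 0 := by
  have h := ord_mul w (sg L a).ne_zero (sg L a).ne_zero
  rw [← Units.val_mul, sg_sq, Units.val_one, ord_one] at h
  omega

lemma ord_mul_x (w : Pr L) {a : Ex c} (ha : a.g • w = w) (b : Ex c) :
    ord w ((a * b).x : L) = ord w (a.x : L) + ord w (b.x : L) := by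
  have h := ord_act a.g w (b.x : L)
  rw [ha] at h
  rw [mul_x, Units.val_mul, ord_mul w (Units.ne_zero _) (Units.ne_zero _), ord_sg, add_zero,
    Units.val_mul, ord_mul w (Units.ne_zero _) (Units.ne_zero _), ← h]
  rfl

lemma ord_fin (w : Pr L) {a : Ex c} (ha : a.g • w = w) (h : IsOfFinOrder a) :
    ord w (a.x : L) = 0 := by
  have key : ∀ n : ℕ, ord w ((a ^ n).x : L) = n * ord w (a.x : L) := fun n => by
    induction n with
    | zero => rw [pow_zero, one_x, ord_sg]; simp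
    | succ n ih => rw [pow_succ', ord_mul_x w ha, ih]; push_cast; ring
  obtain ⟨n, hn, h1⟩ := isOfFinOrder_iff_pow_eq_one.1 h
  have h2 := key n
  rw [h1, one_x, ord_sg] at h2
  exact (mul_eq_zero.1 h2.symm).resolve_left (by exact_mod_cast hn.ne')

end Concrete

end Emb

open Emb in
theorem emb : EmbStmt := by
  intro K L _ _ _ _ _ _ hG hN c hc
  have : FiniteDimensional K L := Module.Finite.of_restrictScalars_finite ℚ K L
  let c' : Z2 (L ≃ₐ[K] L) := ⟨c, hc⟩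
  have X := isExt (c := c')
  obtain ⟨s, hs⟩ := chain hG (fun H => ∃ s, Sec (pr c') H s)
    ⟨fun _ => 1, fun h hh => by rw [map_one, mem_bot.1 hh], fun _ _ _ _ => (mul_one _).symm⟩
    fun H H' σ hle h1 h2 h3 ⟨s, hs⟩ => step X hs hle h1 h2 h3 (h90 H) fun m0 m3 b f1 f2 f3 => by
      obtain ⟨y, hy, hy'⟩ := hN H σ h2 m0 m3 b b.ne_zero
        (fun h hh => congrArg Units.val (f1 h hh)) (congrArg Units.val f2) fun w h hh hw => by
          obtain ⟨u, e, hu, he, hue⟩ := f3 h hh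
          have hu' : u.g • w = w := by rw [show u.g = h * σ from hu, hw]
          have he' : e.g • w = w := by
            have := congrArg Ex.g hue
            rw [mul_g, mul_g, show (incl c' b).g = 1 from rfl, one_mul] at this
            rw [← this, mul_smul, hu', hu']
          have k1 := ord_mul_x w hu' u
          rw [hue, ord_mul_x w (one_smul _ w) e, ord_fin w he' he, add_zero] at k1
          have k2 : ord w ((incl c' b).x : L) = ord w (b : L) := by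
            change ord w ((b * sg L (c 1 1) : Lˣ) : L) = _
            rw [Units.val_mul, ord_mul w (Units.ne_zero _) (Units.ne_zero _), ord_sg, add_zero]
          exact ⟨_, k2.symm.trans k1⟩
      have y0 : y ≠ 0 := by
        rintro rfl
        exact b.ne_zero (by rw [hy', zero_mul])
      exact ⟨Units.mk0 y y0, fun h hh => Units.ext (hy h hh), Units.ext hy'⟩
  refine ⟨fun g => (s g).x, fun g h => ?_⟩
  have k1 := congrArg Ex.x (hs.2 g trivial h trivial)
  have k2 : (s g).g = g := hs.1 g trivial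
  have k3 : (s h).g = h := hs.1 h trivial
  rw [mul_x, k2, k3] at k1
  have k4 : (s g).x * g • (s h).x = sg L (c g h) * (s (g * h)).x := by
    rw [k1, mul_comm (sg L _), mul_assoc, sg_sq, mul_one]
  have := congrArg Units.val k4
  simpa [sg] using this

end Pool.Agent.Lib.Tower
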