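import Pool.Agent.Lib.Tower.Blue

set_option autoImplicit false

open NumberField IsDedekindDomain WithZero Module Subgroup

namespace Pool.Agent.Lib.Tower

theorem find (gs : GsStmt) (kum : KumStmt) (h2x : H2xStmt) (xcl : XclStmt) (emb : EmbStmt)
    (gal : GalStmt) (bits : BitsStmt) {K L : Type} [Field K] [NumberField K] [Field L]
    [NumberField L] [Algebra K L] {Q : Finset ℕ} (h2Q : 2 ∈ Q) (hL : Good K L Q)
    (hK : finrank ℚ K = 2) {n : ℕ} (hn : 18 * (Q.card + 1) + 4 ≤ n)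
    (hV : (square Kˣ).relIndex (Ev K) ≠ 0 → 2 ^ n < (square Kˣ).relIndex (Ev K)) :
    ∃ x ∈ XG K L, x ∈ Loc L Q ∧ x ∈ Ev L ∧ ¬ IsSquare (x : L) := by
  by_contra! hmax
  obtain ⟨b0, b1⟩ := bits K L Q hL.gal
  rw [hK, show (8 : ℕ) = 2 ^ 3 from rfl, ← pow_mul] at b1
  set β := 3 * (2 * (Q.card + 1)) with hβ
  obtain ⟨k0, k1⟩ := kum K L hL.gal
  obtain ⟨d, hd, hgs⟩ := gs _ hL.two
  have hX : (Ev K).map (inc K L) ≤ XG K L := by
    rintro _ ⟨a, -, rfl⟩ σ
    rw [coe_inc, σ.commutes, div_self ((_root_.map_ne_zero _).mpr a.ne_zero)]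
    exact IsSquare.one
  set W := (Loc L Q).comap (inc K L) ⊓ Ev K with hW
  have w0 : W.relIndex (Ev K) ≠ 0 ∧ W.relIndex (Ev K) ≤ 2 ^ β := by
    rw [hW, inf_relIndex_right, relIndex_comap]
    exact ⟨fun h => b0 (relIndex_eq_zero_of_le_right hX h),
      (relIndex_le_of_le_right hX b0).trans b1⟩
  have hW1 : W ≤ (square Lˣ).comap (inc K L) := fun a ha => by
    refine (isSquare_units_iff _).mpr (hmax _ (hX ⟨a, ha.2, rfl⟩) ha.1 fun w => ?_)
    rw [coe_inc, hL.ur w]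
    exact ha.2 _
  have s0 : (square Kˣ).relIndex W ≠ 0 ∧ (square Kˣ).relIndex W ≤ 2 ^ d :=
    ⟨fun h => k0 (relIndex_eq_zero_of_le_right hW1 h),
      ((relIndex_le_of_le_right hW1 k0).trans k1).trans hd.le⟩
  have e : (square Kˣ ⊓ W).relIndex (Ev K) = (square Kˣ).relIndex W * W.relIndex (Ev K) := by
    rw [← inf_relIndex_right (square Kˣ) W]
    exact (relIndex_mul_relIndex _ _ _ inf_le_right inf_le_right).symm
  have e0 : (square Kˣ ⊓ W).relIndex (Ev K) ≠ 0 := e ▸ mul_ne_zero s0.1 w0.1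
  have v0 : (square Kˣ).relIndex (Ev K) ≠ 0 := fun h =>
    e0 (relIndex_eq_zero_of_le_left inf_le_left h)
  have v1 : (square Kˣ).relIndex (Ev K) ≤ 2 ^ (d + β) :=
    (relIndex_le_of_le_left inf_le_left e0).trans
      (by rw [e, pow_add]; exact Nat.mul_le_mul s0.2 w0.2)
  obtain ⟨x0, x1⟩ := xcl K L hL.gal hL.ur _ b0 hmax v0
  have : Fact (Nat.Prime 2) := Nat.fact_prime_two
  have h3 := h2x K L hL.gal (emb K L hL.gal hL.two (gal K L hL.gal hL.ur hL.real
    (hL.padic 2 h2Q))) x0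
  have h4 := hgs (d + β + β) (h3.trans (x1.trans (by
    rw [pow_add _ _ β]; exact Nat.mul_le_mul v1 b1)))
  have h5 : n < d + β := (Nat.pow_lt_pow_iff_right one_lt_two).mp ((hV v0).trans_le v1)
  have h6 : 2 * β + 5 ≤ d := by omega
  nlinarith

theorem tower_of (gs : GsStmt) (kum : KumStmt) (h2x : H2xStmt) (xcl : XclStmt) (emb : EmbStmt)
    (gal : GalStmt) (bits : BitsStmt) (ext : ExtStmt) (base : BaseStmt) (disc : DiscStmt) :
    TowerStmt := fun t => by
  obtain ⟨C, hC⟩ := base (t + 1) (18 * (t + 2) + 4)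
  refine ⟨C + 1, fun Q hQ k => ?_⟩
  have hc : (insert 2 Q).card ≤ t + 1 := (Finset.card_insert_le _ _).trans (by omega)
  obtain ⟨K, _, _, hK, hd, hr, hp, hV⟩ := hC (insert 2 Q) hc
  have key : ∀ k : ℕ, ∃ (L : Type) (_ : Field L) (_ : NumberField L) (_ : Algebra K L),
      Good K L (insert 2 Q) ∧ finrank K L = 2 ^ k := fun k => by
    induction k with
    | zero =>
      refine ⟨K, _, ‹_›, inferInstance, ⟨inferInstance, IsPGroup.of_card (n := 0) ?_, fun w => ?_,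
        hr, hp⟩, by simp⟩
      · rw [IsGalois.card_aut_eq_finrank]; simp
      · obtain ⟨π, -, h⟩ := exists_ord_eq_one w
        exact urat_of_ord_eq_one (a := π) h
    | succ k ih =>
      obtain ⟨L, _, _, _, hL, h⟩ := ih
      obtain ⟨x, h1, h2, h3, h4⟩ := find gs kum h2x xcl emb gal bits (Finset.mem_insert_self 2 Q)
        hL hK (by omega) hV
      obtain ⟨N, _, _, _, hN, h5⟩ := ext K L _ (Finset.mem_insert_self 2 Q) hL x h1 h2 h3 h4
      exact ⟨N, _, ‹_›, ‹_›, hN, by rw [h5, h, pow_succ']⟩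
  obtain ⟨L, _, _, _, hL, h⟩ := key k
  have e : finrank ℚ L = 2 ^ (k + 1) := by
    rw [← finrank_mul_finrank ℚ K L, hK, h, pow_succ']
  refine ⟨L, _, ‹_›, e, ?_, hL.real, fun q _ hq => hL.padic q (Finset.mem_insert_of_mem hq)⟩
  rw [disc K L hL.ur, h, e]
  exact (Nat.pow_le_pow_left (hd.trans C.le_succ) _).trans
    (Nat.pow_le_pow_right C.succ_pos (Nat.pow_le_pow_right two_pos k.le_succ))

end Pool.Agent.Lib.Tower
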