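import Pool.Agent.Lib.Tower.Blue

set_option autoImplicit false

open Module Subgroup

namespace Pool.Agent.Lib.Tower

namespace HERB

lemma fin_add (A : Type) [CommGroup A] [Group.FG A] : Module.Finite ℤ (Additive A) :=
  Module.Finite.iff_addGroup_fg.mpr inferInstance

lemma fg_sub {A : Type} [CommGroup A] [Group.FG A] (H : Subgroup A) : Group.FG H := by
  have := fin_add A
  have h : Module.Finite ℤ (Additive H) :=
    Module.Finite.of_injective (MonoidHom.toAdditive H.subtype).toIntLinearMap
      (fun a b hab => Additive.toMul.injective (Subtype.ext (congrArg Additive.toMul hab)))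
  exact GroupFG.iff_add_fg.mpr (Module.Finite.iff_addGroup_fg.mp h)

lemma rank_add {A B : Type} [CommGroup A] [CommGroup B] [Group.FG A] (f : A →* B)
    (hf : Function.Surjective f) (P : Subgroup A) (hP : ∀ x, x ∈ P ↔ f x = 1) :
    finrank ℤ (Additive A) = finrank ℤ (Additive B) + finrank ℤ (Additive P) := by
  have := fin_add A
  let F : Additive A →ₗ[ℤ] Additive B := (MonoidHom.toAdditive f).toIntLinearMap
  have hF : Function.Surjective F := fun b => (hf b.toMul).imp fun a ha => congrArg Additive.ofMul ha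
  let G : Additive P →ₗ[ℤ] Additive A := (MonoidHom.toAdditive P.subtype).toIntLinearMap
  have hG : Function.Injective G :=
    fun a b hab => Additive.toMul.injective (Subtype.ext (congrArg Additive.toMul hab))
  have hk : LinearMap.range G = LinearMap.ker F := by
    ext x
    constructor
    · rintro ⟨y, rfl⟩
      exact congrArg Additive.ofMul ((hP _).mp y.toMul.2)
    · intro hx
      exact ⟨Additive.ofMul ⟨x.toMul, (hP _).mpr (congrArg Additive.toMul hx)⟩, rfl⟩
  rw [← (LinearMap.ker F).finrank_quotient_add_finrank, (F.quotKerEquivOfSurjective hF).finrank_eq,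
    ← hk, LinearMap.finrank_range_of_inj hG]

lemma card_two {A : Type} [CommGroup A] (P : Subgroup A) (hP : ∀ x : A, x ^ 2 = 1 → x ∈ P) :
    Nat.card {x : P // x ^ 2 = 1} = Nat.card {x : A // x ^ 2 = 1} :=
  Nat.card_congr
    ⟨fun x => ⟨x.1.1, congrArg Subtype.val x.2⟩, fun x => ⟨⟨x.1, hP _ x.2⟩, Subtype.ext x.2⟩,
      fun _ => rfl, fun _ => rfl⟩

end HERB

theorem herb (hrk : RkStmt) : HerbStmt := by
  intro A _ _ σ h1 h2 h3
  set P : Subgroup A := σ.eqLocus (MonoidHom.id A) with hPdef
  have hP : ∀ x, x ∈ P ↔ σ x = x := fun x => Iff.rfl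
  set N : A →* A := MonoidHom.id A * σ with hNdef
  have hN : ∀ x, N x = x * σ x := fun x => rfl
  set M : Subgroup A := N.ker with hMdef
  have hM : ∀ x, x ∈ M ↔ x * σ x = 1 := fun x => Iff.rfl
  let D : A →* A := MonoidHom.id A / σ
  have hD : ∀ x, D x = x / σ x := fun x => rfl
  let N' : A →* P := N.codRestrict P fun x => by rw [hP, hN, map_mul, h1, mul_comm]
  let D' : A →* M := D.codRestrict M fun x => by
    rw [hM, hD, map_div, h1, div_mul_div_cancel, div_self']
  have hD' : Function.Surjective D' := fun x => by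
    obtain ⟨y, hy⟩ := h3 x.1 x.2
    exact ⟨y, Subtype.ext hy.symm⟩
  have hc : (square P).comap N' = (square M).comap D' := by
    ext x
    simp only [mem_comap, mem_square]
    constructor
    · rintro ⟨b, hb⟩
      have hb1 : x * σ x = b * b := congrArg Subtype.val hb
      have hb2 : σ b = b := b.2
      refine ⟨⟨x / b, ?_⟩, Subtype.ext ?_⟩
      · rw [hM, map_div, hb2, div_mul_div_comm, hb1, div_self']
      · change x / σ x = x / b * (x / b)
        rw [div_mul_div_comm, ← hb1, mul_div_mul_left_eq_div]
    · rintro ⟨b, hb⟩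
      have hb1 : x / σ x = b * b := congrArg Subtype.val hb
      have hb2 : σ b = (b : A)⁻¹ := (inv_eq_of_mul_eq_one_right b.2).symm
      have hb3 : σ x = x / (b * b) := by rw [← hb1, div_div_cancel]
      refine ⟨⟨x / b, ?_⟩, Subtype.ext ?_⟩
      · rw [hP, map_div, hb2, hb3, div_inv_eq_mul, div_mul_eq_mul_div, mul_div_mul_right_eq_div]
      · change x * σ x = x / b * (x / b)
        rw [hb3, div_mul_div_comm, mul_div_assoc]
  have hle : square P ≤ N'.range := by
    rintro _ ⟨b, rfl⟩
    refine ⟨b, Subtype.ext ?_⟩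
    change b * σ b = b * b
    rw [show σ b = b from b.2]
  have hr : N'.range = N.range.subgroupOf P := by
    ext x
    exact ⟨fun ⟨y, hy⟩ => ⟨y, congrArg Subtype.val hy⟩, fun ⟨y, hy⟩ => ⟨y, Subtype.ext hy⟩⟩
  have key : (square M).index * N.range.relIndex P = (square P).index := by
    rw [← index_comap_of_surjective _ hD', ← hc, index_comap, relIndex, relIndex, ← hr]
    exact relIndex_mul_index hle
  have := HERB.fg_sub P
  have := HERB.fg_sub M
  have hrA := hrk A
  have hrP := hrk P
  have hrM := hrk M
  rw [HERB.card_two P fun x hx => (hP x).mpr (h2 x hx)] at hrP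
  rw [HERB.card_two M fun x hx => (hM x).mpr (by rw [h2 x hx, ← sq, hx])] at hrM
  have hadd := HERB.rank_add D' hD' P fun x => by
    rw [hP, Subtype.ext_iff]
    change σ x = x ↔ x / σ x = 1
    rw [div_eq_one, eq_comm]
  rw [hrM] at key
  rw [hrA, hadd, pow_add, sq (square P).index]
  nth_rw 1 [← key]
  rw [hrP]
  ring

end Pool.Agent.Lib.Tower
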