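import Pool.Agent.Lib.Tower.Blue

set_option autoImplicit false

open NumberField IsDedekindDomain WithZero Module Subgroup

namespace Pool.Agent.Lib.Tower

namespace KEY

lemma two_iff (a b : Multiplicative (ZMod 2)) (h : a = 1 ↔ b = 1) : a = b := by
  revert a b; decide

lemma two_mul (a b g : Multiplicative (ZMod 2)) (h : b = 1 ↔ a = g) : a * b = g := by
  revert a b g; decide

/-- a surjection killing `N` bounds the relative index of `N` from below -/
lemma card_le {G A : Type} [Group G] [Group A] (N U : Subgroup G) (Φ : G →* A)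
    (h0 : N.relIndex U ≠ 0) (hN : ∀ x ∈ N, Φ x = 1) (hs : ∀ a, ∃ x ∈ U, Φ x = a) :
    Nat.card A ≤ N.relIndex U := by
  have h1 : N.subgroupOf U ≤ (Φ.comp U.subtype).ker := fun x hx => hN x hx
  have h2 : (Φ.comp U.subtype).range = ⊤ := by
    rw [eq_top_iff]
    intro a _
    obtain ⟨x, hx, rfl⟩ := hs a
    exact ⟨⟨x, hx⟩, rfl⟩
  have h3 : (Φ.comp U.subtype).ker.index = Nat.card A := by
    rw [index_ker, h2, card_top]
  rw [← h3]
  exact Nat.le_of_dvd (Nat.pos_of_ne_zero h0) (index_dvd_of_le h1)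

end KEY

open KEY in
theorem key (hUp : TsUpStmt) (hSplit : SplitStmt) (hUnr : UnrStmt) (hSym : SymStmt)
    (hH : LemHStmt) : KeyStmt := by
  classical
  intro K _ _ hK S T hS hT hST h2 hCL hI c hc hcR hcS
  by_contra hsq
  obtain ⟨M, _, _, _, θ, σ, hq⟩ := exists_quad hsq
  have hM : TS M ℝ := hUp K M ℝ c θ σ hq hK hcR
  set P : Set (Pr K) := {v | v ∈ T ∧ ¬ LS v (c : K)} with hP
  have hPf : P.Finite := hT.subset fun v hv => hv.1
  have hPS : ∀ v ∈ P, v ∉ S := fun v hv hvS => Set.disjoint_left.mp hST hvS hv.1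
  obtain ⟨h0, hle⟩ := hH K M c θ σ hq hM (S ∪ T) P (hS.union hT) (hCL.mono Set.subset_union_left)
    (fun w hw => (hUnr K M c θ σ hq w).2
      (fun h => hw (Or.inl (h2 _ ((over_under 2 w).mpr h)))) (by rw [hc _ hw]; exact Even.zero))
    (fun v hv => Or.inr hv.1)
    (fun w hw hw' => hSplit K M c θ σ hq w (by
      rcases hw with hw | hw
      · exact hcS _ hw
      · by_contra h
        exact hw' ⟨hw, h⟩))
  have hex := fun v : P => hSym K v.1 (fun h => hPS _ v.2 (h2 _ h)) c c.ne_zero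
  choose h hN hE hO using hex
  let Φ : Kˣ →* (P → Multiplicative (ZMod 2)) := MonoidHom.pi h
  have hcard : Nat.card (P → Multiplicative (ZMod 2)) = 2 ^ P.ncard := by
    have := hPf.to_subtype
    rw [Nat.card_fun, Nat.card_coe_set_eq, Nat.card_eq_fintype_card, Fintype.card_multiplicative,
      ZMod.card]
  have hmain := card_le (NmS σ (S ∪ T)) (US K (S ∪ T)) Φ h0 (by
    rintro x ⟨y, -, hy⟩
    obtain ⟨α, β, hαβ⟩ := hq.exists_norm (y : M)
    funext v
    exact hN v x α β ((algebraMap K M).injective (hy.trans hαβ))) (by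
    intro g
    let D : Set (Pr K) := {v | ∃ hv : v ∈ P, Even (ord v (c : K)) ∧ g ⟨v, hv⟩ ≠ 1}
    have hD : D.Finite := hPf.subset fun v hv => hv.1
    let d : Pr K →₀ ℤ := Finsupp.onFinset hD.toFinset (fun v => if v ∈ D then 1 else 0)
      (fun v hv => by
        by_contra h'
        exact hv (if_neg (by simpa using h')))
    have hd : ∀ v, d v = if v ∈ D then 1 else 0 := fun v => rfl
    obtain ⟨x, hx⟩ := hCL d
    obtain ⟨u, hu, huI⟩ := hI {v | ∀ hv : v ∈ P, h ⟨v, hv⟩ x = g ⟨v, hv⟩}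
    refine ⟨x * u, mul_mem (fun v hv => ?_) (fun v hv => hu v fun h' => hv (Or.inl h')), ?_⟩
    · rw [hx v fun h' => hv (Or.inl h'), hd, if_neg]
      exact fun h' => hv (Or.inr h'.1.1)
    funext v
    change h v (x * u) = g v
    have hvS := hPS _ v.2
    rcases Int.even_or_odd (ord v.1 (c : K)) with he | ho
    · refine two_iff _ _ ?_
      rw [hE v he v.2.2, Units.val_mul, ord_mul _ x.ne_zero u.ne_zero, hu _ hvS, add_zero,
        hx _ hvS, hd]
      by_cases hg : g v = 1
      · rw [if_neg fun h' => h'.2.2 hg]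
        exact ⟨fun _ => hg, fun _ => Even.zero⟩
      · rw [if_pos ⟨v.2, he, hg⟩]
        exact ⟨fun h' => absurd h' (by decide), fun h' => absurd h' hg⟩
    · rw [map_mul]
      refine two_mul _ _ _ ?_
      rw [hO v ho u (hu _ hvS), huI _ v.2.1]
      exact ⟨fun h' => h' v.2, fun h' _ => h'⟩)
  rw [hcard] at hmain
  have : 0 < 2 ^ P.ncard := by positivity
  omega

end Pool.Agent.Lib.Tower
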