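import Pool.Agent.Lib.Tower.Blue

set_option autoImplicit false

open NumberField IsDedekindDomain WithZero Module

namespace Pool.Agent.Lib.Tower
open Pool.Agent.Lib.helper22.Val

namespace LAM

variable {K : Type} [Field K] [NumberField K] {v : Pr K}

lemma ls_iff (hv : ¬ Over 2 v) (x : K) :
    LS v x ↔ ∃ y : K, v.valuation K (x / y ^ 2 - 1) < 1 := by
  rw [LS, val_four_eq_one hv]

lemma val_one_of_lt {u : K} (h : v.valuation K (u - 1) < 1) : v.valuation K u = 1 := by
  have := (v.valuation K).map_one_add_of_lt h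
  rwa [add_sub_cancel] at this

lemma near_mul {u u' : K} (h : v.valuation K (u - 1) < 1) (h' : v.valuation K (u' - 1) < 1) :
    v.valuation K (u * u' - 1) < 1 := by
  rw [show u * u' - 1 = u * (u' - 1) + (u - 1) by ring]
  refine Valuation.map_add_lt _ ?_ h
  rwa [map_mul, val_one_of_lt h, one_mul]

lemma near_inv {u : K} (h : v.valuation K (u - 1) < 1) : v.valuation K (u⁻¹ - 1) < 1 := by
  have h1 := val_one_of_lt h
  have h0 : u ≠ 0 := by rintro rfl; simp at h1
  rw [show u⁻¹ - 1 = -(u - 1) / u by field_simp; ring, map_div₀, h1, div_one, Valuation.map_neg]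
  exact h

lemma ls_mul (hv : ¬ Over 2 v) {x x' : K} (h : LS v x) (h' : LS v x') : LS v (x * x') := by
  rw [ls_iff hv] at h h' ⊢
  obtain ⟨y, hy⟩ := h
  obtain ⟨y', hy'⟩ := h'
  refine ⟨y * y', ?_⟩
  rw [mul_pow, mul_div_mul_comm]
  exact near_mul hy hy'

lemma ls_inv (hv : ¬ Over 2 v) {x : K} (h : LS v x) : LS v x⁻¹ := by
  rw [ls_iff hv] at h ⊢
  obtain ⟨y, hy⟩ := h
  refine ⟨y⁻¹, ?_⟩
  rw [inv_pow, inv_div_inv, ← inv_div]
  exact near_inv hy

lemma ls_even (hv : ¬ Over 2 v) {x : K} (h : LS v x) : Even (ord v x) := by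
  have hx := h.ne_zero
  rw [ls_iff hv] at h
  obtain ⟨y, hy⟩ := h
  have h1 := val_one_of_lt hy
  have hy0 : y ≠ 0 := by rintro rfl; simp at h1
  have h2 := (ord_eq_zero_iff v (div_ne_zero hx (pow_ne_zero 2 hy0))).mpr h1
  rw [ord_div v hx (pow_ne_zero 2 hy0), ord_pow] at h2
  exact ⟨ord v y, by push_cast at h2; linarith⟩

lemma ls_sq (z : K) (hz : z ≠ 0) : LS v (z ^ 2) :=
  LS.of_isSquare v (pow_ne_zero 2 hz) ⟨z, sq z⟩

lemma ls_mul_sq (hv : ¬ Over 2 v) (x : K) {z : K} (hz : z ≠ 0) : LS v (x * z ^ 2) ↔ LS v x := by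
  refine ⟨fun h => ?_, fun h => ls_mul hv h (ls_sq z hz)⟩
  have := ls_mul hv h (ls_inv hv (ls_sq z hz))
  rwa [mul_inv_cancel_right₀ (pow_ne_zero 2 hz)] at this

/-- a unit congruent to a square is a local square -/
lemma ls_of_near (hv : ¬ Over 2 v) {x b : K} (hx : v.valuation K x = 1)
    (h : v.valuation K (x - b ^ 2) < 1) : LS v x := by
  have hb : v.valuation K (b ^ 2) = 1 := by
    have := (v.valuation K).map_sub_eq_of_lt_left (x := x) (y := x - b ^ 2) (by rwa [hx])
    rwa [sub_sub_cancel, hx] at this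
  have hb0 : b ^ 2 ≠ 0 := by intro h0; rw [h0] at hb; simp at hb
  rw [ls_iff hv]
  refine ⟨b, ?_⟩
  rwa [div_sub_one hb0, map_div₀, hb, div_one]

lemma ls_mul_of_not (hv : ¬ Over 2 v) {x x' : K} (hx : v.valuation K x = 1)
    (hx' : v.valuation K x' = 1) (h : ¬ LS v x) (h' : ¬ LS v x') : LS v (x * x') := by
  classical
  have hmax := v.isMaximal
  letI : Field (𝓞 K ⧸ v.asIdeal) := Ideal.Quotient.field _
  haveI : Finite (𝓞 K ⧸ v.asIdeal) := Ideal.finiteQuotientOfFreeOfNeBot _ v.ne_bot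
  letI : Fintype (𝓞 K ⧸ v.asIdeal) := Fintype.ofFinite _
  have key : ∀ {a : 𝓞 K}, IsSquare (Ideal.Quotient.mk v.asIdeal a) →
      ∃ b : K, v.valuation K (algebraMap (𝓞 K) K a - b ^ 2) < 1 := by
    rintro a ⟨β, hβ⟩
    obtain ⟨b, rfl⟩ := Ideal.Quotient.mk_surjective β
    refine ⟨algebraMap (𝓞 K) K b, ?_⟩
    rw [← map_pow, ← map_sub, v.valuation_lt_one_iff_mem, ← Ideal.Quotient.eq, hβ, map_pow, sq]
  have key2 : ∀ {x : K} {a : 𝓞 K}, v.valuation K x = 1 →
      v.valuation K (algebraMap (𝓞 K) K a - x) < 1 →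
      IsSquare (Ideal.Quotient.mk v.asIdeal a) → LS v x := by
    intro x a hx ha hs
    obtain ⟨b, hb⟩ := key hs
    refine ls_of_near hv hx (b := b) ?_
    rw [show x - b ^ 2 = (algebraMap (𝓞 K) K a - b ^ 2) - (algebraMap (𝓞 K) K a - x) by ring]
    exact Valuation.map_sub_lt _ hb ha
  obtain ⟨a, ha⟩ := v.exists_valuation_sub_lt_of_integer hx.le 1
  obtain ⟨a', ha'⟩ := v.exists_valuation_sub_lt_of_integer hx'.le 1
  rw [Units.val_one] at ha ha'
  have n1 : ¬ IsSquare (Ideal.Quotient.mk v.asIdeal a) := fun hs => h (key2 hx ha hs)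
  have n2 : ¬ IsSquare (Ideal.Quotient.mk v.asIdeal a') := fun hs => h' (key2 hx' ha' hs)
  have z1 : Ideal.Quotient.mk v.asIdeal a ≠ 0 := fun h0 => n1 (h0 ▸ IsSquare.zero)
  have z2 : Ideal.Quotient.mk v.asIdeal a' ≠ 0 := fun h0 => n2 (h0 ▸ IsSquare.zero)
  refine key2 (a := a * a') (by rw [map_mul, hx, hx', one_mul]) ?_ ?_
  · rw [map_mul, show algebraMap (𝓞 K) K a * algebraMap (𝓞 K) K a' - x * x' =
      algebraMap (𝓞 K) K a * (algebraMap (𝓞 K) K a' - x') + (algebraMap (𝓞 K) K a - x) * x' by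
        ring]
    refine Valuation.map_add_lt _ ?_ ?_
    · rw [map_mul]
      exact lt_of_le_of_lt (mul_le_of_le_one_left' (v.valuation_le_one a)) ha'
    · rwa [map_mul, hx', mul_one]
  · rw [map_mul, ← quadraticChar_one_iff_isSquare (mul_ne_zero z1 z2), map_mul,
      quadraticChar_neg_one_iff_not_isSquare.mpr n1, quadraticChar_neg_one_iff_not_isSquare.mpr n2]
    norm_num

lemma sq_eq_one (a : Multiplicative (ZMod 2)) : a * a = 1 := by revert a; decide

lemma zpow_even (a : Multiplicative (ZMod 2)) {n : ℤ} (h : Even n) : a ^ n = 1 := by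
  obtain ⟨m, rfl⟩ := h
  rw [zpow_add, sq_eq_one]

end LAM

open LAM

theorem lam : LamStmt := by
  classical
  intro K _ _ v hv
  obtain ⟨π, hπ0, hπ⟩ := exists_ord_eq_one v
  have hu : ∀ x : Kˣ, v.valuation K ((x : K) * π ^ (-ord v (x : K))) = 1 := fun x => by
    rw [← ord_eq_zero_iff v (mul_ne_zero x.ne_zero (zpow_ne_zero _ hπ0)),
      ord_mul v x.ne_zero (zpow_ne_zero _ hπ0), ord_zpow, hπ]
    ring
  have hm : ∀ x y : Kˣ, ((x * y : Kˣ) : K) * π ^ (-ord v ((x * y : Kˣ) : K)) =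
      ((x : K) * π ^ (-ord v (x : K))) * ((y : K) * π ^ (-ord v (y : K))) := fun x y => by
    rw [Units.val_mul, ord_mul v x.ne_zero y.ne_zero, neg_add, zpow_add₀ hπ0]
    ring
  let f : Kˣ → Multiplicative (ZMod 2) := fun x =>
    if LS v ((x : K) * π ^ (-ord v (x : K))) then 1 else Multiplicative.ofAdd 1
  have hne : (Multiplicative.ofAdd 1 : Multiplicative (ZMod 2)) ≠ 1 := by decide
  have hf : ∀ x y : Kˣ, f (x * y) = f x * f y := fun x y => by
    simp only [f, hm]
    by_cases h1 : LS v ((x : K) * π ^ (-ord v (x : K))) <;>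
      by_cases h2 : LS v ((y : K) * π ^ (-ord v (y : K)))
    · rw [if_pos h1, if_pos h2, if_pos (ls_mul hv h1 h2), one_mul]
    · rw [if_pos h1, if_neg h2, if_neg, one_mul]
      intro h
      have := ls_mul hv (ls_inv hv h1) h
      rw [inv_mul_cancel_left₀ h1.ne_zero] at this
      exact h2 this
    · rw [if_neg h1, if_pos h2, if_neg, mul_one]
      intro h
      have := ls_mul hv h (ls_inv hv h2)
      rw [mul_inv_cancel_right₀ h2.ne_zero] at this
      exact h1 this
    · rw [if_neg h1, if_neg h2, if_pos (ls_mul_of_not hv (hu x) (hu y) h1 h2), sq_eq_one]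
  refine ⟨MonoidHom.mk' f hf, fun x => ?_⟩
  have he : Even (ord v (x : K)) → (LS v ((x : K) * π ^ (-ord v (x : K))) ↔ LS v (x : K)) := by
    rintro ⟨m, hm⟩
    rw [hm, show π ^ (-(m + m)) = (π ^ (-m)) ^ 2 by rw [sq, ← zpow_add₀ hπ0, neg_add]]
    exact ls_mul_sq hv _ (zpow_ne_zero _ hπ0)
  change _ ↔ _ ∧ f x = 1
  constructor
  · intro h
    exact ⟨ls_even hv h, if_pos ((he (ls_even hv h)).mpr h)⟩
  · rintro ⟨h1, h2⟩
    by_contra h
    exact hne ((if_neg fun h' => h ((he h1).mp h')).symm.trans h2)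

namespace LAM

variable {K : Type} [Field K] [NumberField K] {v : Pr K}

lemma ls_left (hv : ¬ Over 2 v) {x α B : K} (hx : x = α ^ 2 - B)
    (h : v.valuation K B < v.valuation K (α ^ 2)) : LS v x := by
  have h0 : v.valuation K (α ^ 2) ≠ 0 := ne_of_gt (lt_of_le_of_lt zero_le h)
  have h1 : α ^ 2 ≠ 0 := (Valuation.ne_zero_iff _).mp h0
  rw [ls_iff hv]
  refine ⟨α, ?_⟩
  rw [div_sub_one h1, hx, show α ^ 2 - B - α ^ 2 = -B by ring, map_div₀, Valuation.map_neg]
  exact (div_lt_one₀ (zero_lt_iff.mpr h0)).mpr h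

lemma ls_right (hv : ¬ Over 2 v) {x α β c : K} (hc : c ≠ 0) (hx : x = α ^ 2 - c * β ^ 2)
    (h : v.valuation K (α ^ 2) < v.valuation K (c * β ^ 2)) : LS v (x / (-c)) := by
  refine ls_left hv (α := β) (B := α ^ 2 / c) (by rw [hx]; field_simp; ring) ?_
  rw [map_div₀, div_lt_iff₀ (zero_lt_iff.mpr (val_ne_zero hc)), ← map_mul, mul_comm]
  exact h

lemma even_norm (hv : ¬ Over 2 v) {x α β c : K} (hc : c ≠ 0) (hx0 : x ≠ 0)
    (hx : x = α ^ 2 - c * β ^ 2) (he : Even (ord v c)) (hn : ¬ LS v c) : Even (ord v x) := by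
  rcases lt_trichotomy (v.valuation K (α ^ 2)) (v.valuation K (c * β ^ 2)) with h | h | h
  · have := ls_even hv (ls_right hv hc hx h)
    rw [ord_div v hx0 (neg_ne_zero.mpr hc), ord_neg] at this
    simpa using this.add he
  · have h1 : α ^ 2 ≠ 0 := by
      intro h0
      rw [h0, map_zero, eq_comm, Valuation.zero_iff] at h
      exact hx0 (by rw [hx, h0, h, sub_zero])
    have hle : v.valuation K x ≤ v.valuation K (α ^ 2) := by
      rw [hx]; exact Valuation.map_sub_le _ le_rfl h.ge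
    rcases hle.eq_or_lt with h2 | h2
    · have : ord v x = ord v (α ^ 2) := by rw [ord, h2, ord]
      rw [this, ord_pow]
      exact ⟨ord v α, by push_cast; ring⟩
    · exfalso
      have hβ : β ≠ 0 := by
        rintro rfl
        rw [show c * (0 : K) ^ 2 = 0 by ring, map_zero, Valuation.zero_iff] at h
        exact h1 h
      exact hn ((ls_mul_sq hv c hβ).mp (ls_left hv (α := α) (B := x) (by rw [hx]; ring) h2))
  · exact ls_even hv (ls_left hv hx h)

end LAM

theorem sym : SymStmt := by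
  classical
  intro K _ _ v hv c hc
  obtain ⟨l, hl⟩ := lam K v hv
  let o : Kˣ →* Multiplicative ℤ := MonoidHom.mk' (fun x => Multiplicative.ofAdd (ord v (x : K)))
    fun x y => by rw [Units.val_mul, ord_mul v x.ne_zero y.ne_zero, ofAdd_add]
  rcases Int.even_or_odd (ord v c) with he | ho
  · have hno : ¬ Odd (ord v c) := Int.not_odd_iff_even.mpr he
    by_cases hL : LS v c
    · exact ⟨1, fun _ _ _ _ => rfl, fun _ h => absurd hL h, fun h => absurd h hno⟩
    · have hiff : ∀ x : Kˣ, (zpowersHom _ (Multiplicative.ofAdd (1 : ZMod 2))).comp o x = 1 ↔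
          Even (ord v (x : K)) := fun x => by
        change (Multiplicative.ofAdd (1 : ZMod 2)) ^ (ord v (x : K)) = 1 ↔ _
        refine ⟨fun h => ?_, zpow_even _⟩
        by_contra h'
        obtain ⟨m, hm⟩ := Int.not_even_iff_odd.mp h'
        rw [hm, zpow_add, zpow_even _ (even_two_mul m), one_mul, zpow_one] at h
        exact absurd h (by decide)
      refine ⟨(zpowersHom _ (Multiplicative.ofAdd (1 : ZMod 2))).comp o, fun x α β hx => ?_,
        fun _ _ => hiff, fun h => absurd h hno⟩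
      exact (hiff x).mpr (even_norm hv hc x.ne_zero hx he hL)
  · have hne : ¬ Even (ord v c) := Int.not_even_iff_odd.mpr ho
    let d : Kˣ := Units.mk0 (-c) (neg_ne_zero.mpr hc)
    have hh : ∀ x : Kˣ, (l * (zpowersHom _ (l d)).comp o) x = l x * l d ^ ord v (x : K) :=
      fun _ => rfl
    refine ⟨l * (zpowersHom _ (l d)).comp o, fun x α β hx => ?_, fun h => absurd h hne,
      fun _ x hx => ?_⟩
    · rw [hh]
      rcases lt_trichotomy (v.valuation K (α ^ 2)) (v.valuation K (c * β ^ 2)) with h | h | h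
      · have h1 : LS v ((x / d : Kˣ) : K) := by
          rw [Units.val_div_eq_div_val]; exact ls_right hv hc hx h
        obtain ⟨h2, h3⟩ := (hl _).mp h1
        rw [map_div, div_eq_one] at h3
        rw [Units.val_div_eq_div_val, ord_div v x.ne_zero d.ne_zero,
          show ord v (d : K) = ord v c from ord_neg v c] at h2
        rw [h3, ← zpow_one_add]
        refine zpow_even _ ?_
        have := (h2.add_odd ho).add_odd odd_one
        rwa [sub_add_cancel, add_comm] at this
      · exfalso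
        have h1 : α ≠ 0 := by
          rintro rfl
          rw [show (0 : K) ^ 2 = 0 by ring, map_zero, eq_comm, Valuation.zero_iff] at h
          exact x.ne_zero (by rw [hx, h]; ring)
        have hβ : β ≠ 0 := by
          rintro rfl
          rw [show c * (0 : K) ^ 2 = 0 by ring, map_zero, Valuation.zero_iff] at h
          exact pow_ne_zero 2 h1 h
        have h2 : ord v (α ^ 2) = ord v (c * β ^ 2) := by rw [ord, h, ord]
        rw [ord_mul v hc (pow_ne_zero 2 hβ), ord_pow, ord_pow] at h2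
        exact hne ⟨ord v α - ord v β, by push_cast at h2; linarith⟩
      · obtain ⟨h2, h3⟩ := (hl _).mp (ls_left hv hx h)
        rw [h3, zpow_even _ h2, one_mul]
    · rw [hh, hx, zpow_zero, mul_one, hl, hx]
      simp

end Pool.Agent.Lib.Tower
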