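import Pool.Agent.Lib.Tower.Blue

set_option autoImplicit false

open NumberField IsDedekindDomain WithZero Module Subgroup

namespace Pool.Agent.Lib.Tower

namespace LEMH

variable {K M : Type} [Field K] [NumberField K] [Field M] [NumberField M] [Algebra K M]
  {c : K} {θ : M} {σ : M ≃ₐ[K] M}

omit [NumberField K] in
lemma ord_conj (h : Quad c θ σ) (w : Pr M) (y : M) : ord w (σ y) = ord (σ • w) y := by
  have h1 := ord_act σ (σ • w) y
  rwa [← mul_smul, h.mul_self, one_smul] at h1

/-- the conjugation on the `S`-units of `M` -/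
noncomputable def conj (h : Quad c θ σ) (S : Set (Pr K)) :
    US M (above M S) →* US M (above M S) :=
  ((Units.map (σ : M →* M)).comp (US M (above M S)).subtype).codRestrict _ fun x w hw => by
    have := h.isGalois
    change ord w (σ ((x : Mˣ) : M)) = 0
    rw [ord_conj h]
    refine x.2 _ fun h' => hw ?_
    change (σ • w).under (𝓞 K) ∈ S at h'
    rwa [under_act] at h'

lemma coe_conj (h : Quad c θ σ) (S : Set (Pr K)) (x : US M (above M S)) :
    (((conj h S x : US M (above M S)) : Mˣ) : M) = σ ((x : Mˣ) : M) := rfl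

variable (M) in
/-- the inclusion of `S`-units -/
noncomputable def incl (S : Set (Pr K)) : US K S →* US M (above M S) :=
  ((inc K M).comp (US K S).subtype).codRestrict _ fun x w hw => by
    obtain ⟨e, -, he⟩ := exists_ord_e (K := K) w
    change ord w (algebraMap K M ((x : Kˣ) : K)) = 0
    rw [he, x.2 _ hw, mul_zero]

lemma coe_incl (S : Set (Pr K)) (x : US K S) :
    (((incl M S x : US M (above M S)) : Mˣ) : M) = algebraMap K M ((x : Kˣ) : K) := rfl

lemma incl_injective (S : Set (Pr K)) : Function.Injective (incl M S) := fun x y hxy => by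
  have h1 := congrArg (fun z : US M (above M S) => ((z : Mˣ) : M)) hxy
  simp only [coe_incl] at h1
  exact Subtype.ext (Units.ext ((algebraMap K M).injective h1))

lemma range_incl (h : Quad c θ σ) (S : Set (Pr K)) :
    (incl M S).range = (conj h S).eqLocus (MonoidHom.id _) := by
  ext y
  constructor
  · rintro ⟨x, rfl⟩
    exact Subtype.ext (Units.ext (σ.commutes _))
  · intro hy
    have h1 : σ ((y : Mˣ) : M) = ((y : Mˣ) : M) :=
      congrArg (fun z : US M (above M S) => ((z : Mˣ) : M)) hy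
    obtain ⟨α, hα⟩ := h.fix h1
    have h0 : α ≠ 0 := by
      rintro rfl
      exact (y : Mˣ).ne_zero (by rw [hα, map_zero])
    refine ⟨⟨Units.mk0 α h0, fun v hv => ?_⟩, Subtype.ext (Units.ext hα.symm)⟩
    obtain ⟨w, rfl⟩ := exists_under_eq M v
    obtain ⟨e, he, h2⟩ := exists_ord_e (K := K) w
    have h3 := y.2 w hv
    rw [hα, h2] at h3
    exact (mul_eq_zero.mp h3).resolve_left (by exact_mod_cast he.ne')

lemma comap_incl (h : Quad c θ σ) (S : Set (Pr K)) :
    (MonoidHom.id _ * conj h S).range.comap (incl M S) = (NmS σ S).subgroupOf (US K S) := by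
  ext x
  constructor
  · rintro ⟨y, hy⟩
    exact ⟨y, y.2, (congrArg (fun z : US M (above M S) => ((z : Mˣ) : M)) hy).symm⟩
  · rintro ⟨y, hy, h1⟩
    exact ⟨⟨y, hy⟩, Subtype.ext (Units.ext h1.symm)⟩

lemma sq_eq_one {S : Set (Pr M)} {x : US M S} (hx : x ^ 2 = 1) :
    ((x : Mˣ) : M) = 1 ∨ ((x : Mˣ) : M) = -1 := by
  have h1 : ((x : Mˣ) : M) ^ 2 = 1 := congrArg (fun z : US M S => ((z : Mˣ) : M)) hx
  exact sq_eq_one_iff.mp h1

lemma card_two (S : Set (Pr M)) : Nat.card {x : US M S // x ^ 2 = 1} = 2 := by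
  rw [Nat.card_eq_two_iff]
  have hm : (-1 : Mˣ) ∈ US M S := fun v _ => by
    rw [Units.val_neg, ord_neg, Units.val_one, ord_one]
  refine ⟨⟨1, one_pow 2⟩, ⟨⟨-1, hm⟩, Subtype.ext (by simp)⟩, fun h => ?_,
    Set.eq_univ_of_forall fun x => ?_⟩
  · have h1 : (1 : M) = -1 :=
      congrArg (fun z : {x : US M S // x ^ 2 = 1} => (((z : US M S) : Mˣ) : M)) h
    norm_num at h1
  · rcases sq_eq_one x.2 with h | h
    · exact Or.inl (Subtype.ext (Subtype.ext (Units.ext h)))
    · exact Or.inr (Subtype.ext (Subtype.ext (Units.ext h)))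

lemma h90 (h : Quad c θ σ) {S : Set (Pr K)} (hS : CL S)
    (hu : ∀ w : Pr M, w.under (𝓞 K) ∉ S → URat K w) (u : US M (above M S))
    (h1 : u * conj h S u = 1) : ∃ y, u = y / conj h S y := by
  have := h.isGalois
  obtain ⟨z, hz, h2⟩ := h.h90 (y := ((u : Mˣ) : M))
    (congrArg (fun z : US M (above M S) => ((z : Mˣ) : M)) h1)
  choose W hW using exists_under_eq M (E := K)
  have hinj : Function.Injective W := fun v v' hv => by rw [← hW v, hv, hW]
  obtain ⟨x, hx⟩ := hS (Finsupp.ofSupportFinite (fun v => ord (W v) z)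
    ((finite_ord_ne_zero z).preimage hinj.injOn))
  have h3 : ∀ w : Pr M, w.under (𝓞 K) ∉ S → ord (σ • w) z = ord w z := fun w hw => by
    have h4 := u.2 w hw
    rw [h2, ord_div w hz ((map_ne_zero σ).mpr hz), ord_conj h] at h4
    omega
  refine ⟨⟨Units.mk0 z hz / inc K M x, fun w hw => ?_⟩, Subtype.ext (Units.ext ?_)⟩
  · rw [Units.val_div_eq_div_val, ord_div w (Units.ne_zero _) (Units.ne_zero _), coe_inc, hu w hw,
      hx _ hw, Finsupp.ofSupportFinite_coe, Units.val_mk0, sub_eq_zero]
    obtain ⟨τ, hτ⟩ := exists_act_eq (E := K) (hW (w.under (𝓞 K))).symm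
    rw [← hτ]
    rcases h.aut τ with rfl | rfl
    · rw [one_smul]
    · exact (h3 w hw).symm
  · have h5 : algebraMap K M (x : K) ≠ 0 := (map_ne_zero _).mpr x.ne_zero
    have h6 : σ z ≠ 0 := (map_ne_zero σ).mpr hz
    rw [Subgroup.coe_div, Units.val_div_eq_div_val, coe_conj]
    refine h2.trans ?_
    simp only [Units.val_div_eq_div_val, coe_inc, Units.val_mk0, map_div₀, AlgEquiv.commutes]
    field_simp

lemma card_above (h : Quad c θ σ) {S P : Set (Pr K)} (hS : S.Finite) (hP : P ⊆ S)
    (hs : ∀ w : Pr M, w.under (𝓞 K) ∈ S → w.under (𝓞 K) ∉ P → σ • w ≠ w) :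
    2 * S.ncard ≤ (above M S).ncard + P.ncard := by
  have := h.isGalois
  choose W hW using exists_under_eq M (E := K)
  have hinj : Function.Injective W := fun v v' hv => by rw [← hW v, hv, hW]
  have hinj' : Function.Injective fun v => σ • W v := fun v v' hv => hinj (smul_left_cancel σ hv)
  have h1 : W '' S ∪ (fun v => σ • W v) '' (S \ P) ⊆ above M S := by
    rintro _ (⟨v, hv, rfl⟩ | ⟨v, hv, rfl⟩)
    · change (W v).under (𝓞 K) ∈ S
      rwa [hW]
    · change (σ • W v).under (𝓞 K) ∈ S
      rw [under_act, hW]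
      exact hv.1
  have h2 : Disjoint (W '' S) ((fun v => σ • W v) '' (S \ P)) := by
    rw [Set.disjoint_left]
    rintro _ ⟨v, -, rfl⟩ ⟨v', hv', h3⟩
    have h4 : v' = v := by
      have h5 := congrArg (fun w : Pr M => w.under (𝓞 K)) h3
      simpa only [under_act, hW] using h5
    subst h4
    exact hs (W v') (by rw [hW]; exact hv'.1) (by rw [hW]; exact hv'.2) h3
  have h3 := Set.ncard_le_ncard h1 (finite_above hS)
  rw [Set.ncard_union_eq h2 (hS.image _) (hS.sdiff.image _), Set.ncard_image_of_injective _ hinj,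
    Set.ncard_image_of_injective _ hinj'] at h3
  have h4 := Set.ncard_sdiff_add_ncard_of_subset hP hS
  omega

end LEMH

open LEMH in
theorem lemH (hT : TsDownStmt) (hSu : SuStmt) (hH : HerbStmt) : LemHStmt := by
  intro K M _ _ _ _ _ c θ σ h hM S P hS hcl hu hP hs
  obtain ⟨hfg, hA, -⟩ := hSu M hM (above M S) (finite_above hS)
  obtain ⟨-, hB, -⟩ := hSu K ((hT K M ℝ).2.2 hM).1 S hS
  have h1 := hH (US M (above M S)) (conj h S)
    (fun x => Subtype.ext (Units.ext (h.invol _)))
    (fun x hx => Subtype.ext (Units.ext (by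
      rw [coe_conj]
      rcases sq_eq_one hx with h1 | h1 <;> simp [h1]))) (h90 h hcl hu)
  have e : US K S ≃* (conj h S).eqLocus (MonoidHom.id _) :=
    (MonoidHom.ofInjective (incl_injective S)).trans (MulEquiv.subgroupCongr (range_incl h S))
  have h2 : (square ((conj h S).eqLocus (MonoidHom.id _))).index = (square (US K S)).index := by
    rw [← index_comap_of_surjective _ (f := e.toMonoidHom) e.surjective]
    congr 1
    ext x
    rw [mem_comap, mem_square, mem_square]
    exact ⟨fun hx => by simpa using hx.map e.symm, fun hx => hx.map e⟩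
  have h3 : finrank ℚ M = finrank ℚ K * 2 := by
    rw [← h.finrank, finrank_mul_finrank]
  rw [h2, hA, hB, card_two, ← range_incl h S, ← index_comap, comap_incl, h3] at h1
  change (NmS σ S).relIndex (US K S) * _ * _ = _ at h1
  have h4 := card_above h hS hP hs
  refine ⟨fun h0 => ?_, ?_⟩
  · rw [h0, zero_mul, zero_mul] at h1
    exact absurd h1.symm (by positivity)
  · refine Nat.le_of_mul_le_mul_right (c := 2 ^ ((above M S).ncard + finrank ℚ K * 2)) ?_
      (by positivity)
    rw [show ∀ a b : ℕ, 2 * a * b = a * b * 2 from fun a b => by ring, h1, ← pow_mul, ← pow_add]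
    exact Nat.pow_le_pow_right two_pos (by omega)

end Pool.Agent.Lib.Tower
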