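import Pool.Agent.Lib.Tower.Defs

set_option autoImplicit false

open NumberField IsDedekindDomain WithZero Module Polynomial

namespace Pool.Agent.Lib.Tower
open Pool.Agent.Lib.helper22.Val

section
variable {K L : Type} [Field K] [Field L] [Algebra K L] {c : K} {θ : L} {σ : L ≃ₐ[K] L}

lemma Quad.c_ne (h : Quad c θ σ) : c ≠ 0 := by
  rintro rfl
  exact h.ne (pow_eq_zero_iff two_ne_zero |>.mp (by rw [h.sq, map_zero]))

lemma Quad.map (h : Quad c θ σ) (α β : K) :
    σ (algebraMap K L α + algebraMap K L β * θ) = algebraMap K L α - algebraMap K L β * θ := by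
  rw [map_add, map_mul, σ.commutes, σ.commutes, h.conj]; ring

lemma Quad.invol (h : Quad c θ σ) (y : L) : σ (σ y) = y := by
  obtain ⟨α, β, rfl⟩ := h.span y
  rw [h.map, map_sub, map_mul, σ.commutes, σ.commutes, h.conj]; ring

lemma Quad.mul_self (h : Quad c θ σ) : σ * σ = 1 := AlgEquiv.ext h.invol

lemma Quad.inv_eq (h : Quad c θ σ) : σ⁻¹ = σ := inv_eq_of_mul_eq_one_right h.mul_self

lemma Quad.norm (h : Quad c θ σ) (α β : K) :
    (algebraMap K L α + algebraMap K L β * θ) * σ (algebraMap K L α + algebraMap K L β * θ) =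
      algebraMap K L (α ^ 2 - c * β ^ 2) := by
  rw [h.map, map_sub, map_mul, map_pow, map_pow, ← h.sq]; ring

lemma Quad.exists_norm (h : Quad c θ σ) (y : L) :
    ∃ α β : K, y * σ y = algebraMap K L (α ^ 2 - c * β ^ 2) := by
  obtain ⟨α, β, rfl⟩ := h.span y
  exact ⟨α, β, h.norm α β⟩

lemma Quad.aut (h : Quad c θ σ) (τ : L ≃ₐ[K] L) : τ = 1 ∨ τ = σ := by
  have h1 : (τ θ) ^ 2 = θ ^ 2 := by rw [← map_pow, h.sq, τ.commutes]
  rcases sq_eq_sq_iff_eq_or_eq_neg.mp h1 with h2 | h2
  · refine Or.inl (AlgEquiv.ext fun y => ?_)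
    obtain ⟨α, β, rfl⟩ := h.span y
    rw [map_add, map_mul, τ.commutes, τ.commutes, h2, AlgEquiv.one_apply]
  · refine Or.inr (AlgEquiv.ext fun y => ?_)
    obtain ⟨α, β, rfl⟩ := h.span y
    rw [h.map, map_add, map_mul, τ.commutes, τ.commutes, h2]; ring

/-- rescaling the generator -/
lemma Quad.scale (h : Quad c θ σ) {t : K} (ht : t ≠ 0) :
    Quad (c * t ^ 2) (θ * algebraMap K L t) σ where
  sq := by rw [mul_pow, h.sq, map_mul, map_pow]
  ne := mul_ne_zero h.ne ((_root_.map_ne_zero _).mpr ht)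
  conj := by rw [map_mul, h.conj, σ.commutes, neg_mul]
  span y := by
    obtain ⟨α, β, rfl⟩ := h.span y
    refine ⟨α, β / t, ?_⟩
    have : algebraMap K L t ≠ 0 := (_root_.map_ne_zero _).mpr ht
    rw [map_div₀]; field_simp

variable [CharZero L]

lemma Quad.ext (h : Quad c θ σ) {α β : K} (h0 : algebraMap K L α + algebraMap K L β * θ = 0) :
    α = 0 ∧ β = 0 := by
  have h1 := h.map α β
  rw [h0, map_zero] at h1
  have h2 : algebraMap K L α = 0 := by linear_combination (h0 - h1) / 2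
  have h3 : algebraMap K L β * θ = 0 := by linear_combination (h0 + h1) / 2
  exact ⟨(_root_.map_eq_zero _).mp h2,
    (_root_.map_eq_zero _).mp ((mul_eq_zero.mp h3).resolve_right h.ne)⟩

lemma Quad.fix (h : Quad c θ σ) {y : L} (hy : σ y = y) : ∃ α : K, y = algebraMap K L α := by
  obtain ⟨α, β, rfl⟩ := h.span y
  rw [h.map] at hy
  exact ⟨α, by linear_combination -hy / 2⟩

lemma Quad.ne_one (h : Quad c θ σ) : σ ≠ 1 := by
  rintro rfl
  have := h.conj
  rw [AlgEquiv.one_apply] at this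
  exact h.ne (by linear_combination this / 2)

lemma Quad.not_isSquare (h : Quad c θ σ) : ¬ IsSquare c := by
  rintro ⟨t, rfl⟩
  have h1 : θ ^ 2 = (algebraMap K L t) ^ 2 := by rw [h.sq, map_mul]; ring
  have h2 := h.conj
  rcases sq_eq_sq_iff_eq_or_eq_neg.mp h1 with h3 | h3
  · rw [h3, σ.commutes, ← h3] at h2
    exact h.ne (by linear_combination h2 / 2)
  · rw [h3, map_neg, σ.commutes, ← h3] at h2
    exact h.ne (by linear_combination h2 / 2)

/-- an element of the base is a square above iff it or its product with `c` is a square -/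
lemma Quad.isSquare_iff (h : Quad c θ σ) (u : K) :
    IsSquare (algebraMap K L u) ↔ IsSquare u ∨ IsSquare (c * u) := by
  constructor
  · rintro ⟨y, hy⟩
    obtain ⟨α, β, rfl⟩ := h.span y
    have h1 := h.ext (α := α ^ 2 + c * β ^ 2 - u) (β := 2 * α * β) (by
      simp only [map_sub, map_add, map_mul, map_pow, map_ofNat, ← h.sq, hy]; ring)
    rcases mul_eq_zero.mp h1.2 with h2 | h2
    · have h3 : α = 0 := by
        refine (mul_eq_zero.mp h2).resolve_left fun h4 => ?_
        have := congrArg (algebraMap K L) h4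
        simp [map_ofNat] at this
      exact Or.inr ⟨c * β, by rw [h3] at h1; linear_combination -c * h1.1⟩
    · exact Or.inl ⟨α, by rw [h2] at h1; linear_combination -h1.1⟩
  · rintro (⟨t, rfl⟩ | ⟨t, ht⟩)
    · exact ⟨algebraMap K L t, map_mul _ _ _⟩
    · refine ⟨algebraMap K L t / θ, ?_⟩
      have := congrArg (algebraMap K L) ht
      rw [map_mul, ← h.sq, map_mul] at this
      have h0 := h.ne
      field_simp
      linear_combination this

/-- Hilbert 90 -/
lemma Quad.h90 (h : Quad c θ σ) {y : L} (hy : y * σ y = 1) : ∃ z : L, z ≠ 0 ∧ y = z / σ z := by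
  by_cases h1 : 1 + y = 0
  · refine ⟨θ, h.ne, ?_⟩
    rw [h.conj, div_neg, div_self h.ne]
    linear_combination h1
  · refine ⟨1 + y, h1, ?_⟩
    have h2 : σ (1 + y) ≠ 0 := (_root_.map_ne_zero σ).mpr h1
    rw [eq_div_iff h2, map_add, map_one]
    linear_combination hy

lemma Quad.finrank (h : Quad c θ σ) : finrank K L = 2 := by
  have hli : LinearIndependent K ![(1 : L), θ] := by
    rw [LinearIndependent.pair_iff]
    intro s t hst
    exact h.ext (by rwa [Algebra.smul_def, Algebra.smul_def, mul_one] at hst)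
  have hsp : ⊤ ≤ Submodule.span K (Set.range ![(1 : L), θ]) := fun y _ => by
    obtain ⟨α, β, rfl⟩ := h.span y
    rw [Algebra.algebraMap_eq_smul_one, ← Algebra.smul_def]
    exact add_mem (Submodule.smul_mem _ _ (Submodule.subset_span ⟨0, rfl⟩))
      (Submodule.smul_mem _ _ (Submodule.subset_span ⟨1, rfl⟩))
  simpa using finrank_eq_card_basis (Basis.mk hli hsp)

lemma Quad.finite (h : Quad c θ σ) : FiniteDimensional K L :=
  Module.finite_of_finrank_pos (by rw [h.finrank]; norm_num)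

lemma Quad.card_aut (h : Quad c θ σ) : Nat.card (L ≃ₐ[K] L) = 2 := by
  rw [Nat.card_eq_two_iff]
  exact ⟨1, σ, h.ne_one.symm, Set.eq_univ_of_forall fun τ => h.aut τ⟩

lemma Quad.isGalois (h : Quad c θ σ) : IsGalois K L :=
  have := h.finite
  IsGalois.of_card_aut_eq_finrank K L (h.card_aut.trans h.finrank.symm)

/-- construction from an involution with fixed field `K` -/
lemma exists_quad_of_invol {σ : L ≃ₐ[K] L} (h1 : σ ≠ 1) (h2 : ∀ y, σ (σ y) = y)
    (h3 : ∀ y, σ y = y → ∃ α : K, y = algebraMap K L α) : ∃ (c : K) (θ : L), Quad c θ σ := by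
  obtain ⟨y, hy⟩ : ∃ y, σ y ≠ y := by
    by_contra! h
    exact h1 (AlgEquiv.ext h)
  have h4 : σ (y - σ y) = -(y - σ y) := by rw [map_sub, h2]; ring
  have h5 : y - σ y ≠ 0 := sub_ne_zero.mpr hy.symm
  obtain ⟨c, hc⟩ := h3 ((y - σ y) ^ 2) (by rw [map_pow, h4, neg_sq])
  refine ⟨c, y - σ y, hc, h5, h4, fun z => ?_⟩
  obtain ⟨α, hα⟩ := h3 ((z + σ z) / 2) (by rw [map_div₀, map_add, h2, map_ofNat, add_comm])
  obtain ⟨β, hβ⟩ := h3 ((z - σ z) / (2 * (y - σ y))) (by
    rw [map_div₀, map_mul, h4, map_sub, h2, map_ofNat, mul_neg, div_neg, ← neg_div, neg_sub])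
  refine ⟨α, β, ?_⟩
  rw [← hα, ← hβ]
  field_simp
  ring

end

section
variable {K : Type} [Field K] [NumberField K]

/-- adjoining a square root -/
lemma exists_quad {c : K} (hc : ¬ IsSquare c) :
    ∃ (L : Type) (_ : Field L) (_ : NumberField L) (_ : Algebra K L) (θ : L) (σ : L ≃ₐ[K] L),
      Quad c θ σ := by
  have : Fact (∀ r : K, r ^ 2 ≠ c + 0 * r) := ⟨fun r h => hc ⟨r, by rw [← sq, h]; ring⟩⟩
  have : CharZero (QuadraticAlgebra K c 0) := algebraRat.charZero _
  have : NumberField (QuadraticAlgebra K c 0) := NumberField.of_module_finite K _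
  let σ : QuadraticAlgebra K c 0 ≃ₐ[K] QuadraticAlgebra K c 0 :=
    AlgEquiv.ofRingEquiv (f := starRingAut) fun x => by ext <;> simp
  refine ⟨QuadraticAlgebra K c 0, inferInstance, inferInstance, inferInstance, ⟨0, 1⟩, σ, ?_, ?_, ?_,
    fun y => ⟨y.re, y.im, ?_⟩⟩
  · ext <;> simp [sq]
  · intro h
    simpa using congrArg QuadraticAlgebra.im h
  · ext <;> simp [σ]
  · ext <;> simp

variable {L : Type} [Field L] [NumberField L] [Algebra K L]

lemma exists_ord_e (w : Pr L) : ∃ e : ℕ, 0 < e ∧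
    ∀ x : K, ord w (algebraMap K L x) = e * ord (w.under (𝓞 K)) x := by
  obtain ⟨e, he, h⟩ := exists_e (E := K) w
  exact ⟨e, he, fun x => by rw [ord, h, log_pow, nsmul_eq_mul, ord]; ring⟩

lemma URat.val {w : Pr L} (h : URat K w) (x : K) :
    w.valuation L (algebraMap K L x) = (w.under (𝓞 K)).valuation K x := by
  rcases eq_or_ne x 0 with rfl | hx
  · simp
  rw [val_eq_exp w ((_root_.map_ne_zero _).mpr hx), h x, val_eq_exp _ hx]

/-- one element of valuation one from below suffices -/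
lemma urat_of_ord_eq_one {w : Pr L} {a : K} (h : ord w (algebraMap K L a) = 1) : URat K w := by
  obtain ⟨e, he, h1⟩ := exists_ord_e (K := K) w
  have h2 : (e : ℤ) = 1 := Int.eq_one_of_mul_eq_one_right (by positivity) ((h1 a).symm.trans h)
  intro x
  rw [h1, h2, one_mul]

omit [NumberField K] [NumberField L] in
lemma over_under (q : ℕ) (w : Pr L) : Over q (w.under (𝓞 K)) ↔ Over q w := mem_under K w q

lemma LS.map {w : Pr L} {x : K} (h : LS (w.under (𝓞 K)) x) : LS w (algebraMap K L x) := by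
  obtain ⟨y, hy⟩ := h
  obtain ⟨e, he, h1⟩ := exists_e (E := K) w
  refine ⟨algebraMap K L y, ?_⟩
  have h2 := h1 (x / y ^ 2 - 1)
  have h3 := h1 4
  rw [map_sub, map_div₀, map_pow, map_one] at h2
  rw [map_ofNat] at h3
  rw [h2, h3]
  exact pow_lt_pow_left₀ hy zero_le he.ne'

lemma finite_above {S : Set (Pr K)} (hS : S.Finite) : (above L S).Finite := by
  refine (hS.biUnion (t := fun v => {w : Pr L | w.under (𝓞 K) = v}) fun v _ => ?_).subset
    fun w hw => Set.mem_biUnion hw rfl
  obtain ⟨π, hπ, h⟩ := exists_ord_eq_one v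
  refine (finite_ord_ne_zero (algebraMap K L π)).subset fun w (hw : _ = _) => ?_
  obtain ⟨e, he, h1⟩ := exists_ord_e (K := K) w
  change ord w _ ≠ 0
  rw [h1, hw, h, mul_one]
  exact_mod_cast he.ne'

variable {N : Type} [Field N] [NumberField N] [Algebra K N] [Algebra L N] [IsScalarTower K L N]

lemma URat.trans {w : Pr N} (h1 : URat K (w.under (𝓞 L))) (h2 : URat L w) : URat K w := fun x => by
  rw [IsScalarTower.algebraMap_apply K L N, h2, h1, under_under]

lemma URat.of_trans {w : Pr N} (h : URat K w) : URat K (w.under (𝓞 L)) ∧ URat L w := by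
  obtain ⟨π, -, hπ⟩ := exists_ord_eq_one (w.under (𝓞 K))
  have h1 := (h π).trans hπ
  rw [IsScalarTower.algebraMap_apply K L N] at h1
  have h2 := urat_of_ord_eq_one h1
  exact ⟨urat_of_ord_eq_one ((h2 _).symm.trans h1), h2⟩

lemma UR.trans (h1 : UR K L) (h2 : UR L N) : UR K N := fun w => (h1 _).trans (h2 w)

lemma UR.top (h : UR K N) : UR L N := fun w => (h w).of_trans.2

lemma UR.bot (h : UR K N) : UR K L := fun w => by
  obtain ⟨P, rfl⟩ := exists_under_eq N w
  exact (h P).of_trans.1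

end

end Pool.Agent.Lib.Tower
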