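import Pool.Agent.Lib.Tower.Blue

set_option autoImplicit false

open Module Subgroup
open scoped DirectSum

namespace Pool.Agent.Lib.Tower

namespace RK

lemma prod_case (F T : Type) [AddCommGroup F] [AddCommGroup T] [Module.Free ℤ F]
    [Module.Finite ℤ F] [Finite T] (n : ℕ) (hn : n ≠ 0) :
    (nsmulAddMonoidHom (α := F × T) n).range.index =
      n ^ finrank ℤ (F × T) * Nat.card {x : F × T // n • x = 0} := by
  have h1 : (nsmulAddMonoidHom (α := F × T) n).range =
      (nsmulAddMonoidHom (α := F) n).range.prod (nsmulAddMonoidHom (α := T) n).range := by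
    ext ⟨a, b⟩
    simp only [AddMonoidHom.mem_range, nsmulAddMonoidHom_apply, AddSubgroup.mem_prod, Prod.exists,
      Prod.smul_mk, Prod.mk.injEq]
    exact ⟨fun ⟨x, y, h, h'⟩ => ⟨⟨x, h⟩, y, h'⟩, fun ⟨⟨x, h⟩, y, h'⟩ => ⟨x, y, h, h'⟩⟩
  have h2 : finrank ℤ (F × T) = finrank ℤ F := by
    rw [← (LinearMap.quotKerEquivOfSurjective (LinearMap.fst ℤ F T)
      LinearMap.fst_surjective).finrank_eq, finrank_quotient_eq_of_le_torsion]
    rintro ⟨a, b⟩ h
    have ha : a = 0 := h
    refine ⟨⟨(Nat.card T : ℤ), mem_nonZeroDivisors_of_ne_zero (by simp [Nat.card_pos.ne'])⟩, ?_⟩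
    simp [ha, Submonoid.smul_def]
  have h3 : Nat.card {x : F × T // n • x = 0} = Nat.card (nsmulAddMonoidHom (α := T) n).ker := by
    refine Nat.card_congr ⟨fun x => ⟨x.1.2, congrArg Prod.snd x.2⟩,
      fun y => ⟨(0, y.1), Prod.ext (by simp) y.2⟩, fun x => Subtype.ext (Prod.ext ?_ rfl),
      fun y => rfl⟩
    have h : n • x.1.1 = 0 := congrArg Prod.fst x.2
    exact (AddSubgroup.nsmulAddMonoidHom_injective_of_isTorsionFree hn (by simpa using h)).symm
  rw [h1, AddSubgroup.index_prod, AddSubgroup.index_range_nsmul, AddSubgroup.index_range, h2, h3]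

lemma add_case (M : Type) [AddCommGroup M] [AddGroup.FG M] (n : ℕ) (hn : n ≠ 0) :
    (nsmulAddMonoidHom (α := M) n).range.index =
      n ^ finrank ℤ M * Nat.card {x : M // n • x = 0} := by
  classical
  obtain ⟨m, ι, _, p, hp, e, ⟨f⟩⟩ := AddCommGroup.equiv_free_prod_directSum_zmod M
  have : ∀ i, NeZero (p i ^ e i) := fun i => ⟨pow_ne_zero _ (hp i).ne_zero⟩
  have : Finite (⨁ i : ι, ZMod (p i ^ e i)) :=
    Finite.of_equiv _ (DirectSum.addEquivProd fun i => ZMod (p i ^ e i)).symm.toEquiv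
  rw [← AddSubgroup.index_map_equiv _ f, AddEquiv.map_range_nsmulAddMonoidHom, prod_case _ _ n hn,
    f.toIntLinearEquiv.finrank_eq]
  congr 1
  refine Nat.card_congr (f.symm.toEquiv.subtypeEquiv fun x => ?_)
  change _ ↔ n • f.symm x = 0
  rw [← map_nsmul, EmbeddingLike.map_eq_zero_iff]

end RK

theorem rk : RkStmt := by
  intro A _ _
  have h : (square A).toAddSubgroup = (nsmulAddMonoidHom (α := Additive A) 2).range := by
    ext x
    simp only [AddMonoidHom.mem_range, nsmulAddMonoidHom_apply, two_nsmul]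
    exact ⟨fun ⟨y, hy⟩ => ⟨Additive.ofMul y, hy.symm⟩, fun ⟨y, hy⟩ => ⟨y.toMul, hy.symm⟩⟩
  rw [← index_toAddSubgroup, h, RK.add_case _ 2 two_ne_zero]
  rfl

end Pool.Agent.Lib.Tower
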